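import Mathlib

/-!
# Iterated bivariate Lorenz curves: the one-dimensional part

Weights `w`, window averages `av w`, marginal densities `dn w` and the recursion for the weights
`W k` and the marginal distribution functions `Th k`.
-/

set_option autoImplicit false

namespace Pool.Agent.R530.Lor

open MeasureTheory Set

/-- The nearest point of `[0, 1]`. -/
noncomputable def clip (x : ℝ) : ℝ := max 0 (min 1 x)

/-- Lower end of the section of the region. -/
noncomputable def lo (s : ℝ) : ℝ := if s < 1 / 4 then 1 / 4 else max 0 (2 * s - 1)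

/-- Upper end of the section of the region. -/
noncomputable def hi (s : ℝ) : ℝ := (1 + s) / 2

/-- Integral of the weight over the section. -/
noncomputable def av (w : ℝ → ℝ) (s : ℝ) : ℝ := ∫ v in lo s..hi s, w v

/-- Marginal density (not normalized). -/
noncomputable def dn (w : ℝ → ℝ) (s : ℝ) : ℝ := w s * av w s

/-- Total mass. -/
noncomputable def nrm (w : ℝ → ℝ) : ℝ := ∫ s in (0 : ℝ)..1, dn w s

/-- Marginal distribution function. -/
noncomputable def cdfn (w : ℝ → ℝ) (x : ℝ) : ℝ := (∫ s in (0 : ℝ)..clip x, dn w s) / nrm w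

/-- The weights and the distribution functions. -/
noncomputable def st : ℕ → (ℝ → ℝ) × (ℝ → ℝ)
  | 0 => (fun _ => 1, clip)
  | k + 1 => (fun x => (st k).1 x * (st k).2 x, cdfn (st k).1)

/-- The weight number `k`. -/
noncomputable def W (k : ℕ) : ℝ → ℝ := (st k).1

/-- The distribution function number `k`. -/
noncomputable def Th (k : ℕ) : ℝ → ℝ := (st k).2

lemma W_zero : W 0 = fun _ => 1 := rfl
lemma Th_zero : Th 0 = clip := rfl
lemma W_succ (k : ℕ) : W (k + 1) = fun x => W k x * Th k x := rfl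
lemma Th_succ (k : ℕ) : Th (k + 1) = cdfn (W k) := rfl

lemma clip_mem (x : ℝ) : 0 ≤ clip x ∧ clip x ≤ 1 :=
  ⟨le_max_left _ _, max_le zero_le_one (min_le_left _ _)⟩

lemma clip_of_mem {x : ℝ} (h0 : 0 ≤ x) (h1 : x ≤ 1) : clip x = x := by
  rw [clip, min_eq_right h1, max_eq_right h0]

lemma clip_mono : Monotone clip := fun _ _ h => max_le_max le_rfl (min_le_min le_rfl h)

lemma clip_continuous : Continuous clip := by
  unfold clip; fun_prop

lemma clip_clip (x : ℝ) : clip (clip x) = clip x := clip_of_mem (clip_mem x).1 (clip_mem x).2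

/-- Good weights. -/
structure NiceW (w : ℝ → ℝ) : Prop where
  cont : Continuous w
  nonneg : ∀ x, 0 ≤ w x
  le_one : ∀ x, w x ≤ 1
  pos : ∀ x, 0 < x → x ≤ 1 → 0 < w x

/-- Good distribution functions. -/
structure NiceT (T : ℝ → ℝ) : Prop where
  cont : Continuous T
  mono : Monotone T
  zero : T 0 = 0
  one : T 1 = 1
  clip : ∀ x, T x = T (clip x)
  strict : ∀ x y, 0 ≤ x → x < y → y ≤ 1 → T x < T y

lemma NiceT.nonneg {T : ℝ → ℝ} (h : NiceT T) (x : ℝ) : 0 ≤ T x := by
  rw [h.clip, ← h.zero]; exact h.mono (clip_mem x).1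

lemma NiceT.le_one {T : ℝ → ℝ} (h : NiceT T) (x : ℝ) : T x ≤ 1 := by
  rw [h.clip, ← h.one]; exact h.mono (clip_mem x).2

lemma NiceT.pos {T : ℝ → ℝ} (h : NiceT T) {x : ℝ} (h0 : 0 < x) (h1 : x ≤ 1) : 0 < T x := by
  rw [← h.zero]; exact h.strict 0 x le_rfl h0 h1

lemma nice_mul {w T : ℝ → ℝ} (hw : NiceW w) (hT : NiceT T) : NiceW (fun x => w x * T x) where
  cont := hw.cont.mul hT.cont
  nonneg x := mul_nonneg (hw.nonneg x) (hT.nonneg x)
  le_one x := mul_le_one₀ (hw.le_one x) (hT.nonneg x) (hT.le_one x)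
  pos x h0 h1 := mul_pos (hw.pos x h0 h1) (hT.pos h0 h1)

lemma lo_measurable : Measurable lo := by
  unfold lo
  exact Measurable.ite measurableSet_Iio measurable_const (by fun_prop)

lemma lo_nonneg (s : ℝ) : 0 ≤ lo s := by
  unfold lo; split_ifs
  · norm_num
  · exact le_max_left _ _

lemma hi_le {s : ℝ} (h : s ≤ 1) : hi s ≤ 1 := by unfold hi; linarith

lemma lo_lt_hi {s : ℝ} (h0 : 0 ≤ s) (h1 : s < 1) : lo s < hi s := by
  unfold lo hi; split_ifs with h
  · linarith
  · rw [max_lt_iff]; constructor <;> linarith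

lemma lo_le_hi {s : ℝ} (h0 : 0 ≤ s) (h1 : s ≤ 1) : lo s ≤ hi s := by
  unfold lo hi; split_ifs with h
  · linarith
  · rw [max_le_iff]; constructor <;> linarith

section

variable {w : ℝ → ℝ} (hw : NiceW w)

include hw

lemma ii (a b : ℝ) : IntervalIntegrable w volume a b := hw.cont.intervalIntegrable a b

lemma av_eq (s : ℝ) : av w s = (∫ v in (0 : ℝ)..hi s, w v) - ∫ v in (0 : ℝ)..lo s, w v := by
  unfold av
  rw [intervalIntegral.integral_interval_sub_left (ii hw _ _) (ii hw _ _)]

lemma av_measurable : Measurable (av w) := by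
  have h : Continuous fun x => ∫ v in (0 : ℝ)..x, w v :=
    intervalIntegral.continuous_primitive (fun a b => ii hw a b) 0
  have e : av w = fun s => (∫ v in (0 : ℝ)..hi s, w v) - ∫ v in (0 : ℝ)..lo s, w v :=
    funext (av_eq hw)
  rw [e]
  exact (h.measurable.comp (by unfold hi; fun_prop)).sub (h.measurable.comp lo_measurable)

lemma dn_measurable : Measurable (dn w) := hw.cont.measurable.mul (av_measurable hw)

lemma av_abs_le (s : ℝ) : |av w s| ≤ |hi s - lo s| := by
  unfold av
  have := intervalIntegral.norm_integral_le_of_norm_le_const (a := lo s) (b := hi s) (f := w)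
    (C := 1) (fun x _ => by rw [Real.norm_eq_abs, abs_of_nonneg (hw.nonneg x)]; exact hw.le_one x)
  rwa [one_mul] at this

lemma dn_ii (a b : ℝ) : IntervalIntegrable (dn w) volume a b := by
  have hg : Continuous fun s : ℝ => (1 + |s|) + (1 + |2 * s - 1|) := by fun_prop
  refine (hg.intervalIntegrable a b).mono_fun' (dn_measurable hw).aestronglyMeasurable ?_
  filter_upwards with s
  rw [Real.norm_eq_abs]
  unfold dn
  rw [abs_mul, abs_of_nonneg (hw.nonneg s)]
  have h1 : w s * |av w s| ≤ 1 * |av w s| :=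
    mul_le_mul_of_nonneg_right (hw.le_one s) (abs_nonneg _)
  have h2 := av_abs_le hw s
  have h3 : |hi s - lo s| ≤ |hi s| + |lo s| := abs_sub _ _
  have h4 : |hi s| ≤ 1 + |s| := by
    unfold hi
    rw [abs_le]
    constructor <;> cases abs_cases s <;> linarith
  have h5 : |lo s| ≤ 1 + |2 * s - 1| := by
    rw [abs_of_nonneg (lo_nonneg s)]
    unfold lo
    split_ifs
    · have := abs_nonneg (2 * s - 1); linarith
    · rw [max_le_iff]
      constructor
      · positivity
      · linarith [le_abs_self (2 * s - 1)]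
  linarith

lemma av_nonneg {s : ℝ} (h0 : 0 ≤ s) (h1 : s ≤ 1) : 0 ≤ av w s :=
  intervalIntegral.integral_nonneg (lo_le_hi h0 h1) fun x _ => hw.nonneg x

lemma av_pos {s : ℝ} (h0 : 0 ≤ s) (h1 : s < 1) : 0 < av w s := by
  refine intervalIntegral.intervalIntegral_pos_of_pos_on (ii hw _ _) ?_ (lo_lt_hi h0 h1)
  intro x hx
  exact hw.pos x ((lo_nonneg s).trans_lt hx.1) (hx.2.le.trans (hi_le h1.le))

lemma dn_nonneg {s : ℝ} (h0 : 0 ≤ s) (h1 : s ≤ 1) : 0 ≤ dn w s :=
  mul_nonneg (hw.nonneg s) (av_nonneg hw h0 h1)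

lemma dn_pos {s : ℝ} (h0 : 0 < s) (h1 : s < 1) : 0 < dn w s :=
  mul_pos (hw.pos s h0 h1.le) (av_pos hw h0.le h1)

lemma int_dn_pos {a b : ℝ} (h0 : 0 ≤ a) (hab : a < b) (h1 : b ≤ 1) :
    0 < ∫ s in a..b, dn w s :=
  intervalIntegral.intervalIntegral_pos_of_pos_on (dn_ii hw _ _)
    (fun _ hx => dn_pos hw (h0.trans_lt hx.1) (hx.2.trans_le h1)) hab

lemma nrm_pos : 0 < nrm w := int_dn_pos hw le_rfl one_pos le_rfl

lemma nice_cdfn : NiceT (cdfn w) := by
  have hZ := nrm_pos hw
  have hprim : Continuous fun x => ∫ s in (0 : ℝ)..x, dn w s :=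
    intervalIntegral.continuous_primitive (fun a b => dn_ii hw a b) 0
  have hstrict : ∀ x y, 0 ≤ x → x < y → y ≤ 1 →
      (∫ s in (0 : ℝ)..x, dn w s) < ∫ s in (0 : ℝ)..y, dn w s := by
    intro x y hx hxy hy
    have := int_dn_pos hw hx hxy hy
    rw [← intervalIntegral.integral_add_adjacent_intervals (dn_ii hw 0 x) (dn_ii hw x y)]
    linarith
  refine ⟨?_, ?_, ?_, ?_, ?_, ?_⟩
  · exact (hprim.comp clip_continuous).div_const _
  · intro x y hxy
    unfold cdfn
    refine div_le_div_of_nonneg_right ?_ hZ.le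
    have hc := clip_mono hxy
    rcases hc.lt_or_eq with h | h
    · exact (hstrict _ _ (clip_mem x).1 h (clip_mem y).2).le
    · rw [h]
  · unfold cdfn
    rw [clip_of_mem le_rfl zero_le_one]
    simp
  · unfold cdfn
    rw [clip_of_mem zero_le_one le_rfl]
    exact div_self hZ.ne'
  · intro x
    unfold cdfn
    rw [clip_clip]
  · intro x y hx hxy hy
    unfold cdfn
    rw [clip_of_mem hx (hxy.le.trans hy), clip_of_mem (hx.trans hxy.le) hy]
    exact div_lt_div_of_pos_right (hstrict x y hx hxy hy) hZ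

/-- The tail of the distribution function. -/
lemma tail_eq {x : ℝ} (h0 : 0 ≤ x) (h1 : x ≤ 1) :
    1 - cdfn w x = (∫ s in x..1, dn w s) / nrm w := by
  have hZ := nrm_pos hw
  unfold cdfn
  rw [clip_of_mem h0 h1, eq_div_iff hZ.ne', sub_mul, div_mul_cancel₀ _ hZ.ne', one_mul]
  unfold nrm
  rw [← intervalIntegral.integral_add_adjacent_intervals (dn_ii hw 0 x) (dn_ii hw x 1)]
  ring

end

lemma nice (k : ℕ) : NiceW (W k) ∧ NiceT (Th k) := by
  induction k with
  | zero =>
    refine ⟨⟨continuous_const, fun _ => zero_le_one, fun _ => le_rfl, fun _ _ _ => one_pos⟩,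
      ⟨clip_continuous, clip_mono, clip_of_mem le_rfl zero_le_one, clip_of_mem zero_le_one le_rfl,
        fun x => (clip_clip x).symm, fun x y hx hxy hy => ?_⟩⟩
    rw [Th_zero, clip_of_mem hx (hxy.le.trans hy), clip_of_mem (hx.trans hxy.le) hy]
    exact hxy
  | succ k ih =>
    rw [W_succ, Th_succ]
    exact ⟨nice_mul ih.1 ih.2, nice_cdfn ih.1⟩

/-! ### Monotonicity of the averages -/

section Mono

variable {w T : ℝ → ℝ} (hw : NiceW w) (hT : NiceT T)

include hw hT

lemma int_le {a b : ℝ} (hab : a ≤ b) : (∫ v in a..b, w v * T v) ≤ T b * ∫ v in a..b, w v := by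
  rw [← intervalIntegral.integral_const_mul]
  refine intervalIntegral.integral_mono_on hab ((hw.cont.mul hT.cont).intervalIntegrable _ _)
    ((continuous_const.mul hw.cont).intervalIntegrable _ _) fun x hx => ?_
  rw [mul_comm]
  exact mul_le_mul_of_nonneg_right (hT.mono hx.2) (hw.nonneg x)

lemma le_int {a b : ℝ} (hab : a ≤ b) : T a * (∫ v in a..b, w v) ≤ ∫ v in a..b, w v * T v := by
  rw [← intervalIntegral.integral_const_mul]
  refine intervalIntegral.integral_mono_on hab
    ((continuous_const.mul hw.cont).intervalIntegrable _ _)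
    ((hw.cont.mul hT.cont).intervalIntegrable _ _) fun x hx => ?_
  rw [mul_comm (w x)]
  exact mul_le_mul_of_nonneg_right (hT.mono hx.1) (hw.nonneg x)

/-- The average over a window increases when both ends increase. -/
lemma window {a b a' b' : ℝ} (hab : a ≤ b) (hab' : a' ≤ b') (ha : a ≤ a') (hb : b ≤ b') :
    (∫ v in a..b, w v * T v) * (∫ v in a'..b', w v) ≤
      (∫ v in a..b, w v) * ∫ v in a'..b', w v * T v := by
  have hn : ∀ x y : ℝ, x ≤ y → 0 ≤ ∫ v in x..y, w v := fun x y hxy =>
    intervalIntegral.integral_nonneg hxy fun v _ => hw.nonneg v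
  have iw : ∀ x y : ℝ, IntervalIntegrable w volume x y := fun x y => ii hw x y
  have iT : ∀ x y : ℝ, IntervalIntegrable (fun v => w v * T v) volume x y := fun x y =>
    (hw.cont.mul hT.cont).intervalIntegrable _ _
  rcases le_total b a' with h | h
  · have h1 := int_le hw hT hab
    have h2 := le_int hw hT hab'
    have h3 := hT.mono h
    have h4 := hn _ _ hab
    have h5 := hn _ _ hab'
    calc (∫ v in a..b, w v * T v) * (∫ v in a'..b', w v)
        ≤ (T b * ∫ v in a..b, w v) * (∫ v in a'..b', w v) := mul_le_mul_of_nonneg_right h1 h5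
      _ ≤ (T a' * ∫ v in a..b, w v) * (∫ v in a'..b', w v) := by gcongr
      _ = (∫ v in a..b, w v) * (T a' * ∫ v in a'..b', w v) := by ring
      _ ≤ (∫ v in a..b, w v) * ∫ v in a'..b', w v * T v := mul_le_mul_of_nonneg_left h2 h4
  · -- overlapping windows
    rw [← intervalIntegral.integral_add_adjacent_intervals (iT a a') (iT a' b),
      ← intervalIntegral.integral_add_adjacent_intervals (iw a' b) (iw b b'),
      ← intervalIntegral.integral_add_adjacent_intervals (iw a a') (iw a' b),
      ← intervalIntegral.integral_add_adjacent_intervals (iT a' b) (iT b b')]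
    have p1 := hn _ _ ha
    have p2 := hn _ _ h
    have p3 := hn _ _ hb
    have q1 := int_le hw hT ha
    have q2 := le_int hw hT h
    have q3 := int_le hw hT h
    have q4 := le_int hw hT hb
    have q5 := hT.mono h
    set a1 := ∫ v in a..a', w v
    set a2 := ∫ v in a'..b, w v
    set a3 := ∫ v in b..b', w v
    set b1 := ∫ v in a..a', w v * T v
    set b2 := ∫ v in a'..b, w v * T v
    set b3 := ∫ v in b..b', w v * T v
    have r1 : b1 * a2 ≤ b2 * a1 := by
      calc b1 * a2 ≤ (T a' * a1) * a2 := mul_le_mul_of_nonneg_right q1 p2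
        _ = (T a' * a2) * a1 := by ring
        _ ≤ b2 * a1 := mul_le_mul_of_nonneg_right q2 p1
    have r2 : b2 * a3 ≤ b3 * a2 := by
      calc b2 * a3 ≤ (T b * a2) * a3 := mul_le_mul_of_nonneg_right q3 p3
        _ = (T b * a3) * a2 := by ring
        _ ≤ b3 * a2 := mul_le_mul_of_nonneg_right q4 p2
    have r3 : b1 * a3 ≤ b3 * a1 := by
      calc b1 * a3 ≤ (T a' * a1) * a3 := mul_le_mul_of_nonneg_right q1 p3
        _ ≤ (T b * a1) * a3 := by gcongr
        _ = (T b * a3) * a1 := by ring
        _ ≤ b3 * a1 := mul_le_mul_of_nonneg_right q4 p1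
    nlinarith

lemma lo_hi_mono {s s' : ℝ} (h : 1 / 2 ≤ s) (h' : s ≤ s') : lo s ≤ lo s' ∧ hi s ≤ hi s' := by
  unfold lo hi
  rw [if_neg (by linarith), if_neg (by linarith)]
  exact ⟨max_le_max le_rfl (by linarith), by linarith⟩

/-- The ratio of the new and the old marginal density is nondecreasing on `[1/2, 1]`. -/
lemma dn_ratio {s s' : ℝ} (h : 1 / 2 ≤ s) (h' : s ≤ s') (h1 : s' ≤ 1) :
    dn (fun x => w x * T x) s * dn w s' ≤ dn w s * dn (fun x => w x * T x) s' := by
  have hwin := window hw hT (lo_le_hi (by linarith) (by linarith)) (lo_le_hi (by linarith) h1)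
    (lo_hi_mono hw hT h h').1 (lo_hi_mono hw hT h h').2
  have hT1 := hT.mono h'
  have hs := hw.nonneg s
  have hs' := hw.nonneg s'
  have hTs := hT.nonneg s
  have ha : 0 ≤ av w s := av_nonneg hw (by linarith) (by linarith)
  have hb : 0 ≤ av (fun x => w x * T x) s' := av_nonneg (nice_mul hw hT) (by linarith) h1
  unfold dn
  change av (fun x => w x * T x) s * av w s' ≤ av w s * av (fun x => w x * T x) s' at hwin
  calc w s * T s * av (fun x => w x * T x) s * (w s' * av w s')
      = (w s * w s' * T s) * (av (fun x => w x * T x) s * av w s') := by ring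
    _ ≤ (w s * w s' * T s) * (av w s * av (fun x => w x * T x) s') := by gcongr
    _ ≤ (w s * w s' * T s') * (av w s * av (fun x => w x * T x) s') := by gcongr
    _ = w s * av w s * (w s' * T s' * av (fun x => w x * T x) s') := by ring

/-- The same comparison for a point of `[0, 1/2]` and a point of `[3/4, 1]`. -/
lemma dn_ratio' {s s' : ℝ} (h0 : 0 ≤ s) (h : s ≤ 1 / 2) (h' : 3 / 4 ≤ s') (h1 : s' ≤ 1) :
    dn (fun x => w x * T x) s * dn w s' ≤ dn w s * dn (fun x => w x * T x) s' := by
  have ha : 0 ≤ av w s := av_nonneg hw h0 (by linarith)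
  have ha' : 0 ≤ av w s' := av_nonneg hw (by linarith) h1
  have hb : 0 ≤ av (fun x => w x * T x) s' := av_nonneg (nice_mul hw hT) (by linarith) h1
  have e1 : av (fun x => w x * T x) s ≤ T (3 / 4) * av w s := by
    refine (int_le hw hT (lo_le_hi h0 (by linarith))).trans ?_
    refine mul_le_mul_of_nonneg_right (hT.mono ?_) ha
    unfold hi; linarith
  have e2 : T (1 / 2) * av w s' ≤ av (fun x => w x * T x) s' := by
    refine le_trans ?_ (le_int hw hT (lo_le_hi (by linarith) h1))
    refine mul_le_mul_of_nonneg_right (hT.mono ?_) ha'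
    unfold lo
    rw [if_neg (by linarith)]
    exact le_max_of_le_right (by linarith)
  have t1 := hT.mono h
  have t2 := hT.mono h'
  have hs := hw.nonneg s
  have hs' := hw.nonneg s'
  have n1 := hT.nonneg s
  have n2 := hT.nonneg (3 / 4)
  have n3 := hT.nonneg (1 / 2)
  unfold dn
  calc w s * T s * av (fun x => w x * T x) s * (w s' * av w s')
      = (w s * w s' * T s) * (av (fun x => w x * T x) s * av w s') := by ring
    _ ≤ (w s * w s' * T s) * ((T (3 / 4) * av w s) * av w s') := by gcongr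
    _ ≤ (w s * w s' * T (1 / 2)) * ((T (3 / 4) * av w s) * av w s') := by gcongr
    _ ≤ (w s * w s' * T (1 / 2)) * ((T s' * av w s) * av w s') := by gcongr
    _ = (w s * w s' * T s' * av w s) * (T (1 / 2) * av w s') := by ring
    _ ≤ (w s * w s' * T s' * av w s) * av (fun x => w x * T x) s' := by
        refine mul_le_mul_of_nonneg_left e2 ?_
        exact mul_nonneg (mul_nonneg (mul_nonneg hs hs') (hT.nonneg s')) ha
    _ = w s * av w s * (w s' * T s' * av (fun x => w x * T x) s') := by ring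

end Mono

/-- The pivot inequality. -/
lemma pivot {u u' : ℝ → ℝ} {a b c : ℝ} (hab : a ≤ b) (hbc : b ≤ c)
    (iu : ∀ x y, IntervalIntegrable u volume x y) (iu' : ∀ x y, IntervalIntegrable u' volume x y)
    (hu : ∀ x, a ≤ x → x ≤ c → 0 ≤ u x) {r : ℝ} (h1 : ∀ x, a ≤ x → x ≤ b → u' x ≤ r * u x)
    (h2 : ∀ x, b ≤ x → x ≤ c → r * u x ≤ u' x) :
    (∫ s in a..c, u' s) * (∫ s in b..c, u s) ≤ (∫ s in a..c, u s) * ∫ s in b..c, u' s := by
  have e1 : (∫ s in a..b, u' s) ≤ r * ∫ s in a..b, u s := by
    rw [← intervalIntegral.integral_const_mul]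
    exact intervalIntegral.integral_mono_on hab (iu' _ _) ((iu _ _).const_mul r)
      fun x hx => h1 x hx.1 hx.2
  have e2 : r * (∫ s in b..c, u s) ≤ ∫ s in b..c, u' s := by
    rw [← intervalIntegral.integral_const_mul]
    exact intervalIntegral.integral_mono_on hbc ((iu _ _).const_mul r) (iu' _ _)
      fun x hx => h2 x hx.1 hx.2
  have n1 : 0 ≤ ∫ s in a..b, u s :=
    intervalIntegral.integral_nonneg hab fun x hx => hu x hx.1 (hx.2.trans hbc)
  have n2 : 0 ≤ ∫ s in b..c, u s :=
    intervalIntegral.integral_nonneg hbc fun x hx => hu x (hab.trans hx.1) hx.2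
  rw [← intervalIntegral.integral_add_adjacent_intervals (iu' a b) (iu' b c),
    ← intervalIntegral.integral_add_adjacent_intervals (iu a b) (iu b c)]
  set x1 := ∫ s in a..b, u' s
  set y1 := ∫ s in a..b, u s
  set x2 := ∫ s in b..c, u' s
  set y2 := ∫ s in b..c, u s
  have h3 : x1 * y2 ≤ y1 * x2 := by
    calc x1 * y2 ≤ (r * y1) * y2 := mul_le_mul_of_nonneg_right e1 n2
      _ = y1 * (r * y2) := by ring
      _ ≤ y1 * x2 := mul_le_mul_of_nonneg_left e2 n1
  nlinarith

/-- The tail of the distribution function number `k`. -/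
noncomputable def G (k : ℕ) (x : ℝ) : ℝ := 1 - Th k x

lemma G_succ (k : ℕ) {x : ℝ} (h0 : 0 ≤ x) (h1 : x ≤ 1) :
    G (k + 1) x = (∫ s in x..1, dn (W k) s) / nrm (W k) := by
  unfold G
  rw [Th_succ]
  exact tail_eq (nice k).1 h0 h1

lemma G_pos (k : ℕ) {x : ℝ} (h0 : 0 ≤ x) (h1 : x < 1) : 0 < G k x := by
  unfold G
  have := (nice k).2.strict x 1 h0 h1 le_rfl
  rw [(nice k).2.one] at this
  linarith

/-- Ratios of tails decrease. -/
lemma G_ratio (k : ℕ) {a b : ℝ} (ha : 1 / 2 ≤ a) (hab : a ≤ b) (hb : b < 1) :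
    G (k + 2) a * G (k + 1) b ≤ G (k + 1) a * G (k + 2) b := by
  have hw := (nice k).1
  have hT := (nice k).2
  have hb0 : 0 < dn (W k) b := dn_pos hw (by linarith) hb
  have key := pivot (u := dn (W k)) (u' := dn (W (k + 1))) hab hb.le (dn_ii hw)
    (dn_ii (nice (k + 1)).1) (fun x hx hx' => dn_nonneg hw (by linarith) hx')
    (r := dn (W (k + 1)) b / dn (W k) b)
    (fun x hx hx' => by
      rw [div_mul_eq_mul_div, le_div_iff₀ hb0]
      have := dn_ratio hw hT (s := x) (s' := b) (by linarith) hx' hb.le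
      rw [W_succ]
      linarith)
    (fun x hx hx' => by
      rw [div_mul_eq_mul_div, div_le_iff₀ hb0]
      have := dn_ratio hw hT (s := b) (s' := x) (by linarith) hx hx'
      rw [W_succ]
      linarith)
  rw [G_succ (k + 1) (by linarith) (by linarith), G_succ k (by linarith) hb.le,
    G_succ k (by linarith) (by linarith), G_succ (k + 1) (by linarith) hb.le]
  have z1 := nrm_pos hw
  have z2 := nrm_pos (nice (k + 1)).1
  rw [div_mul_div_comm, div_mul_div_comm, mul_comm (nrm (W k))]
  exact div_le_div_of_nonneg_right key (by positivity)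

lemma dn_zero {s : ℝ} (h : 1 / 2 ≤ s) : dn (W 0) s = 3 / 2 * (1 - s) := by
  unfold dn av
  rw [W_zero]
  simp only [intervalIntegral.integral_const, smul_eq_mul, mul_one, one_mul]
  unfold lo hi
  rw [if_neg (by linarith), max_eq_right (by linarith)]
  ring

lemma int_dn_zero {x : ℝ} (h : 1 / 2 ≤ x) (h1 : x ≤ 1) :
    (∫ s in x..1, dn (W 0) s) = 3 / 4 * (1 - x) ^ 2 := by
  have : (∫ s in x..1, dn (W 0) s) = ∫ s in x..1, 3 / 2 * (1 - s) := by
    refine intervalIntegral.integral_congr fun s hs => ?_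
    rw [uIcc_of_le h1] at hs
    exact dn_zero (h.trans hs.1)
  rw [this, intervalIntegral.integral_const_mul, intervalIntegral.integral_sub (by simp)
    (by simp), intervalIntegral.integral_const, integral_id]
  simp
  ring

lemma G_four (k : ℕ) {a b : ℝ} (ha : 1 / 2 ≤ a) (hab : a ≤ b) (hb : b < 1)
    (h2 : 1 - a ≤ 2 * (1 - b)) : G (k + 1) a ≤ 4 * G (k + 1) b := by
  induction k with
  | zero =>
    rw [G_succ 0 (by linarith) (by linarith), G_succ 0 (by linarith) hb.le,
      int_dn_zero ha (by linarith), int_dn_zero (ha.trans hab) hb.le]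
    have z := nrm_pos (nice 0).1
    rw [← mul_div_assoc]
    refine div_le_div_of_nonneg_right ?_ z.le
    nlinarith
  | succ k ih =>
    have h3 := G_ratio k ha hab hb
    have h4 := G_pos (k + 1) (x := b) (by linarith) hb
    have h5 := G_pos (k + 2) (x := b) (by linarith) hb
    by_contra hcon
    push Not at hcon
    have h6 : 4 * G (k + 2) b * G (k + 1) b < G (k + 2) a * G (k + 1) b :=
      mul_lt_mul_of_pos_right hcon h4
    have h7 : G (k + 1) a * G (k + 2) b ≤ 4 * G (k + 1) b * G (k + 2) b :=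
      mul_le_mul_of_nonneg_right ih h5.le
    nlinarith

lemma G_lower (k : ℕ) : G 1 (3 / 4) ≤ G (k + 1) (3 / 4) := by
  induction k with
  | zero => exact le_rfl
  | succ k ih =>
    refine ih.trans ?_
    have hw := (nice k).1
    have hT := (nice k).2
    have hb0 : 0 < dn (W k) (3 / 4) := dn_pos hw (by norm_num) (by norm_num)
    have key := pivot (u := dn (W k)) (u' := dn (W (k + 1))) (a := 0) (b := 3 / 4) (c := 1)
      (by norm_num) (by norm_num) (dn_ii hw)
      (dn_ii (nice (k + 1)).1) (fun x hx hx' => dn_nonneg hw hx hx')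
      (r := dn (W (k + 1)) (3 / 4) / dn (W k) (3 / 4))
      (fun x hx hx' => by
        rw [div_mul_eq_mul_div, le_div_iff₀ hb0]
        rcases le_total x (1 / 2) with h | h
        · have := dn_ratio' hw hT (s := x) (s' := 3 / 4) hx h le_rfl (by norm_num)
          rw [W_succ]
          linarith
        · have := dn_ratio hw hT (s := x) (s' := 3 / 4) h hx' (by norm_num)
          rw [W_succ]
          linarith)
      (fun x hx hx' => by
        rw [div_mul_eq_mul_div, div_le_iff₀ hb0]
        have := dn_ratio hw hT (s := 3 / 4) (s' := x) (by norm_num) hx hx'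
        rw [W_succ]
        linarith)
    rw [G_succ k (by norm_num) (by norm_num), G_succ (k + 1) (by norm_num) (by norm_num)]
    have z1 := nrm_pos hw
    have z2 := nrm_pos (nice (k + 1)).1
    rw [div_le_div_iff₀ z1 z2]
    change nrm (W (k + 1)) * _ ≤ nrm (W k) * _ at key
    linarith

end Pool.Agent.R530.Lor
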