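import Mathlib

/-!
The McLain group over the field with two elements on the chain of rational numbers.
-/

open Finset

namespace Pool.Agent.R530.McL

/-- the vector space -/
abbrev V := ℚ →₀ ZMod 2

/-- its endomorphism ring -/
abbrev R := Module.End (ZMod 2) V

/-- basis vectors -/
noncomputable def ev (a : ℚ) : V := Finsupp.single a 1

/-- matrix units -/
noncomputable def E (a b : ℚ) : R := (Finsupp.lsingle a) ∘ₗ (Finsupp.lapply b)

theorem E_apply (a b : ℚ) (v : V) : E a b v = Finsupp.single a (v b) := rfl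

theorem R_ext {f g : R} (h : ∀ a, f (ev a) = g (ev a)) : f = g := by
  apply Finsupp.lhom_ext'
  intro a
  apply LinearMap.ext_ring
  exact h a

theorem add_self' (f : R) : f + f = 0 := ZModModule.add_self f

theorem E_mid (a b c d : ℚ) (f : R) : E a b * f * E c d = (f (ev c) b) • E a d := by
  apply LinearMap.ext
  intro v
  simp only [Module.End.mul_apply, LinearMap.smul_apply, E_apply]
  have : (Finsupp.single c (v d) : V) = (v d) • ev c := by
    rw [ev, Finsupp.smul_single, smul_eq_mul, mul_one]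
  rw [this, map_smul, Finsupp.smul_apply, Finsupp.smul_single, smul_eq_mul, smul_eq_mul, mul_comm]

theorem E_mul_of_ne {a b c d : ℚ} (h : b ≠ c) : E a b * E c d = 0 := by
  have := E_mid a b c d 1
  rw [mul_one] at this
  rw [this]
  simp [ev, h.symm]

theorem E_mul_eq (a b d : ℚ) : E a b * E b d = E a d := by
  have := E_mid a b b d 1
  rw [mul_one] at this
  rw [this]
  simp [ev]

theorem E_ne_zero (a b : ℚ) : E a b ≠ 0 := by
  intro h
  have h1 : E a b (ev b) = 0 := by rw [h]; rfl
  rw [E_apply, ev, Finsupp.single_eq_same] at h1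
  have := DFunLike.congr_fun h1 a
  simp at this

theorem sq_one {a b : ℚ} (h : a ≠ b) : (1 + E a b) * (1 + E a b) = 1 := by
  have h2 : E a b * E a b = 0 := E_mul_of_ne h.symm
  have : (1 + E a b) * (1 + E a b) = 1 + (E a b + E a b) + E a b * E a b := by noncomm_ring
  rw [this, h2, add_self']
  simp

/-- transvections -/
noncomputable def tr (a b : ℚ) : Rˣ :=
  if h : a ≠ b then ⟨1 + E a b, 1 + E a b, sq_one h, sq_one h⟩ else 1

theorem tr_val {a b : ℚ} (h : a ≠ b) : (tr a b : R) = 1 + E a b := by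
  unfold tr; rw [dif_pos h]

theorem tr_inv {a b : ℚ} (h : a ≠ b) : (tr a b)⁻¹ = tr a b := by
  rw [inv_eq_iff_mul_eq_one]
  apply Units.ext
  rw [Units.val_mul, tr_val h, sq_one h]
  rfl

/-- the McLain group -/
noncomputable def M : Subgroup Rˣ := Subgroup.closure {u | ∃ a b, a < b ∧ u = tr a b}

theorem tr_mem {a b : ℚ} (h : a < b) : tr a b ∈ M := Subgroup.subset_closure ⟨a, b, h, rfl⟩

theorem tr_ne_comm {c d e : ℚ} (h1 : c < d) (h2 : d < e) : tr c d * tr d e ≠ tr d e * tr c d := by
  intro h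
  have hv := congrArg Units.val h
  rw [Units.val_mul, Units.val_mul, tr_val h1.ne, tr_val h2.ne] at hv
  have e1 : (1 + E c d) * (1 + E d e) = 1 + E c d + E d e + E c d * E d e := by noncomm_ring
  have e2 : (1 + E d e) * (1 + E c d) = 1 + E c d + E d e + E d e * E c d := by noncomm_ring
  rw [e1, e2, E_mul_eq, E_mul_of_ne (h1.trans h2).ne', add_zero] at hv
  have : E c e = 0 := by
    have h3 : (1 + E c d + E d e) + (1 + E c d + E d e + E c e)
        = (1 + E c d + E d e) + (1 + E c d + E d e) := by rw [hv]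
    rw [← add_assoc, add_self', zero_add] at h3
    exact h3
  exact E_ne_zero _ _ this

/-! ### Triangularity -/

/-- vectors supported below `j` -/
noncomputable abbrev Vlt (j : ℚ) : Submodule (ZMod 2) V :=
  Finsupp.supported (ZMod 2) (ZMod 2) (Set.Iio j)

theorem ev_mem_Vlt {i j : ℚ} (h : i < j) : ev i ∈ Vlt j :=
  Finsupp.single_mem_supported _ _ h

theorem map_Vlt {f : R} (hf : ∀ j, f (ev j) - ev j ∈ Vlt j) {j : ℚ} {v : V} (hv : v ∈ Vlt j) :
    f v ∈ Vlt j := by
  have he : Vlt j = Submodule.span (ZMod 2) ((fun i => Finsupp.single i 1) '' Set.Iio j) :=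
    Finsupp.supported_eq_span_single _ _
  rw [he] at hv
  induction hv using Submodule.span_induction with
  | mem x hx =>
    obtain ⟨i, hi, rfl⟩ := hx
    have hsub : Vlt i ≤ Vlt j := Finsupp.supported_mono (Set.Iio_subset_Iio (le_of_lt hi))
    have h2 : f (ev i) - ev i ∈ Vlt j := hsub (hf i)
    have h3 : f (ev i) = (f (ev i) - ev i) + ev i := by abel
    show f (ev i) ∈ Vlt j
    rw [h3]
    exact Submodule.add_mem _ h2 (ev_mem_Vlt hi)
  | zero => rw [map_zero]; exact Submodule.zero_mem _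
  | add x y _ _ hx hy => rw [map_add]; exact Submodule.add_mem _ hx hy
  | smul c x _ hx => rw [map_smul]; exact Submodule.smul_mem _ _ hx

/-- the unitriangularity condition -/
def UT (g : Rˣ) : Prop :=
  (∀ j, (g : R) (ev j) - ev j ∈ Vlt j) ∧ ∀ j, ((g⁻¹ : Rˣ) : R) (ev j) - ev j ∈ Vlt j

theorem UT_aux {f g : R} (hf : ∀ j, f (ev j) - ev j ∈ Vlt j) (hg : ∀ j, g (ev j) - ev j ∈ Vlt j)
    (j : ℚ) : (f * g) (ev j) - ev j ∈ Vlt j := by
  have : (f * g) (ev j) - ev j = f (g (ev j) - ev j) + (f (ev j) - ev j) := by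
    rw [Module.End.mul_apply, map_sub]; abel
  rw [this]
  exact Submodule.add_mem _ (map_Vlt hf (hg j)) (hf j)

theorem UT_tr {a b : ℚ} (h : a < b) : UT (tr a b) := by
  have key : ∀ j, (tr a b : R) (ev j) - ev j ∈ Vlt j := by
    intro j
    rw [tr_val h.ne, LinearMap.add_apply, Module.End.one_apply, add_sub_cancel_left, E_apply]
    by_cases hj : j = b
    · subst hj
      exact Finsupp.single_mem_supported _ _ h
    · rw [ev, Finsupp.single_eq_of_ne (Ne.symm hj), Finsupp.single_zero]
      exact Submodule.zero_mem _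
  exact ⟨key, by rw [tr_inv h.ne]; exact key⟩

theorem UT_of_mem {g : Rˣ} (hg : g ∈ M) : UT g := by
  induction hg using Subgroup.closure_induction with
  | mem x hx =>
    obtain ⟨a, b, h, rfl⟩ := hx
    exact UT_tr h
  | one =>
    refine ⟨fun j => ?_, fun j => ?_⟩
    · simp
    · simp
  | mul x y _ _ hx hy =>
    refine ⟨fun j => ?_, fun j => ?_⟩
    · rw [Units.val_mul]; exact UT_aux hx.1 hy.1 j
    · rw [mul_inv_rev, Units.val_mul]; exact UT_aux hy.2 hx.2 j
  | inv x _ hx => exact ⟨hx.2, by rw [inv_inv]; exact hx.1⟩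

theorem low_fixed {g : Rˣ} (hg : g ∈ M) : ∃ l : ℚ, ∀ c < l, (g : R) (ev c) = ev c := by
  induction hg using Subgroup.closure_induction with
  | mem x hx =>
    obtain ⟨a, b, h, rfl⟩ := hx
    refine ⟨b, fun c hc => ?_⟩
    rw [tr_val h.ne, LinearMap.add_apply, Module.End.one_apply, E_apply, ev,
      Finsupp.single_eq_of_ne hc.ne', Finsupp.single_zero, add_zero]
  | one => exact ⟨0, fun c _ => rfl⟩
  | mul x y _ _ hx hy =>
    obtain ⟨l1, h1⟩ := hx
    obtain ⟨l2, h2⟩ := hy
    refine ⟨min l1 l2, fun c hc => ?_⟩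
    rw [Units.val_mul, Module.End.mul_apply, h2 c (hc.trans_le (min_le_right _ _)),
      h1 c (hc.trans_le (min_le_left _ _))]
  | inv x _ hx =>
    obtain ⟨l, h⟩ := hx
    refine ⟨l, fun c hc => ?_⟩
    have h1 : ((x⁻¹ : Rˣ) : R) ((x : R) (ev c)) = ev c := by
      rw [← Module.End.mul_apply, ← Units.val_mul, inv_mul_cancel]; rfl
    rwa [h c hc] at h1

theorem exists_entry {g : Rˣ} (hg : g ∈ M) (h1 : g ≠ 1) :
    ∃ a b : ℚ, a < b ∧ ((g : R) (ev b)) a = 1 := by
  obtain ⟨b, hb⟩ : ∃ b, (g : R) (ev b) ≠ ev b := by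
    by_contra hcon
    push Not at hcon
    exact h1 (Units.ext (R_ext hcon))
  have hx : (g : R) (ev b) - ev b ≠ 0 := sub_ne_zero.2 hb
  obtain ⟨a, ha⟩ : ∃ a, ((g : R) (ev b) - ev b) a ≠ 0 := by
    by_contra hcon
    push Not at hcon
    exact hx (Finsupp.ext hcon)
  have hmem := (UT_of_mem hg).1 b
  have hab : a < b := by
    have := (Finsupp.mem_supported _ _).1 hmem
    exact this (Finsupp.mem_support_iff.2 ha)
  refine ⟨a, b, hab, ?_⟩
  have hz : (ev b) a = 0 := Finsupp.single_eq_of_ne hab.ne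
  rw [Finsupp.sub_apply, hz, sub_zero] at ha
  have h2 : ∀ z : ZMod 2, z ≠ 0 → z = 1 := by decide
  exact h2 _ ha

/-- every nontrivial element has, in its normal closure, all transvections from a left ray to a
right ray -/
theorem key {S : Subgroup Rˣ} (hS : ∀ h ∈ M, ∀ g ∈ S, h * g * h⁻¹ ∈ S) {g : Rˣ} (hgS : g ∈ S)
    (hg : g ∈ M) (h1 : g ≠ 1) : ∃ p q : ℚ, p < q ∧ ∀ c < p, ∀ d > q, tr c d ∈ S := by
  obtain ⟨a, b, hab, hx⟩ := exists_entry hg h1
  obtain ⟨l, hl⟩ := low_fixed hg
  refine ⟨min a l, b, (min_le_left _ _).trans_lt hab, fun c hc d hd => ?_⟩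
  have hca : c < a := hc.trans_le (min_le_left _ _)
  have hcl : c < l := hc.trans_le (min_le_right _ _)
  have hcd : c < d := (hca.trans hab).trans hd
  -- the ring elements
  set G : R := (g : R) with hG
  set G' : R := ((g⁻¹ : Rˣ) : R) with hG'
  have hGG' : G' * G = 1 := by rw [hG, hG', ← Units.val_mul, inv_mul_cancel]; rfl
  have hGE : G * E c a = E c a := by
    apply R_ext
    intro j
    rw [Module.End.mul_apply, E_apply]
    have : (Finsupp.single c (ev j a) : V) = (ev j a) • ev c := by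
      rw [ev, ev, Finsupp.smul_single, smul_eq_mul, mul_one]
    rw [this, map_smul, hl c hcl]
  have hG'E : G' * E c a = E c a := by
    calc G' * E c a = G' * (G * E c a) := by rw [hGE]
      _ = (G' * G) * E c a := by rw [mul_assoc]
      _ = _ := by rw [hGG', one_mul]
  have hEE : E c a * E c a = 0 := E_mul_of_ne hca.ne'
  set r : R := E c a + E c a * G with hr
  -- first commutator
  set u : Rˣ := tr c a * g⁻¹ * (tr c a)⁻¹ * g with hu
  have huS : u ∈ S := S.mul_mem (hS _ (tr_mem hca) _ (S.inv_mem hgS)) hgS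
  have huval : (u : R) = 1 + r := by
    rw [hu, tr_inv hca.ne, Units.val_mul, Units.val_mul, Units.val_mul, tr_val hca.ne]
    show (1 + E c a) * G' * (1 + E c a) * G = 1 + r
    have h3 : (1 + E c a) * G' * (1 + E c a) * G
        = (1 + E c a) * (G' * G + (G' * E c a) * G) := by noncomm_ring
    rw [h3, hG'E, hGG']
    have h4 : (1 + E c a) * (1 + E c a * G) = 1 + (E c a + E c a * G) + (E c a * E c a) * G := by
      noncomm_ring
    rw [h4, hEE, zero_mul, add_zero]
  have hrr : r * r = 0 := by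
    have h3 : r * r = (E c a + E c a * G) * E c a * (1 + G) := by rw [hr]; noncomm_ring
    have h4 : (E c a + E c a * G) * E c a = E c a * E c a + E c a * (G * E c a) := by
      noncomm_ring
    rw [h3, h4, hGE, add_self', zero_mul]
  have hre : r * E b d = E c d := by
    have h3 : r * E b d = E c a * E b d + E c a * G * E b d := by rw [hr]; noncomm_ring
    rw [h3, E_mul_of_ne hab.ne, E_mid, hx, one_smul, zero_add]
  have her : E b d * r = 0 := by
    have h3 : E b d * r = E b d * E c a * (1 + G) := by rw [hr]; noncomm_ring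
    rw [h3, E_mul_of_ne hcd.ne', zero_mul]
  have hee : E b d * E b d = 0 := E_mul_of_ne (ne_of_gt hd)
  clear_value u
  have huinv : u⁻¹ = u := by
    rw [inv_eq_iff_mul_eq_one]
    apply Units.ext
    rw [Units.val_mul, huval]
    have h3 : (1 + r) * (1 + r) = 1 + (r + r) + r * r := by noncomm_ring
    rw [h3, hrr, add_self']
    simp
  have hw : u * (tr b d * u⁻¹ * (tr b d)⁻¹) = tr c d := by
    rw [huinv, tr_inv (ne_of_lt hd)]
    apply Units.ext
    rw [Units.val_mul, Units.val_mul, Units.val_mul, huval, tr_val (ne_of_lt hd), tr_val hcd.ne]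
    have h3 : (1 + r) * ((1 + E b d) * (1 + r) * (1 + E b d))
        = 1 + (r + r) + r * r + (E b d + E b d) + E b d * E b d + E b d * r
          + r * E b d + r * E b d + r * E b d + E b d * r * E b d
          + r * r * E b d + r * (E b d * r) + r * (E b d * E b d) + r * (E b d * r) * E b d := by
      noncomm_ring
    rw [h3, hrr, her, hee, hre, add_self', add_self']
    have h4 : (1 : R) + 0 + 0 + 0 + 0 + 0 + E c d + E c d + E c d + 0 * E b d + 0 * E b d + r * 0
        + r * 0 + r * 0 * E b d = 1 + (E c d + E c d) + E c d := by noncomm_ring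
    rw [h4, add_self', add_zero]
  rw [← hw]
  exact S.mul_mem huS (hS _ (tr_mem hd) _ (S.inv_mem huS))

end Pool.Agent.R530.McL
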