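import Mathlib
import Pool.Agent.R530.McLain

/-!
Group-theoretic properties of the McLain group used for diagonal groups.
-/

open Finset

namespace Pool.Agent.R530.McL

/-- transvections as elements of `M` -/
noncomputable def tM (a b : ℚ) (h : a < b) : M := ⟨tr a b, tr_mem h⟩

theorem tM_ne_comm {c d e : ℚ} (h1 : c < d) (h2 : d < e) :
    tM c d h1 * tM d e h2 ≠ tM d e h2 * tM c d h1 := fun h =>
  tr_ne_comm h1 h2 (congrArg Subtype.val h)

theorem tM_ne_one {c d : ℚ} (h : c < d) : tM c d h ≠ 1 := by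
  intro h0
  have := tM_ne_comm h (lt_add_one d)
  rw [h0] at this
  simp at this

theorem keyM (N : Subgroup M) [hN : N.Normal] (h0 : N ≠ ⊥) :
    ∃ p q : ℚ, p < q ∧ ∀ c d : ℚ, c < p → q < d → ∀ h : c < d, tM c d h ∈ N := by
  obtain ⟨⟨g, hg⟩, hg0⟩ := Subgroup.ne_bot_iff_exists_ne_one.1 h0
  have hg1 : g ≠ 1 := fun h => hg0 (Subtype.ext h)
  have hS : ∀ h ∈ M, ∀ g ∈ N.map M.subtype, h * g * h⁻¹ ∈ N.map M.subtype := by
    rintro h hh _ ⟨x, hx, rfl⟩
    exact ⟨⟨h, hh⟩ * x * ⟨h, hh⟩⁻¹, hN.conj_mem x hx _, rfl⟩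
  obtain ⟨p, q, hpq, H⟩ := key hS (g := (g : Rˣ)) ⟨g, hg, rfl⟩ g.2
    (fun h => hg1 (Subtype.ext h))
  refine ⟨p, q, hpq, fun c d hc hd h => ?_⟩
  obtain ⟨x, hx, hx2⟩ := H c hc d hd
  have : x = tM c d h := Subtype.ext hx2
  rwa [← this]

theorem inf_ne_bot (N₁ N₂ : Subgroup M) [N₁.Normal] [N₂.Normal] (h1 : N₁ ≠ ⊥) (h2 : N₂ ≠ ⊥) :
    N₁ ⊓ N₂ ≠ ⊥ := by
  obtain ⟨p1, q1, h11, H1⟩ := keyM N₁ h1
  obtain ⟨p2, q2, h22, H2⟩ := keyM N₂ h2
  have hlt : min p1 p2 - 1 < max q1 q2 + 1 := by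
    have a1 := min_le_left p1 p2
    have a2 := le_max_left q1 q2
    linarith
  intro h
  have a1 := min_le_left p1 p2
  have a2 := le_max_left q1 q2
  have a3 := min_le_right p1 p2
  have a4 := le_max_right q1 q2
  have hm : tM _ _ hlt ∈ N₁ ⊓ N₂ :=
    ⟨H1 _ _ (by linarith) (by linarith) hlt, H2 _ _ (by linarith) (by linarith) hlt⟩
  rw [h] at hm
  exact tM_ne_one hlt hm

theorem centralizer_eq_bot (N : Subgroup M) [N.Normal]
    (hN : ∃ q : ℚ, ∀ d e : ℚ, q < d → ∀ h : d < e, tM d e h ∈ N) :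
    Subgroup.centralizer (N : Set M) = ⊥ := by
  by_contra h0
  obtain ⟨p, q, hpq, H⟩ := keyM (Subgroup.centralizer (N : Set M)) h0
  obtain ⟨q', H'⟩ := hN
  have hd1 : q < max q q' + 1 := by have := le_max_left q q'; linarith
  have hd2 : q' < max q q' + 1 := by have := le_max_right q q'; linarith
  have hc : p - 1 < max q q' + 1 := by linarith
  have he : max q q' + 1 < max q q' + 2 := by linarith
  have m1 := H (p - 1) (max q q' + 1) (by linarith) hd1 hc
  have m2 := H' (max q q' + 1) (max q q' + 2) hd2 he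
  have := Subgroup.mem_centralizer_iff.1 m1 _ m2
  exact tM_ne_comm hc he this.symm

/-! ### The order automorphisms -/

/-- permutation of the basis -/
noncomputable def pu (φ : ℚ ≃o ℚ) : Rˣ where
  val := Finsupp.lmapDomain (ZMod 2) (ZMod 2) φ
  inv := Finsupp.lmapDomain (ZMod 2) (ZMod 2) φ.symm
  val_inv := by
    apply R_ext
    intro a
    simp [ev, Module.End.mul_apply, Finsupp.mapDomain_single]
  inv_val := by
    apply R_ext
    intro a
    simp [ev, Module.End.mul_apply, Finsupp.mapDomain_single]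

theorem pu_ev (φ : ℚ ≃o ℚ) (a : ℚ) : (pu φ : R) (ev a) = ev (φ a) := by
  simp [pu, ev, Finsupp.mapDomain_single]

theorem pu_E (φ : ℚ ≃o ℚ) (a b : ℚ) : (pu φ : R) * E a b = E (φ a) (φ b) * (pu φ : R) := by
  apply R_ext
  intro j
  rw [Module.End.mul_apply, Module.End.mul_apply, pu_ev, E_apply, E_apply]
  have h1 : (pu φ : R) (Finsupp.single a (ev j b)) = Finsupp.single (φ a) (ev j b) := by
    simp [pu, Finsupp.mapDomain_single]
  rw [h1]
  congr 1
  simp only [ev, Finsupp.single_apply, φ.injective.eq_iff]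

theorem pu_conj (φ : ℚ ≃o ℚ) {a b : ℚ} (h : a < b) :
    pu φ * tr a b * (pu φ)⁻¹ = tr (φ a) (φ b) := by
  rw [mul_inv_eq_iff_eq_mul]
  apply Units.ext
  rw [Units.val_mul, Units.val_mul, tr_val h.ne, tr_val (φ.strictMono h).ne]
  have e1 : (pu φ : R) * (1 + E a b) = (pu φ : R) + (pu φ : R) * E a b := by noncomm_ring
  have e2 : (1 + E (φ a) (φ b)) * (pu φ : R) = (pu φ : R) + E (φ a) (φ b) * (pu φ : R) := by
    noncomm_ring
  rw [e1, e2, pu_E]

theorem map_conj_M (φ : ℚ ≃o ℚ) : M.map (MulAut.conj (pu φ)).toMonoidHom = M := by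
  unfold M
  rw [MonoidHom.map_closure]
  congr 1
  ext u
  constructor
  · rintro ⟨_, ⟨a, b, h, rfl⟩, rfl⟩
    exact ⟨φ a, φ b, φ.strictMono h, pu_conj φ h⟩
  · rintro ⟨a, b, h, rfl⟩
    refine ⟨tr (φ.symm a) (φ.symm b), ⟨φ.symm a, φ.symm b, φ.symm.strictMono h, rfl⟩, ?_⟩
    have := pu_conj φ (φ.symm.strictMono h)
    rw [φ.apply_symm_apply, φ.apply_symm_apply] at this
    exact this

/-- the automorphism of `M` induced by an order automorphism -/
noncomputable def aut (φ : ℚ ≃o ℚ) : M ≃* M :=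
  ((MulAut.conj (pu φ)).subgroupMap M).trans (MulEquiv.subgroupCongr (map_conj_M φ))

theorem aut_tM (φ : ℚ ≃o ℚ) {a b : ℚ} (h : a < b) :
    aut φ (tM a b h) = tM (φ a) (φ b) (φ.strictMono h) :=
  Subtype.ext (pu_conj φ h)

theorem exists_orderIso {c d a b : ℚ} (h1 : c < d) (h2 : a < b) :
    ∃ φ : ℚ ≃o ℚ, φ c = a ∧ φ d = b := by
  have hd : 0 < d - c := sub_pos.2 h1
  have hb : 0 < b - a := sub_pos.2 h2
  have hk : 0 < (b - a) / (d - c) := div_pos hb hd
  refine ⟨(OrderIso.mulRight₀ _ hk).trans (OrderIso.addRight (a - c * ((b - a) / (d - c)))), ?_, ?_⟩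
  · simp
  · simp
    field_simp
    ring

theorem eq_top_of_tM {C : Subgroup M} (h : ∀ a b : ℚ, ∀ h : a < b, tM a b h ∈ C) : C = ⊤ := by
  rw [eq_top_iff]
  rintro ⟨g, hg⟩ -
  have : g ∈ C.map M.subtype := by
    have hle : M ≤ C.map M.subtype := by
      conv_lhs => unfold M
      rw [Subgroup.closure_le]
      rintro _ ⟨a, b, hab, rfl⟩
      exact ⟨tM a b hab, h a b hab, rfl⟩
    exact hle hg
  obtain ⟨x, hx, hx2⟩ := this
  have : x = ⟨g, hg⟩ := Subtype.ext hx2
  rwa [← this]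

theorem char_M (C : Subgroup M) (hC : C.Characteristic) : C = ⊥ ∨ C = ⊤ := by
  by_cases h0 : C = ⊥
  · exact Or.inl h0
  · right
    obtain ⟨p, q, hpq, H⟩ := keyM C h0
    have hcd : p - 1 < q + 1 := by linarith
    have hmem := H (p - 1) (q + 1) (by linarith) (by linarith) hcd
    refine eq_top_of_tM fun a b hab => ?_
    obtain ⟨φ, hφ1, hφ2⟩ := exists_orderIso hcd hab
    have h2 : tM (p - 1) (q + 1) hcd ∈ C.comap (aut φ).toMonoidHom := by
      rw [hC.fixed (aut φ)]; exact hmem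
    have h3 : aut φ (tM (p - 1) (q + 1) hcd) ∈ C := h2
    rw [aut_tM] at h3
    convert! h3 using 2 <;> simp [hφ1, hφ2]

/-! ### A proper nontrivial normal subgroup with trivial centraliser -/

/-- elements fixing all basis vectors with nonpositive index -/
noncomputable def N0 : Subgroup M where
  carrier := {g | ∀ v ∈ Vlt 0, ((g : M) : Rˣ).val v = v}
  one_mem' := fun v _ => rfl
  mul_mem' := by
    intro x y hx hy v hv
    have h1 := hx v hv
    have h2 := hy v hv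
    show ((x : Rˣ) : R) (((y : Rˣ) : R) v) = v
    rw [h2, h1]
  inv_mem' := by
    intro x hx v hv
    have h1 := hx v hv
    have h2 : (((x : Rˣ)⁻¹ : Rˣ) : R) (((x : Rˣ) : R) v) = v := by
      rw [← Module.End.mul_apply, ← Units.val_mul, inv_mul_cancel]; rfl
    rw [h1] at h2
    exact h2

theorem N0_normal : N0.Normal where
  conj_mem := by
    intro x hx g v hv
    have h1 : (((g : Rˣ)⁻¹ : Rˣ) : R) v ∈ Vlt 0 := map_Vlt (UT_of_mem g.2).2 hv
    have h2 := hx _ h1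
    show ((g : Rˣ) : R) (((x : Rˣ) : R) ((((g : Rˣ)⁻¹ : Rˣ) : R) v)) = v
    rw [h2, ← Module.End.mul_apply, ← Units.val_mul, mul_inv_cancel]
    rfl

theorem N0_tM {d e : ℚ} (hd : 0 < d) (h : d < e) : tM d e h ∈ N0 := by
  intro v hv
  show (tr d e : R) v = v
  rw [tr_val h.ne, LinearMap.add_apply, Module.End.one_apply, E_apply]
  have : v e = 0 := by
    by_contra hcon
    have := (Finsupp.mem_supported _ _).1 hv (Finsupp.mem_support_iff.2 hcon)
    have h3 : e < 0 := this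
    linarith
  rw [this, Finsupp.single_zero, add_zero]

theorem N0_ne_top : N0 ≠ ⊤ := by
  intro h
  have hlt : (-2 : ℚ) < -1 := by norm_num
  have hmem : tM (-2) (-1) hlt ∈ N0 := by rw [h]; trivial
  have h1 := hmem (ev (-1)) (ev_mem_Vlt (by norm_num))
  have h2 : (tr (-2) (-1) : R) (ev (-1)) = ev (-1) := h1
  rw [tr_val hlt.ne, LinearMap.add_apply, Module.End.one_apply, E_apply, ev,
    Finsupp.single_eq_same] at h2
  have h3 := DFunLike.congr_fun h2 (-2)
  rw [Finsupp.add_apply, Finsupp.single_eq_same] at h3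
  simp at h3

theorem N0_centralizer : Subgroup.centralizer (N0 : Set M) = ⊥ := by
  have := N0_normal
  exact centralizer_eq_bot N0 ⟨0, fun d e hd h => N0_tM hd h⟩

theorem N0_ne_bot : N0 ≠ ⊥ := by
  intro h
  have h1 : tM 1 2 (by norm_num) ∈ N0 := N0_tM (by norm_num) (by norm_num)
  rw [h] at h1
  exact tM_ne_one _ h1

end Pool.Agent.R530.McL
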