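import Pool.Agent.R530.PndSets

/-!
# Existence of good initial segments
-/

set_option autoImplicit false

namespace Pool.Agent.R530.Pnd

open Finset

/-- deficient subsets of a finite set are uniformly deficient -/
lemma gap_Q (Q : ℕ) : ∃ δ : ℝ, 0 < δ ∧ ∀ F : Finset ℕ, F ⊆ range (Q + 1) → hh F < 2 →
    hh F ≤ 2 - δ := by
  classical
  set 𝓕 := (range (Q + 1)).powerset.filter (fun F => hh F < 2) with h𝓕
  have hne : 𝓕.Nonempty := by
    refine ⟨∅, ?_⟩
    rw [h𝓕, mem_filter]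
    refine ⟨by simp, ?_⟩
    simp [hh]
  obtain ⟨F0, hF0, hmax⟩ := exists_max_image 𝓕 hh hne
  have h0 := (mem_filter.mp hF0).2
  refine ⟨2 - hh F0, by linarith, ?_⟩
  intro F hF hF2
  have := hmax F (mem_filter.mpr ⟨mem_powerset.mpr hF, hF2⟩)
  linarith

/-- many primes beyond `S` -/
lemma exists_X (S : ℕ) : ∃ X : ℕ, 2 ≤ hh ((Ioc S X).filter Nat.Prime) := by
  by_contra hcon
  push Not at hcon
  have h1 : ∀ X : ℕ, ∑ p ∈ (Ioc S X).filter Nat.Prime, 1 / (p : ℝ) < 1 := by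
    intro X
    have h2 := one_add_sum_le ((Ioc S X).filter Nat.Prime) (fun p => 1 / (p : ℝ))
      (fun i _ => by positivity)
    have h3 := hcon X
    unfold hh at h3
    linarith
  apply not_summable_one_div_on_primes
  apply summable_of_sum_range_le (c := 1 + ∑ i ∈ range (S + 1), 1 / ((i : ℕ) : ℝ))
  · intro n
    apply Set.indicator_nonneg
    intro x _
    positivity
  · intro n
    have h2 : ∑ i ∈ range n, Set.indicator {p : ℕ | p.Prime} (fun n : ℕ => 1 / (n : ℝ)) i ≤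
        ∑ i ∈ range (S + 1) ∪ (Ioc S n).filter Nat.Prime, 1 / (i : ℝ) := by
      have h3 : ∀ i ∈ range n, Set.indicator {p : ℕ | p.Prime} (fun n : ℕ => 1 / (n : ℝ)) i =
          if i.Prime then 1 / (i : ℝ) else 0 := by
        intro i _
        rw [Set.indicator_apply]
        rfl
      rw [sum_congr rfl h3, ← sum_filter]
      apply sum_le_sum_of_subset_of_nonneg
      · intro i hi
        rw [mem_filter, mem_range] at hi
        rw [mem_union, mem_range, mem_filter, mem_Ioc]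
        rcases Nat.lt_or_ge i (S + 1) with h | h
        · left
          exact h
        · right
          exact ⟨⟨by omega, by omega⟩, hi.2⟩
      · intro i _ _
        positivity
    refine h2.trans ?_
    rw [sum_union]
    · linarith [h1 n]
    · rw [Finset.disjoint_left]
      intro i hi hi2
      rw [mem_range] at hi
      rw [mem_filter, mem_Ioc] at hi2
      omega

/-- **Good initial segments** exist with arbitrarily large cut-off `q`. -/
theorem exists_q (Q : ℕ) : ∃ q : ℕ, ∃ F : Finset ℕ, Q < q ∧ OP F ∧ (∀ p ∈ F, p < q) ∧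
    (1 + 1 / (q : ℝ)) * hh F < 2 ∧ 2 ≤ (1 + 2 / (q : ℝ)) * (1 + 1 / (q : ℝ)) * hh F ∧
    Zs - 7 / (q : ℝ) ^ 2 ≤ (zz F)⁻¹ := by
  obtain ⟨δ, hδ, hgap⟩ := gap_Q Q
  set S : ℕ := max 3 (⌈2 / δ⌉₊ + 1) with hS
  obtain ⟨X, hX⟩ := exists_X S
  have hX0 : 0 < X := by
    by_contra h
    have : X = 0 := by omega
    rw [this] at hX
    have h2 : (Ioc S 0).filter Nat.Prime = ∅ := by
      ext p
      rw [mem_filter, mem_Ioc]
      constructor
      · intro h
        omega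
      · intro h
        simp at h
    rw [h2] at hX
    simp [hh] at hX
  have hX0' : (1 : ℝ) ≤ X := by exact_mod_cast hX0
  set ε : ℝ := 1 / (7 * (X : ℝ) ^ 2) with hε
  have hε0 : 0 < ε := by positivity
  obtain ⟨z, ⟨F, hF, hF2, rfl⟩, hz⟩ := exists_lt_of_lt_csSup ⟨1, mem_empty⟩
    (show Zs - ε < sSup Zset by
      have : Zs = sSup Zset := rfl
      linarith)
  obtain ⟨s, hs, hsF⟩ : ∃ s ∈ (Ioc S X).filter Nat.Prime, s ∉ F := by
    by_contra hno
    push Not at hno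
    have := hh_mono (show (Ioc S X).filter Nat.Prime ⊆ F from fun s hs => hno s hs)
    linarith
  rw [mem_filter, mem_Ioc] at hs
  obtain ⟨⟨hsS, hsX⟩, hsp⟩ := hs
  have hs3 : 3 ≤ s := by
    have : 3 ≤ S := le_max_left _ _
    omega
  have hs0 : (3 : ℝ) ≤ s := by exact_mod_cast hs3
  have hsX' : (s : ℝ) ≤ X := by exact_mod_cast hsX
  have hεs : ε ≤ 1 / (7 * (s : ℝ) ^ 2) := by
    apply one_div_le_one_div_of_le (by positivity)
    gcongr
  have hεs2 : ε < 1 / (6 * (s : ℝ) ^ 2) := by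
    refine hεs.trans_lt ?_
    apply one_div_lt_one_div_of_lt (by positivity)
    have : 0 < (s : ℝ) ^ 2 := by positivity
    linarith
  have hex := exchange hF hF2 ε hz.le s hsp hs3 hsF hεs2
  set n1 := F.filter (· ≤ 2 * s) with hn1
  set T := F.filter (fun p => 2 * s < p) with hT
  have hsplit : hh F = hh n1 * hh T := hh_split F (2 * s)
  have hsplitz : zz F = zz n1 * zz T := zz_split F (2 * s)
  have hOn1 : OP n1 := fun p hp => hF p (mem_filter.mp hp).1
  have hOT : OP T := fun p hp => hF p (mem_filter.mp hp).1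
  have hn1p := hh_pos n1
  have hTp := hh_pos T
  have hn1lt : hh n1 < 2 := by
    rw [hsplit] at hF2
    nlinarith
  have hTlt : hh T < 1 + 1 / (s : ℝ) := by
    have h1 : hh n1 * hh T < hh n1 * (1 + 1 / (s : ℝ)) := by
      rw [← hsplit]
      linarith
    exact lt_of_mul_lt_mul_left h1 (by linarith)
  have hTu : ∀ p ∈ T, 2 * (s : ℝ) ≤ p := by
    intro p hp
    have : 2 * s < p := (mem_filter.mp hp).2
    have : (2 * s : ℕ) ≤ p := by omega
    exact_mod_cast this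
  have hzT := zz_tail hOT (2 * (s : ℝ)) (1 / (s : ℝ)) (by positivity) hTu hTlt
  have hzT2 : 1 / (s : ℝ) / (2 * s) = 1 / 2 * (1 / (s : ℝ) ^ 2) := by
    field_simp
  rw [hzT2] at hzT
  -- `n1` is nonempty
  have hne : n1.Nonempty := by
    rw [Finset.nonempty_iff_ne_empty]
    intro h
    rw [h] at hex
    have h2 : hh ∅ = 1 := by simp [hh]
    rw [h2, one_mul] at hex
    have : 1 / (s : ℝ) ≤ 1 / 3 := one_div_le_one_div_of_le (by norm_num) hs0
    linarith
  set q := n1.max' hne with hq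
  have hqmem : q ∈ n1 := max'_mem n1 hne
  have hqs : q ≤ 2 * s := (mem_filter.mp hqmem).2
  have hq3 : 3 ≤ q := (hOn1 q hqmem).2
  have hq0 : (3 : ℝ) ≤ q := by exact_mod_cast hq3
  have hqs' : (q : ℝ) ≤ 2 * s := by exact_mod_cast hqs
  have hqQ : Q < q := by
    by_contra hle
    push Not at hle
    have h1 : n1 ⊆ range (Q + 1) := by
      intro p hp
      rw [mem_range]
      have := le_max' n1 p hp
      omega
    have h2 := hgap n1 h1 hn1lt
    have h3 : 2 / δ < s := by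
      have h4 : 2 / δ ≤ ⌈2 / δ⌉₊ := Nat.le_ceil _
      have h5 : ⌈2 / δ⌉₊ + 1 ≤ S := le_max_right _ _
      have h6 : ((⌈2 / δ⌉₊ : ℕ) : ℝ) < s := by
        have : ⌈2 / δ⌉₊ < s := by omega
        exact_mod_cast this
      linarith
    rw [div_lt_iff₀ hδ] at h3
    have h7 : 2 ≤ (2 - δ) * (1 + 1 / (s : ℝ)) := by
      refine hex.trans ?_
      gcongr
    have h8 : (2 - δ) * (1 + 1 / (s : ℝ)) * s = (2 - δ) * (s + 1) := by
      field_simp
    have h9 : 2 * (s : ℝ) ≤ (2 - δ) * (1 + 1 / (s : ℝ)) * s := by gcongr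
    rw [h8] at h9
    nlinarith
  set F0 := n1.erase q with hF0
  have hins : n1 = insert q F0 := (insert_erase hqmem).symm
  have hnm : q ∉ F0 := notMem_erase q n1
  have hOF0 : OP F0 := fun p hp => hOn1 p (mem_of_mem_erase hp)
  have hhn1 : hh n1 = (1 + 1 / (q : ℝ)) * hh F0 := by
    conv_lhs => rw [hins]
    exact hh_insert hnm
  have hzn1 : zz n1 = (1 - 1 / (q : ℝ) ^ 2) * zz F0 := by
    conv_lhs => rw [hins]
    exact zz_insert hnm
  refine ⟨q, F0, hqQ, hOF0, ?_, ?_, ?_, ?_⟩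
  · intro p hp
    have h1 := le_max' n1 p (mem_of_mem_erase hp)
    have h2 := ne_of_mem_erase hp
    omega
  · rw [← hhn1]
    exact hn1lt
  · rw [hhn1] at hex
    have h1 : 1 / (s : ℝ) ≤ 2 / (q : ℝ) := by
      rw [div_le_div_iff₀ (by positivity) (by positivity)]
      linarith
    have h2 := hh_pos F0
    calc 2 ≤ (1 + 1 / (q : ℝ)) * hh F0 * (1 + 1 / (s : ℝ)) := hex
      _ ≤ (1 + 1 / (q : ℝ)) * hh F0 * (1 + 2 / (q : ℝ)) := by gcongr
      _ = (1 + 2 / (q : ℝ)) * (1 + 1 / (q : ℝ)) * hh F0 := by ring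
  · -- the value of `zz`
    have hzF0 := zz_ge hOF0
    have hzn1' := zz_ge hOn1
    have hzT' := zz_ge hOT
    have hb1 := inv_zz_bounds hF
    have hb2 := inv_zz_bounds hOn1
    have hb3 := inv_zz_bounds hOF0
    have e1 : (zz n1)⁻¹ = (zz F)⁻¹ * zz T := by
      rw [hsplitz]
      field_simp
    have hq2 : 1 / (q : ℝ) ^ 2 ≤ 1 / 9 := by
      apply one_div_le_one_div_of_le (by norm_num)
      nlinarith
    have hq2' : 0 < 1 / (q : ℝ) ^ 2 := by positivity
    have e2 : (zz F0)⁻¹ = (zz n1)⁻¹ * (1 - 1 / (q : ℝ) ^ 2) := by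
      rw [hzn1]
      have hne0 : (1 - 1 / (q : ℝ) ^ 2) ≠ 0 := by linarith
      rw [mul_inv, mul_comm ((1 - 1 / (q : ℝ) ^ 2)⁻¹), mul_assoc, inv_mul_cancel₀ hne0, mul_one]
    have hs2' : 0 < 1 / (s : ℝ) ^ 2 := by positivity
    have h1 : (zz F)⁻¹ - 1 / (s : ℝ) ^ 2 ≤ (zz n1)⁻¹ := by
      rw [e1]
      have h2 : (zz F)⁻¹ * (1 - 1 / 2 * (1 / (s : ℝ) ^ 2)) ≤ (zz F)⁻¹ * zz T := by
        apply mul_le_mul_of_nonneg_left hzT
        linarith
      have h2' : (zz F)⁻¹ * (1 / (s : ℝ) ^ 2) ≤ 2 * (1 / (s : ℝ) ^ 2) :=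
        mul_le_mul_of_nonneg_right hb1.2 hs2'.le
      have h2'' : (zz F)⁻¹ * (1 - 1 / 2 * (1 / (s : ℝ) ^ 2)) =
        (zz F)⁻¹ - 1 / 2 * ((zz F)⁻¹ * (1 / (s : ℝ) ^ 2)) := by ring
      rw [h2''] at h2
      linarith
    have h2 : (zz n1)⁻¹ - 2 * (1 / (q : ℝ) ^ 2) ≤ (zz F0)⁻¹ := by
      rw [e2]
      have h2' : (zz n1)⁻¹ * (1 / (q : ℝ) ^ 2) ≤ 2 * (1 / (q : ℝ) ^ 2) :=
        mul_le_mul_of_nonneg_right hb2.2 hq2'.le
      have h2'' : (zz n1)⁻¹ * (1 - 1 / (q : ℝ) ^ 2) =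
        (zz n1)⁻¹ - (zz n1)⁻¹ * (1 / (q : ℝ) ^ 2) := by ring
      rw [h2'']
      linarith
    have h3 : 1 / (s : ℝ) ^ 2 ≤ 4 * (1 / (q : ℝ) ^ 2) := by
      rw [mul_one_div, div_le_div_iff₀ (by positivity) (by positivity)]
      have : (q : ℝ) ^ 2 ≤ (2 * (s : ℝ)) ^ 2 := by gcongr
      linarith
    have h4 : ε ≤ 1 / 7 * (1 / (s : ℝ) ^ 2) := by
      refine hεs.trans (le_of_eq ?_)
      field_simp
    have h5 : 7 / (q : ℝ) ^ 2 = 7 * (1 / (q : ℝ) ^ 2) := by ring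
    rw [h5]
    linarith

end Pool.Agent.R530.Pnd
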