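import Pool.Agent.R530.PndPrimes
import Pool.Agent.R530.PndNear

/-!
# Construction of sets of odd primes with large value of `H`
-/

set_option autoImplicit false
set_option maxHeartbeats 4000000

namespace Pool.Agent.R530.Pnd

open Finset Filter

/-- the set `A` of primes in `(1.9 Y, 2 Y]` -/
lemma choose_A (Y ρ : ℝ) (hY : 100 ≤ Y) (h1 : 1 + 0.15 / Y ≤ ρ)
    (h2 : ρ < 1 + (W Y).card / (2 * Y)) :
    ∃ A : Finset ℕ, A ⊆ W Y ∧ hh A * (1 + 0.15 / Y) ≤ ρ ∧ ρ < hh A * (1 + 0.775 / Y) := by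
  classical
  have hY0 : 0 < Y := by linarith
  set 𝓕 := (W Y).powerset.filter (fun A => hh A * (1 + 0.15 / Y) ≤ ρ) with h𝓕
  have hne : 𝓕.Nonempty := by
    refine ⟨∅, ?_⟩
    rw [h𝓕, mem_filter]
    refine ⟨by simp, ?_⟩
    have : hh ∅ = 1 := by simp [hh]
    rw [this, one_mul]
    exact h1
  obtain ⟨A, hA, hmax⟩ := exists_max_image 𝓕 card hne
  rw [h𝓕, mem_filter, mem_powerset] at hA
  refine ⟨A, hA.1, hA.2, ?_⟩
  by_contra hcon
  push Not at hcon
  have hAp := hh_pos A
  have hWl : 1 + (W Y).card / (2 * Y) ≤ hh (W Y) := by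
    have h3 := one_add_sum_le (W Y) (fun p => 1 / (p : ℝ)) (fun i _ => by positivity)
    have h4 : ∑ p ∈ W Y, 1 / (2 * Y) ≤ ∑ p ∈ W Y, 1 / (p : ℝ) := by
      apply sum_le_sum
      intro p hp
      rw [mem_W Y hY0] at hp
      apply one_div_le_one_div_of_le
      · have := hp.2.1
        linarith
      · exact hp.2.2
    rw [sum_const, nsmul_eq_mul] at h4
    unfold hh
    have h5 : ((W Y).card : ℝ) * (1 / (2 * Y)) = (W Y).card / (2 * Y) := by ring
    linarith
  have hne2 : A ≠ W Y := by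
    intro h
    rw [← h] at hWl
    have h3 : hh A ≤ ρ := by
      have h4 : 0 ≤ 0.15 / Y := by positivity
      have h5 : 0 ≤ hh A * (0.15 / Y) := mul_nonneg (by linarith) h4
      linarith [hA.2]
    linarith [h ▸ h2]
  obtain ⟨r, hr, hrA⟩ := exists_of_ssubset (lt_of_le_of_ne hA.1 hne2)
  have hrW := (mem_W Y hY0 r).mp hr
  have hins : insert r A ∈ 𝓕 := by
    rw [h𝓕, mem_filter, mem_powerset]
    refine ⟨insert_subset hr hA.1, ?_⟩
    rw [hh_insert hrA]
    have h3 : 1 / (r : ℝ) ≤ 0.5264 / Y := by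
      have hr0 : (0 : ℝ) < r := by
        have := hrW.2.1
        linarith
      rw [div_le_div_iff₀ hr0 hY0]
      have := hrW.2.1
      linarith
    have h4 : (1 + 1 / (r : ℝ)) * (1 + 0.15 / Y) ≤ 1 + 0.775 / Y := by
      have h5 : (1 + 1 / (r : ℝ)) * (1 + 0.15 / Y) ≤ (1 + 0.5264 / Y) * (1 + 0.15 / Y) := by
        gcongr
      refine h5.trans ?_
      have h6 : 1 / Y ≤ 1 := by
        rw [div_le_one hY0]
        linarith
      have h7 : 0 < 1 / Y := by positivity
      have e1 : 0.5264 / Y = 0.5264 * (1 / Y) := by ring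
      have e2 : 0.15 / Y = 0.15 * (1 / Y) := by ring
      have e3 : 0.775 / Y = 0.775 * (1 / Y) := by ring
      rw [e1, e2, e3]
      have h8 := mul_le_mul_of_nonneg_left h6 h7.le
      linarith
    calc (1 + 1 / (r : ℝ)) * hh A * (1 + 0.15 / Y) =
          hh A * ((1 + 1 / (r : ℝ)) * (1 + 0.15 / Y)) := by ring
      _ ≤ hh A * (1 + 0.775 / Y) := by gcongr
      _ ≤ ρ := hcon
  have := hmax _ hins
  rw [card_insert_of_notMem hrA] at this
  omega

/-- the last prime -/
lemma choose_r (x₀ : ℝ) (hx₀ : ∀ x : ℝ, x₀ ≤ x → ∃ p : ℕ, p.Prime ∧ x < p ∧ (p : ℝ) ≤ 1.1 * x)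
    (Y w : ℝ) (hY : 100 ≤ Y) (hYx : x₀ ≤ Y) (hw1 : 0.15 ≤ w) (hw2 : w < 0.775) :
    ∃ r : ℕ, r.Prime ∧ Y < r ∧ (r : ℝ) ≤ 1.9 * Y ∧ (w + 0.126) / Y ≤ 1 / (r : ℝ) ∧
      1 / (r : ℝ) < (w + 0.5) / Y := by
  have hY0 : 0 < Y := by linarith
  obtain ⟨r, hr, h1, h2⟩ := hx₀ (max Y (Y / (w + 0.5))) (hYx.trans (le_max_left _ _))
  have h3 : Y < r := (le_max_left _ _).trans_lt h1
  have h4 : Y / (w + 0.5) < r := (le_max_right _ _).trans_lt h1
  have hr0 : (0 : ℝ) < r := by linarith
  have h5 : (r : ℝ) ≤ 1.9 * Y ∧ (r : ℝ) ≤ Y / (w + 0.126) := by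
    rcases le_total Y (Y / (w + 0.5)) with h | h
    · rw [max_eq_right h] at h2
      have hw3 : w + 0.5 ≤ 1 := by
        rw [le_div_iff₀ (by linarith)] at h
        exact le_of_mul_le_mul_left (by linarith) hY0
      constructor
      · refine h2.trans ?_
        rw [mul_div_assoc', div_le_iff₀ (by linarith)]
        linarith [mul_le_mul_of_nonneg_left hw1 hY0.le]
      · refine h2.trans ?_
        rw [mul_div_assoc', div_le_div_iff₀ (by linarith) (by linarith)]
        linarith [mul_le_mul_of_nonneg_left hw2.le hY0.le]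
    · rw [max_eq_left h] at h2
      constructor
      · linarith
      · refine h2.trans ?_
        rw [le_div_iff₀ (by linarith)]
        linarith [mul_le_mul_of_nonneg_left hw2.le hY0.le]
  refine ⟨r, hr, h3, h5.1, ?_, ?_⟩
  · rw [div_le_div_iff₀ hY0 hr0]
    have := h5.2
    rw [le_div_iff₀ (by linarith)] at this
    linarith
  · rw [div_lt_div_iff₀ hr0 hY0]
    rw [div_lt_iff₀ (by linarith)] at h4
    linarith

/-- **Construction.** -/
theorem construct : ∀ Q : ℕ, ∃ q : ℕ, ∃ G : Finset ℕ, Q < q ∧ OP G ∧ 2 ≤ hh G ∧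
    (∀ r ∈ G, hh (G.erase r) < 2) ∧ 2 * Zs + 10 / (q : ℝ) ^ 2 ≤ hh G * (zz G)⁻¹ ∧
    (q : ℝ) / 200 * Real.log q ≤ ∑ p ∈ G, Real.log p := by
  classical
  intro Q
  obtain ⟨x₀, hx₀⟩ := exists_prime
  obtain ⟨Y₀, hY₀⟩ := eventually_atTop.mp card_W
  obtain ⟨q, F, hqQ, hOF, hFq, hF1, hF2, hFz⟩ := exists_q (max Q (max 100 (max ⌈x₀⌉₊ ⌈Y₀⌉₊)))
  have hq100 : (100 : ℝ) < q := by
    have : 100 < q := lt_of_le_of_lt ((le_max_left _ _).trans (le_max_right _ _)) hqQ
    exact_mod_cast this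
  have hqx₀ : x₀ < q := by
    have h1 : ⌈x₀⌉₊ < q := lt_of_le_of_lt ((le_max_left _ _).trans ((le_max_right _ _).trans
      (le_max_right _ _))) hqQ
    have h2 : ((⌈x₀⌉₊ : ℕ) : ℝ) < q := by exact_mod_cast h1
    linarith [Nat.le_ceil x₀]
  have hqY₀ : Y₀ < q := by
    have h1 : ⌈Y₀⌉₊ < q := lt_of_le_of_lt ((le_max_right _ _).trans ((le_max_right _ _).trans
      (le_max_right _ _))) hqQ
    have h2 : ((⌈Y₀⌉₊ : ℕ) : ℝ) < q := by exact_mod_cast h1
    linarith [Nat.le_ceil Y₀]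
  have hq0 : (0 : ℝ) < q := by linarith
  set Y : ℝ := (q : ℝ) ^ 2 / 100 with hY
  have hYq : (q : ℝ) ≤ Y := by
    rw [hY, le_div_iff₀ (by norm_num)]
    linarith [mul_le_mul_of_nonneg_left hq100.le hq0.le]
  have hY100 : 100 ≤ Y := by linarith
  have hY0 : 0 < Y := by linarith
  have hcard : (q : ℝ) ≤ (W Y).card := by
    have h1 := hY₀ Y (by linarith)
    have h2 : Real.sqrt Y = q / 10 := by
      rw [hY, show (q : ℝ) ^ 2 / 100 = (q / 10) ^ 2 by ring]
      exact Real.sqrt_sq (by positivity)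
    rw [h2] at h1
    linarith
  have hFp := hh_pos F
  set ρ : ℝ := 2 / hh F with hρ
  have hρF : ρ * hh F = 2 := by
    rw [hρ]
    field_simp
  have hρ1 : 1 + 1 / (q : ℝ) < ρ := by
    rw [hρ, lt_div_iff₀ (by linarith)]
    exact hF1
  have hρ2 : ρ ≤ 1 + 4 / (q : ℝ) := by
    have h1 : ρ ≤ (1 + 2 / (q : ℝ)) * (1 + 1 / (q : ℝ)) := by
      rw [hρ, div_le_iff₀ (by linarith)]
      exact hF2
    refine h1.trans ?_
    have h2 : 1 / (q : ℝ) ≤ 1 / 100 := one_div_le_one_div_of_le (by norm_num) hq100.le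
    have h3 : 0 < 1 / (q : ℝ) := by positivity
    have e1 : 2 / (q : ℝ) = 2 * (1 / q) := by ring
    have e2 : 4 / (q : ℝ) = 4 * (1 / q) := by ring
    rw [e1, e2]
    linarith [mul_le_mul_of_nonneg_left h2 h3.le]
  have hYinv : 1 / Y = 100 * (1 / (q : ℝ)) ^ 2 := by
    rw [hY]
    field_simp
  have hqi : 1 / (q : ℝ) ≤ 1 / 100 := one_div_le_one_div_of_le (by norm_num) hq100.le
  have hqi0 : 0 < 1 / (q : ℝ) := by positivity
  obtain ⟨A, hAW, hA1, hA2⟩ := choose_A Y ρ hY100 (by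
      have e1 : 0.15 / Y = 0.15 * (1 / Y) := by ring
      rw [e1, hYinv]
      linarith [mul_le_mul_of_nonneg_left hqi hqi0.le]) (by
      refine hρ2.trans_lt ?_
      have h1 : (q : ℝ) / (2 * Y) ≤ (W Y).card / (2 * Y) := by gcongr
      have h2 : (q : ℝ) / (2 * Y) = 50 / q := by
        rw [hY]
        field_simp
        norm_num
      rw [h2] at h1
      have h3 : 4 / (q : ℝ) < 50 / q := by
        apply div_lt_div_of_pos_right (by norm_num) hq0
      linarith)
  have hAp := hh_pos A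
  set β : ℝ := ρ / hh A with hβ
  have hβ0 : 1 + 0.15 / Y ≤ β := by
    rw [hβ, le_div_iff₀ (by linarith)]
    linarith
  have hβ1 : β < 1 + 0.775 / Y := by
    rw [hβ, div_lt_iff₀ (by linarith)]
    linarith
  have hβA : β * (hh F * hh A) = 2 := by
    rw [hβ, ← hρF]
    field_simp
  set w : ℝ := Y * (β - 1) with hw
  have hw1 : 0.15 ≤ w := by
    have h1 : 0.15 / Y ≤ β - 1 := by linarith
    rw [div_le_iff₀ hY0] at h1
    rw [hw]
    linarith
  have hw2 : w < 0.775 := by
    have h1 : β - 1 < 0.775 / Y := by linarith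
    rw [lt_div_iff₀ hY0] at h1
    rw [hw]
    linarith
  have hβw : β = 1 + w / Y := by
    rw [hw]
    field_simp
    ring
  obtain ⟨r, hr, hr1, hr2, hr3, hr4⟩ := choose_r x₀ hx₀ Y w hY100 (by linarith) hw1 hw2
  have hr0 : (0 : ℝ) < r := by linarith
  have hrA : r ∉ A := by
    intro h
    have := ((mem_W Y hY0 r).mp (hAW h)).2.1
    linarith
  have hdisj : Disjoint F (insert r A) := by
    rw [Finset.disjoint_left]
    intro p hp hp2
    have h1 : (p : ℝ) < q := by exact_mod_cast hFq p hp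
    rw [mem_insert] at hp2
    rcases hp2 with rfl | hp2
    · linarith
    · have := ((mem_W Y hY0 p).mp (hAW hp2)).2.1
      linarith
  set A' := insert r A with hA'
  have hOA' : OP A' := by
    intro p hp
    rw [hA', mem_insert] at hp
    rcases hp with rfl | hp
    · refine ⟨hr, ?_⟩
      have : (3 : ℝ) ≤ p := by linarith
      exact_mod_cast this
    · have h1 := (mem_W Y hY0 p).mp (hAW hp)
      refine ⟨h1.1, ?_⟩
      have : (3 : ℝ) ≤ p := by linarith [h1.2.1]
      exact_mod_cast this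
  have hA'le : ∀ p ∈ A', Y < p ∧ (p : ℝ) ≤ 2 * Y := by
    intro p hp
    rw [hA', mem_insert] at hp
    rcases hp with rfl | hp
    · exact ⟨hr1, by linarith⟩
    · have h1 := (mem_W Y hY0 p).mp (hAW hp)
      exact ⟨by linarith [h1.2.1], h1.2.2⟩
  have hhA' : hh A' = (1 + 1 / (r : ℝ)) * hh A := hh_insert hrA
  have hhG : hh (F ∪ A') * β = 2 * (1 + 1 / (r : ℝ)) := by
    rw [hh_union hdisj, hhA']
    calc hh F * ((1 + 1 / (r : ℝ)) * hh A) * β = (1 + 1 / (r : ℝ)) * (β * (hh F * hh A)) := by ring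
      _ = 2 * (1 + 1 / (r : ℝ)) := by rw [hβA]; ring
  have hβp : 0 < β := by
    have : 0 < 0.15 / Y := by positivity
    linarith
  have hy0 : 0 < 1 / Y := by positivity
  have hy1 : 1 / Y ≤ 1 / 100 := one_div_le_one_div_of_le (by norm_num) hY100
  have e1 : w / Y = w * (1 / Y) := by ring
  have e2 : (w + 0.126) / Y = (w + 0.126) * (1 / Y) := by ring
  have e3 : (w + 0.5) / Y = (w + 0.5) * (1 / Y) := by ring
  -- lower bound
  have hlow : 2 * (1 + 1 / 8 * (1 / Y)) ≤ hh (F ∪ A') := by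
    have h1 : β * (1 + 1 / 8 * (1 / Y)) ≤ 1 + 1 / (r : ℝ) := by
      rw [e2] at hr3
      rw [hβw, e1]
      have h2 : w * (1 / Y) * (1 / 8 * (1 / Y)) ≤ 0.001 * (1 / Y) := by
        have h3 : w * (1 / Y) ≤ 0.775 * (1 / 100) := by
          apply mul_le_mul hw2.le hy1 hy0.le (by norm_num)
        linarith [mul_le_mul_of_nonneg_right h3 hy0.le]
      linarith
    have h2 : 2 * (1 + 1 / 8 * (1 / Y)) * β ≤ hh (F ∪ A') * β := by
      rw [hhG]
      linarith
    exact le_of_mul_le_mul_right h2 hβp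
  -- upper bound
  have hupp : hh (F ∪ A') < 2 * (1 + 1 / (2 * Y)) := by
    have h1 : 1 + 1 / (r : ℝ) < β * (1 + 1 / (2 * Y)) := by
      rw [e3] at hr4
      have e4 : 1 / (2 * Y) = 1 / 2 * (1 / Y) := by field_simp
      rw [hβw, e1, e4]
      have h2 : 0 ≤ w * (1 / Y) * (1 / 2 * (1 / Y)) := by
        have : 0 ≤ w := by linarith
        positivity
      linarith
    have h2 : hh (F ∪ A') * β < 2 * (1 + 1 / (2 * Y)) * β := by
      rw [hhG]
      linarith
    exact lt_of_mul_lt_mul_right h2 hβp.le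
  have hOG : OP (F ∪ A') := by
    intro p hp
    rw [mem_union] at hp
    rcases hp with hp | hp
    · exact hOF p hp
    · exact hOA' p hp
  refine ⟨q, F ∪ A', lt_of_le_of_lt (le_max_left _ _) hqQ, hOG, ?_, ?_, ?_, ?_⟩
  · have : 0 ≤ 1 / 8 * (1 / Y) := by positivity
    linarith
  · intro p hp
    have hp2 : (p : ℝ) ≤ 2 * Y := by
      rw [mem_union] at hp
      rcases hp with hp | hp
      · have h1 : (p : ℝ) < q := by exact_mod_cast hFq p hp
        linarith
      · exact (hA'le p hp).2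
    have hp0 : (3 : ℝ) ≤ p := by exact_mod_cast (hOG p hp).2
    have h1 : hh (F ∪ A') = (1 + 1 / (p : ℝ)) * hh ((F ∪ A').erase p) := by
      conv_lhs => rw [← insert_erase hp]
      exact hh_insert (notMem_erase p _)
    have h2 : 1 + 1 / (2 * Y) ≤ 1 + 1 / (p : ℝ) := by
      have := one_div_le_one_div_of_le (show (0 : ℝ) < p by linarith) hp2
      linarith
    have h3 := hh_pos ((F ∪ A').erase p)
    have h4 : (1 + 1 / (2 * Y)) * hh ((F ∪ A').erase p) < (1 + 1 / (2 * Y)) * 2 := by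
      calc (1 + 1 / (2 * Y)) * hh ((F ∪ A').erase p)
          ≤ (1 + 1 / (p : ℝ)) * hh ((F ∪ A').erase p) := by gcongr
        _ = hh (F ∪ A') := h1.symm
        _ < (1 + 1 / (2 * Y)) * 2 := by linarith
    exact lt_of_mul_lt_mul_left h4 (by positivity)
  · -- the value of `H`
    have h1 : (zz F)⁻¹ ≤ (zz (F ∪ A'))⁻¹ := by
      have h2 := zz_ge hOF
      have h3 := zz_ge hOG
      have h4 := zz_le_one hOA'
      apply inv_anti₀ (by linarith)
      rw [zz_union hdisj]
      exact mul_le_of_le_one_right (by linarith) h4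
    have h2 : 2 * (1 + 1 / 8 * (1 / Y)) * (Zs - 7 / (q : ℝ) ^ 2) ≤ hh (F ∪ A') * (zz (F ∪ A'))⁻¹ := by
      have h3 := inv_zz_bounds hOF
      have h4 : 0 ≤ 1 / 8 * (1 / Y) := by positivity
      calc 2 * (1 + 1 / 8 * (1 / Y)) * (Zs - 7 / (q : ℝ) ^ 2)
          ≤ 2 * (1 + 1 / 8 * (1 / Y)) * (zz F)⁻¹ := by
            apply mul_le_mul_of_nonneg_left hFz
            linarith
        _ ≤ hh (F ∪ A') * (zz (F ∪ A'))⁻¹ := by
            apply mul_le_mul hlow h1
            · linarith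
            · linarith
    refine le_trans ?_ h2
    have e5 : 7 / (q : ℝ) ^ 2 = 7 * (1 / (q : ℝ)) ^ 2 := by
      field_simp
    have e6 : 10 / (q : ℝ) ^ 2 = 10 * (1 / (q : ℝ)) ^ 2 := by
      field_simp
    rw [e5, e6, hYinv]
    set v : ℝ := (1 / (q : ℝ)) ^ 2 with hv
    have hv0 : 0 < v := by positivity
    have hv1 : v ≤ 1 / 10000 := by
      rw [hv]
      calc (1 / (q : ℝ)) ^ 2 ≤ (1 / 100) ^ 2 := by gcongr
        _ = 1 / 10000 := by norm_num
    have hZ := one_le_Zs
    linarith [mul_le_mul_of_nonneg_left hv1 hv0.le, mul_le_mul_of_nonneg_right hZ hv0.le]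
  · -- the size
    have h1 : ∑ p ∈ A', Real.log p ≤ ∑ p ∈ F ∪ A', Real.log p := by
      apply sum_le_sum_of_subset_of_nonneg subset_union_right
      intro p _ _
      exact Real.log_natCast_nonneg p
    have h2 : ∑ p ∈ A', Real.log q ≤ ∑ p ∈ A', Real.log p := by
      apply sum_le_sum
      intro p hp
      apply Real.log_le_log hq0
      linarith [(hA'le p hp).1]
    rw [sum_const, nsmul_eq_mul] at h2
    have h3 : (q : ℝ) / 200 ≤ A'.card := by
      by_contra hcon
      push Not at hcon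
      have h4 : hh A' ≤ Real.exp (A'.card / Y) := by
        have h5 : hh A' ≤ ∏ p ∈ A', Real.exp (1 / Y) := by
          unfold hh
          apply Finset.prod_le_prod
          · intro p hp
            positivity
          · intro p hp
            have h6 : 1 / (p : ℝ) ≤ 1 / Y := one_div_le_one_div_of_le hY0 (hA'le p hp).1.le
            have h7 := Real.add_one_le_exp (1 / Y)
            linarith
        rw [prod_const, ← Real.exp_nat_mul] at h5
        refine h5.trans (le_of_eq ?_)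
        congr 1
        ring
      have h5 : (A'.card : ℝ) / Y ≤ 1 / 2 * (1 / q) := by
        have h6 : (A'.card : ℝ) / Y ≤ (q / 200) / Y := by gcongr
        have h7 : (q : ℝ) / 200 / Y = 1 / 2 * (1 / q) := by
          have e7 : (q : ℝ) / 200 / Y = 1 / 200 * (q * (1 / Y)) := by ring
          rw [e7, hYinv]
          field_simp
          norm_num
        linarith
      have h6 : 0 ≤ (A'.card : ℝ) / Y := div_nonneg (Nat.cast_nonneg _) hY0.le
      have h7 : |(A'.card : ℝ) / Y| ≤ 1 := by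
        rw [abs_of_nonneg h6]
        linarith
      have h8 := Real.abs_exp_sub_one_le h7
      rw [abs_of_nonneg h6] at h8
      have h9 := (abs_le.mp h8).2
      have h10 : hh A' ≤ 1 + 1 / (q : ℝ) := by linarith
      have h11 : 2 ≤ hh F * hh A' := by
        rw [← hh_union hdisj]
        have : 0 ≤ 1 / 8 * (1 / Y) := by positivity
        linarith
      have h12 : hh F * hh A' ≤ hh F * (1 + 1 / (q : ℝ)) := by gcongr
      linarith
    have hlq : 0 ≤ Real.log q := Real.log_nonneg (by linarith)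
    calc (q : ℝ) / 200 * Real.log q ≤ A'.card * Real.log q := by gcongr
      _ ≤ _ := h2.trans h1

end Pool.Agent.R530.Pnd
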