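import Pool.Agent.R530.PndUpper

/-!
# Counting numbers with small prime power components (Rankin's method)
-/

set_option autoImplicit false
set_option maxHeartbeats 4000000

namespace Pool.Agent.R530.Pnd

open Finset Filter

/-- the prime power components of `n` -/
noncomputable def comps (n : ℕ) : Finset ℕ := by
  classical
  exact n.primeFactors.image (fun p => p ^ n.factorization p)

lemma prod_comps (n : ℕ) (hn : n ≠ 0) (f : ℕ → ℝ) (hf : ∀ a b : ℕ, f (a * b) = f a * f b)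
    (hf1 : f 1 = 1) : ∏ t ∈ comps n, f t = f n := by
  classical
  unfold comps
  rw [prod_image]
  · have h1 : ∏ p ∈ n.primeFactors, f (p ^ n.factorization p) =
        f (∏ p ∈ n.primeFactors, p ^ n.factorization p) := by
      induction n.primeFactors using Finset.induction_on with
      | empty => simp [hf1]
      | insert a s ha ih => rw [prod_insert ha, prod_insert ha, hf, ih]
    rw [h1]
    congr 1
    exact Nat.prod_factorization_pow_eq_self hn
  · intro p hp q hq hpq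
    simp only at hpq
    have hpp := Nat.prime_of_mem_primeFactors (mem_coe.mp hp)
    have hqp := Nat.prime_of_mem_primeFactors (mem_coe.mp hq)
    have hpd := Nat.dvd_of_mem_primeFactors (mem_coe.mp hp)
    have ha1 : 1 ≤ n.factorization p := (hpp.dvd_iff_one_le_factorization hn).mp hpd
    have h2 : p ∣ q ^ n.factorization q := by
      rw [← hpq]
      exact dvd_pow_self p (by omega)
    have h3 := hpp.dvd_of_dvd_pow h2
    exact (Nat.prime_dvd_prime_iff_eq hpp hqp).mp h3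

/-- Rankin's bound -/
lemma rankin (E : Finset ℕ) (N : ℝ) (hN0 : 0 ≤ N) (y : ℕ) (s : ℝ) (hs : 0 ≤ s) (hE : ∀ n ∈ E, 1 ≤ n ∧ (n : ℝ) ≤ N)
    (hc : ∀ n ∈ E, ∀ q ∈ n.primeFactors, q ^ n.factorization q ≤ y) :
    (E.card : ℝ) ≤ N ^ s * Real.exp (∑ t ∈ PP y, (t : ℝ) ^ (-s)) := by
  classical
  rcases E.eq_empty_or_nonempty with hE0 | ⟨n0, hn0⟩
  · rw [hE0, card_empty]
    push_cast
    positivity
  have hN : 1 ≤ N := by
    have h1 := hE n0 hn0
    have : (1 : ℝ) ≤ n0 := by exact_mod_cast h1.1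
    linarith [h1.2]
  have h1 : ∀ n ∈ E, (1 : ℝ) ≤ N ^ s * (n : ℝ) ^ (-s) := by
    intro n hn
    have hn1 : (1 : ℝ) ≤ n := by exact_mod_cast (hE n hn).1
    rw [Real.rpow_neg (by linarith), ← div_eq_mul_inv, one_le_div (by positivity)]
    exact Real.rpow_le_rpow (by linarith) (hE n hn).2 hs
  have h2 : (E.card : ℝ) ≤ N ^ s * ∑ n ∈ E, (n : ℝ) ^ (-s) := by
    calc (E.card : ℝ) = ∑ n ∈ E, (1 : ℝ) := by simp
      _ ≤ ∑ n ∈ E, N ^ s * (n : ℝ) ^ (-s) := sum_le_sum h1
      _ = _ := by rw [mul_sum]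
  refine h2.trans ?_
  apply mul_le_mul_of_nonneg_left _ (by positivity)
  have hf : ∀ n ∈ E, ∏ t ∈ comps n, (t : ℝ) ^ (-s) = (n : ℝ) ^ (-s) := by
    intro n hn
    have hn1 := (hE n hn).1
    apply prod_comps n (by omega) (fun t => (t : ℝ) ^ (-s))
    · intro a b
      push_cast
      exact Real.mul_rpow (Nat.cast_nonneg _) (Nat.cast_nonneg _)
    · simp
  have hprod : ∀ n ∈ E, ∏ t ∈ comps n, (t : ℝ) = (n : ℝ) := by
    intro n hn
    have hn1 := (hE n hn).1
    apply prod_comps n (by omega) (fun t => (t : ℝ))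
    · intro a b
      push_cast
      rfl
    · simp
  have hinj : Set.InjOn comps (E : Set ℕ) := by
    intro a ha b hb hab
    have h3 := hprod a ha
    rw [hab, hprod b hb] at h3
    exact_mod_cast h3.symm
  have hsub : E.image comps ⊆ (PP y).powerset := by
    intro T hT
    rw [mem_image] at hT
    obtain ⟨n, hn, rfl⟩ := hT
    rw [mem_powerset]
    intro t ht
    unfold comps at ht
    rw [mem_image] at ht
    obtain ⟨p, hp, rfl⟩ := ht
    rw [mem_PP]
    refine ⟨?_, hc n hn p hp⟩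
    have hpp := Nat.prime_of_mem_primeFactors hp
    have hpd := Nat.dvd_of_mem_primeFactors hp
    have hn1 := (hE n hn).1
    have ha1 : 1 ≤ n.factorization p := (hpp.dvd_iff_one_le_factorization (by omega)).mp hpd
    exact hpp.isPrimePow.pow (by omega)
  calc ∑ n ∈ E, (n : ℝ) ^ (-s) = ∑ n ∈ E, ∏ t ∈ comps n, (t : ℝ) ^ (-s) :=
        sum_congr rfl (fun n hn => (hf n hn).symm)
    _ = ∑ T ∈ E.image comps, ∏ t ∈ T, (t : ℝ) ^ (-s) :=
        (sum_image (f := fun T : Finset ℕ => ∏ t ∈ T, (t : ℝ) ^ (-s)) hinj).symm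
    _ ≤ ∑ T ∈ (PP y).powerset, ∏ t ∈ T, (t : ℝ) ^ (-s) := by
        apply sum_le_sum_of_subset_of_nonneg hsub
        intro T _ _
        apply prod_nonneg
        intro t _
        positivity
    _ = ∏ t ∈ PP y, (1 + (t : ℝ) ^ (-s)) := (prod_one_add (PP y)).symm
    _ ≤ ∏ t ∈ PP y, Real.exp ((t : ℝ) ^ (-s)) := by
        apply Finset.prod_le_prod
        · intro t _
          positivity
        · intro t _
          rw [add_comm]
          exact Real.add_one_le_exp _
    _ = Real.exp (∑ t ∈ PP y, (t : ℝ) ^ (-s)) := (Real.exp_sum _ _).symm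

/-- sums of `1 / √t` over sets of given size -/
lemma sum_inv_sqrt (T : Finset ℕ) (hT : ∀ t ∈ T, 1 ≤ t) :
    ∑ t ∈ T, 1 / Real.sqrt t ≤ 2 * Real.sqrt T.card := by
  induction T using Finset.induction_on_max with
  | empty => simp
  | insert a T ha ih =>
    have haT : a ∉ T := fun h => (lt_irrefl a (ha a h))
    have h1 := ih (fun t ht => hT t (mem_insert_of_mem ht))
    rw [sum_insert haT, card_insert_of_notMem haT]
    have h2 : T.card + 1 ≤ a := by
      have h3 : insert a T ⊆ Icc 1 a := by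
        intro t ht
        rw [mem_Icc]
        refine ⟨hT t ht, ?_⟩
        rw [mem_insert] at ht
        rcases ht with rfl | ht
        · exact le_refl _
        · exact (ha t ht).le
      have h4 := card_le_card h3
      rw [card_insert_of_notMem haT, Nat.card_Icc] at h4
      omega
    set k : ℝ := (T.card : ℝ) with hk
    have hk0 : 0 ≤ k := Nat.cast_nonneg _
    have h3 : k + 1 ≤ a := by
      rw [hk]
      exact_mod_cast h2
    have h4 : 1 / Real.sqrt a ≤ 1 / Real.sqrt (k + 1) := by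
      apply one_div_le_one_div_of_le (Real.sqrt_pos.mpr (by linarith))
      exact Real.sqrt_le_sqrt h3
    have h5 : 1 / Real.sqrt (k + 1) ≤ 2 * (Real.sqrt (k + 1) - Real.sqrt k) := by
      have hs1 : 0 < Real.sqrt (k + 1) := Real.sqrt_pos.mpr (by linarith)
      rw [div_le_iff₀ hs1]
      have e1 : Real.sqrt (k + 1) * Real.sqrt (k + 1) = k + 1 := Real.mul_self_sqrt (by linarith)
      have e2 : Real.sqrt k * Real.sqrt k = k := Real.mul_self_sqrt hk0
      nlinarith [sq_nonneg (Real.sqrt (k + 1) - Real.sqrt k)]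
    push_cast
    linarith

/-- the Rankin exponent -/
lemma sum_PP (y : ℝ) (ε : ℝ) (hε : 0 ≤ ε) (hy : 1 ≤ y) :
    ∑ t ∈ PP ⌊y⌋₊, (t : ℝ) ^ (-(1 / 2 - ε)) ≤ y ^ ε * (2 * Real.sqrt (PP ⌊y⌋₊).card) := by
  have h1 : ∀ t ∈ PP ⌊y⌋₊, (t : ℝ) ^ (-(1 / 2 - ε)) ≤ y ^ ε * (1 / Real.sqrt t) := by
    intro t ht
    rw [mem_PP] at ht
    have ht1 : (1 : ℝ) ≤ t := by exact_mod_cast ht.1.pos
    have ht2 : (t : ℝ) ≤ y := (Nat.le_floor_iff (by linarith)).mp ht.2
    have e1 : (t : ℝ) ^ (-(1 / 2 - ε)) = (t : ℝ) ^ ε * (1 / Real.sqrt t) := by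
      rw [show -(1 / 2 - ε) = ε - 1 / 2 by ring, Real.rpow_sub (by linarith), Real.sqrt_eq_rpow]
      ring
    rw [e1]
    apply mul_le_mul_of_nonneg_right _ (by positivity)
    exact Real.rpow_le_rpow (by linarith) ht2 hε
  calc ∑ t ∈ PP ⌊y⌋₊, (t : ℝ) ^ (-(1 / 2 - ε)) ≤ ∑ t ∈ PP ⌊y⌋₊, y ^ ε * (1 / Real.sqrt t) :=
        sum_le_sum h1
    _ = y ^ ε * ∑ t ∈ PP ⌊y⌋₊, 1 / Real.sqrt t := by rw [mul_sum]
    _ ≤ y ^ ε * (2 * Real.sqrt (PP ⌊y⌋₊).card) := by
        apply mul_le_mul_of_nonneg_left _ (by positivity)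
        apply sum_inv_sqrt
        intro t ht
        exact ((mem_PP _ _).mp ht).1.pos

end Pool.Agent.R530.Pnd
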