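import Mathlib

/-!
# Definitions: odd primitive non-deficient numbers and the function `g`
-/

set_option autoImplicit false

namespace Pool.Agent.R530.Pnd

/-- `h n = σ(n) / n`, where `σ(n)` is the sum of the divisors of `n`. -/
noncomputable def h (n : ℕ) : ℝ := ((∑ d ∈ n.divisors, d : ℕ) : ℝ) / (n : ℝ)

/-- `H n = n / φ(n)`, where `φ` is the totient function. -/
noncomputable def H (n : ℕ) : ℝ := (n : ℝ) / (Nat.totient n : ℝ)

/-- `S n = H n - 2`. -/
noncomputable def S (n : ℕ) : ℝ := H n - 2

/-- `g n = S n * √n`. -/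
noncomputable def g (n : ℕ) : ℝ := S n * Real.sqrt (n : ℝ)

/-- `n` is non-deficient: `σ(n) ≥ 2 n` (and `n > 0`). -/
def NonDeficient (n : ℕ) : Prop := 0 < n ∧ 2 * n ≤ ∑ d ∈ n.divisors, d

/-- `n` is primitive non-deficient: non-deficient, and no proper divisor is non-deficient. -/
def PrimitiveNonDeficient (n : ℕ) : Prop :=
  NonDeficient n ∧ ∀ d : ℕ, d ∣ n → d < n → ¬ NonDeficient d

/-- The record setters for `g` among the odd primitive non-deficient numbers. -/
def B₂ : Set ℕ := {n | Odd n ∧ PrimitiveNonDeficient n ∧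
  ∀ k : ℕ, k < n → Odd k → PrimitiveNonDeficient k → g k < g n}

end Pool.Agent.R530.Pnd
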