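import Pool.Agent.Helper923.PNT

/-!
# Facts about primes used for odd primitive non-deficient numbers
-/

set_option autoImplicit false

namespace Pool.Agent.R530.Pnd

open Filter Topology Finset

lemma theta_diff (a b : ℝ) (ha : 0 < a) (hab : a < b) : ∀ᶠ Y : ℝ in atTop,
    (b - a) / 2 * Y ≤ Chebyshev.theta (b * Y) - Chebyshev.theta (a * Y) := by
  have hb : 0 < b := ha.trans hab
  set δ : ℝ := (b - a) / (2 * (a + b)) with hδ
  have hδ0 : 0 < δ := by
    apply div_pos (by linarith)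
    positivity
  have h := Helper923.PNT.theta_div_tendsto
  have h1 : ∀ᶠ x : ℝ in atTop, 1 - δ < Chebyshev.theta x / x :=
    h.eventually_const_lt (by linarith)
  have h2 : ∀ᶠ x : ℝ in atTop, Chebyshev.theta x / x < 1 + δ :=
    h.eventually_lt_const (by linarith)
  have h3 : ∀ᶠ Y : ℝ in atTop, 1 - δ < Chebyshev.theta (b * Y) / (b * Y) :=
    (tendsto_id.const_mul_atTop hb).eventually h1
  have h4 : ∀ᶠ Y : ℝ in atTop, Chebyshev.theta (a * Y) / (a * Y) < 1 + δ :=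
    (tendsto_id.const_mul_atTop ha).eventually h2
  filter_upwards [h3, h4, eventually_gt_atTop 0] with Y h5 h6 hY
  rw [lt_div_iff₀ (by positivity)] at h5
  rw [div_lt_iff₀ (by positivity)] at h6
  have e : (b - a) / 2 = (b - a) - δ * (a + b) := by
    rw [hδ]
    field_simp
    ring
  rw [e]
  nlinarith

/-- primes in `(x, 1.1 x]` -/
lemma exists_prime : ∃ x₀ : ℝ, ∀ x : ℝ, x₀ ≤ x → ∃ p : ℕ, p.Prime ∧ x < p ∧ (p : ℝ) ≤ 1.1 * x := by
  obtain ⟨x₀, hx₀⟩ := eventually_atTop.mp ((theta_diff 1 1.1 one_pos (by norm_num)).and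
    (eventually_gt_atTop 0))
  refine ⟨x₀, fun x hx => ?_⟩
  obtain ⟨h1, h0⟩ := hx₀ x hx
  rw [one_mul] at h1
  by_contra hcon
  push Not at hcon
  have : Chebyshev.theta (1.1 * x) ≤ Chebyshev.theta x := by
    unfold Chebyshev.theta
    apply Finset.sum_le_sum_of_subset_of_nonneg
    · intro p hp
      rw [mem_filter, mem_Ioc] at hp ⊢
      obtain ⟨⟨h2, h3⟩, h4⟩ := hp
      refine ⟨⟨h2, ?_⟩, h4⟩
      have h5 : (p : ℝ) ≤ 1.1 * x := (Nat.le_floor_iff (by positivity)).mp h3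
      by_contra h6
      rw [Nat.le_floor_iff h0.le] at h6
      push Not at h6
      have := hcon p h4 h6
      linarith
    · intro p _ _
      exact Real.log_natCast_nonneg p
  have h7 : 0 < (1.1 - 1) / 2 * x := by positivity
  linarith

/-- the primes in `(1.9 Y, 2 Y]` -/
noncomputable def W (Y : ℝ) : Finset ℕ := (Ioc ⌊1.9 * Y⌋₊ ⌊2 * Y⌋₊).filter Nat.Prime

lemma mem_W (Y : ℝ) (hY : 0 < Y) (p : ℕ) : p ∈ W Y ↔ p.Prime ∧ 1.9 * Y < p ∧ (p : ℝ) ≤ 2 * Y := by
  unfold W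
  rw [mem_filter, mem_Ioc, Nat.floor_lt (by positivity), Nat.le_floor_iff (by positivity)]
  tauto

lemma card_W : ∀ᶠ Y : ℝ in atTop, 10 * Real.sqrt Y ≤ ((W Y).card : ℝ) := by
  have h1 := theta_diff 1.9 2 (by norm_num) (by norm_num)
  have h2 : ∀ᶠ Y : ℝ in atTop, Real.log (2 * Y) * (10 * Real.sqrt Y) ≤ (2 - 1.9) / 2 * Y := by
    have h3 : (fun Y : ℝ => Real.log (2 * Y)) =o[atTop] fun Y : ℝ => Real.sqrt (2 * Y) := by
      have := (isLittleO_log_rpow_atTop (show (0 : ℝ) < 1 / 2 by norm_num)).comp_tendsto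
        (tendsto_id.const_mul_atTop (show (0 : ℝ) < 2 by norm_num))
      refine this.congr' ?_ ?_
      · filter_upwards with x
        rfl
      · filter_upwards with x
        rw [Real.sqrt_eq_rpow]
        rfl
    have h4 := h3.bound (show (0 : ℝ) < 1 / 400 by norm_num)
    filter_upwards [h4, eventually_ge_atTop 1] with Y hY hY1
    rw [Real.norm_of_nonneg (Real.log_nonneg (by linarith)),
      Real.norm_of_nonneg (Real.sqrt_nonneg _), Real.sqrt_mul (by norm_num)] at hY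
    have h5 : Real.sqrt 2 ≤ 2 := by
      rw [Real.sqrt_le_left (by norm_num)]
      norm_num
    have h6 : 0 ≤ Real.sqrt Y := Real.sqrt_nonneg _
    have h7 : Real.sqrt Y * Real.sqrt Y = Y := Real.mul_self_sqrt (by linarith)
    have h8 : Real.log (2 * Y) ≤ 1 / 200 * Real.sqrt Y := by nlinarith
    have h9 := mul_le_mul_of_nonneg_right h8 (show 0 ≤ 10 * Real.sqrt Y by positivity)
    have h10 : 1 / 200 * Real.sqrt Y * (10 * Real.sqrt Y) = 1 / 20 * Y := by
      calc 1 / 200 * Real.sqrt Y * (10 * Real.sqrt Y) = 1 / 20 * (Real.sqrt Y * Real.sqrt Y) := by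
            ring
        _ = 1 / 20 * Y := by rw [h7]
    rw [h10] at h9
    norm_num at h9 ⊢
    linarith
  filter_upwards [h1, h2, eventually_ge_atTop 1] with Y h3 h4 hY
  have h5 : Chebyshev.theta (2 * Y) - Chebyshev.theta (1.9 * Y) ≤ (W Y).card * Real.log (2 * Y) := by
    unfold Chebyshev.theta
    have h6 : ∑ p ∈ Ioc 0 ⌊2 * Y⌋₊ with Nat.Prime p, Real.log p ≤
        ∑ p ∈ Ioc 0 ⌊1.9 * Y⌋₊ with Nat.Prime p, Real.log p + ∑ p ∈ W Y, Real.log p := by
      rw [← Finset.sum_union]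
      · apply Finset.sum_le_sum_of_subset_of_nonneg
        · intro p hp
          rw [mem_union]
          unfold W
          rw [mem_filter, mem_Ioc] at hp
          rw [mem_filter, mem_Ioc, mem_filter, mem_Ioc]
          rcases le_or_gt p ⌊1.9 * Y⌋₊ with h | h
          · left
            exact ⟨⟨hp.1.1, h⟩, hp.2⟩
          · right
            exact ⟨⟨h, hp.1.2⟩, hp.2⟩
        · intro p _ _
          exact Real.log_natCast_nonneg p
      · rw [Finset.disjoint_left]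
        intro p hp hp2
        unfold W at hp2
        rw [mem_filter, mem_Ioc] at hp hp2
        omega
    have h7 : ∑ p ∈ W Y, Real.log p ≤ ∑ p ∈ W Y, Real.log (2 * Y) := by
      apply Finset.sum_le_sum
      intro p hp
      rw [mem_W Y (by linarith)] at hp
      apply Real.log_le_log
      · exact_mod_cast hp.1.pos
      · exact hp.2.2
    rw [Finset.sum_const, nsmul_eq_mul] at h7
    linarith
  have hl : 0 < Real.log (2 * Y) := Real.log_pos (by linarith)
  have h6 : Real.log (2 * Y) * (10 * Real.sqrt Y) ≤ Real.log (2 * Y) * (W Y).card := by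
    linarith [mul_comm (Real.log (2 * Y)) ((W Y).card : ℝ)]
  exact le_of_mul_le_mul_left h6 hl

/-- prime powers up to `N` -/
noncomputable def PP (N : ℕ) : Finset ℕ := by
  classical
  exact (Icc 1 N).filter IsPrimePow

lemma mem_PP (N t : ℕ) : t ∈ PP N ↔ IsPrimePow t ∧ t ≤ N := by
  unfold PP
  rw [mem_filter, mem_Icc]
  constructor
  · rintro ⟨⟨_, h2⟩, h3⟩
    exact ⟨h3, h2⟩
  · rintro ⟨h1, h2⟩
    exact ⟨⟨h1.pos, h2⟩, h1⟩

lemma card_PP_le (N : ℕ) : (PP N).card ≤ Nat.primeCounting N + (Nat.sqrt N + 1) * (Nat.log 2 N + 1) := by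
  have h1 : PP N ⊆ ((range (N + 1)).filter Nat.Prime) ∪
      ((range (Nat.sqrt N + 1) ×ˢ range (Nat.log 2 N + 1)).image (fun x => x.1 ^ x.2)) := by
    intro t ht
    rw [mem_PP] at ht
    obtain ⟨ht1, ht2⟩ := ht
    obtain ⟨p, k, hp, hk, rfl⟩ := (isPrimePow_nat_iff _).mp ht1
    rw [mem_union]
    rcases Nat.lt_or_ge k 2 with h | h
    · left
      have : k = 1 := by omega
      subst this
      rw [pow_one] at ht2 ⊢
      rw [mem_filter, mem_range]
      exact ⟨by omega, hp⟩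
    · right
      rw [mem_image]
      refine ⟨(p, k), ?_, rfl⟩
      rw [mem_product, mem_range, mem_range]
      constructor
      · simp only
        have : p ≤ Nat.sqrt N := by
          rw [Nat.le_sqrt]
          calc p * p = p ^ 2 := (sq p).symm
            _ ≤ p ^ k := Nat.pow_le_pow_right hp.pos h
            _ ≤ N := ht2
        omega
      · simp only
        have : k ≤ Nat.log 2 N := by
          apply Nat.le_log_of_pow_le (by norm_num)
          calc 2 ^ k ≤ p ^ k := Nat.pow_le_pow_left hp.two_le k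
            _ ≤ N := ht2
        omega
  have h2 := (card_le_card h1).trans (card_union_le _ _)
  have h3 : ((range (N + 1)).filter Nat.Prime).card = Nat.primeCounting N := by
    rw [Nat.primeCounting, Nat.primeCounting', Nat.count_eq_card_filter_range]
  have h4 : ((range (Nat.sqrt N + 1) ×ˢ range (Nat.log 2 N + 1)).image
      (fun x => x.1 ^ x.2)).card ≤ (Nat.sqrt N + 1) * (Nat.log 2 N + 1) := by
    refine card_image_le.trans ?_
    rw [card_product, card_range, card_range]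
  rw [h3] at h2
  omega

lemma card_PP_small (δ : ℝ) (hδ : 0 < δ) : ∀ᶠ y : ℝ in atTop, ((PP ⌊y⌋₊).card : ℝ) ≤ δ * y := by
  have h1 : ∀ᶠ x : ℝ in atTop, (Nat.primeCounting ⌊x⌋₊ : ℝ) * Real.log x / x < 2 :=
    Helper923.PNT.pi_tendsto.eventually_lt_const (by norm_num)
  have h2 : ∀ᶠ x : ℝ in atTop, 4 / δ ≤ Real.log x :=
    Real.tendsto_log_atTop.eventually_ge_atTop _
  have h3 : (fun x : ℝ => Real.log x) =o[atTop] fun x : ℝ => x ^ (1 / 2 : ℝ) :=
    isLittleO_log_rpow_atTop (by norm_num)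
  have h4 := h3.bound (show (0 : ℝ) < δ / 12 by positivity)
  filter_upwards [h1, h2, h4, eventually_ge_atTop (Real.exp 1)] with x h5 h6 h7 hx
  have hx1 : 1 ≤ x := by
    have := Real.add_one_le_exp (1 : ℝ)
    linarith
  have hx0 : 0 < x := by linarith
  have hlog : 1 ≤ Real.log x := by
    rw [Real.le_log_iff_exp_le hx0]
    exact hx
  rw [← Real.sqrt_eq_rpow, Real.norm_of_nonneg (by linarith),
    Real.norm_of_nonneg (Real.sqrt_nonneg _)] at h7
  have hs : Real.sqrt x * Real.sqrt x = x := Real.mul_self_sqrt hx0.le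
  have hs1 : 1 ≤ Real.sqrt x := by
    rw [Real.one_le_sqrt]
    exact hx1
  have h8 : (Nat.primeCounting ⌊x⌋₊ : ℝ) ≤ δ / 2 * x := by
    rw [div_lt_iff₀ hx0] at h5
    have h9 : 4 ≤ δ * Real.log x := by
      rw [div_le_iff₀ hδ] at h6
      linarith
    have h10 : (Nat.primeCounting ⌊x⌋₊ : ℝ) * 4 ≤
        (Nat.primeCounting ⌊x⌋₊ : ℝ) * (δ * Real.log x) := by gcongr
    nlinarith
  have h11 := card_PP_le ⌊x⌋₊
  have h12 : ((PP ⌊x⌋₊).card : ℝ) ≤ (Nat.primeCounting ⌊x⌋₊ : ℝ) +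
      ((Nat.sqrt ⌊x⌋₊ : ℝ) + 1) * ((Nat.log 2 ⌊x⌋₊ : ℝ) + 1) := by exact_mod_cast h11
  have h13 : (Nat.sqrt ⌊x⌋₊ : ℝ) ≤ Real.sqrt x := by
    apply Real.le_sqrt_of_sq_le
    have h14 : Nat.sqrt ⌊x⌋₊ * Nat.sqrt ⌊x⌋₊ ≤ ⌊x⌋₊ := Nat.sqrt_le _
    have h15 : ((⌊x⌋₊ : ℕ) : ℝ) ≤ x := Nat.floor_le hx0.le
    have h16 : ((Nat.sqrt ⌊x⌋₊ * Nat.sqrt ⌊x⌋₊ : ℕ) : ℝ) ≤ ((⌊x⌋₊ : ℕ) : ℝ) := by
      exact_mod_cast h14
    push_cast at h16
    nlinarith
  have h17 : (Nat.log 2 ⌊x⌋₊ : ℝ) ≤ 2 * Real.log x := by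
    have hf : ⌊x⌋₊ ≠ 0 := by
      have : 1 ≤ ⌊x⌋₊ := by
        rw [Nat.one_le_floor_iff]
        exact hx1
      omega
    have h18 : 2 ^ Nat.log 2 ⌊x⌋₊ ≤ ⌊x⌋₊ := Nat.pow_log_le_self 2 hf
    have h19 : ((2 ^ Nat.log 2 ⌊x⌋₊ : ℕ) : ℝ) ≤ x :=
      le_trans (by exact_mod_cast h18) (Nat.floor_le hx0.le)
    push_cast at h19
    have h20 : Real.log ((2 : ℝ) ^ Nat.log 2 ⌊x⌋₊) ≤ Real.log x :=
      Real.log_le_log (by positivity) h19
    rw [Real.log_pow] at h20
    have h21 : (1 / 2 : ℝ) ≤ Real.log 2 := by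
      have := Real.log_two_gt_d9
      linarith
    have h22 : (0 : ℝ) ≤ (Nat.log 2 ⌊x⌋₊ : ℝ) := Nat.cast_nonneg _
    nlinarith
  have h23 : ((Nat.sqrt ⌊x⌋₊ : ℝ) + 1) * ((Nat.log 2 ⌊x⌋₊ : ℝ) + 1) ≤
      (2 * Real.sqrt x) * (3 * Real.log x) := by
    apply mul_le_mul
    · linarith
    · linarith
    · positivity
    · positivity
  have h24 : (2 * Real.sqrt x) * (3 * Real.log x) ≤ δ / 2 * x := by
    calc (2 * Real.sqrt x) * (3 * Real.log x) = 6 * Real.sqrt x * Real.log x := by ring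
      _ ≤ 6 * Real.sqrt x * (δ / 12 * Real.sqrt x) := by gcongr
      _ = δ / 2 * (Real.sqrt x * Real.sqrt x) := by ring
      _ = δ / 2 * x := by rw [hs]
  linarith

end Pool.Agent.R530.Pnd
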