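import Mathlib

/-!
# Near-optimal sets of odd primes with deficient product
-/

set_option autoImplicit false

namespace Pool.Agent.R530.Pnd

open Finset

/-- product of `1 + 1 / p` -/
noncomputable def hh (F : Finset ℕ) : ℝ := ∏ p ∈ F, (1 + 1 / (p : ℝ))

/-- product of `1 - 1 / p ^ 2` -/
noncomputable def zz (F : Finset ℕ) : ℝ := ∏ p ∈ F, (1 - 1 / (p : ℝ) ^ 2)

/-- sets of odd primes -/
def OP (F : Finset ℕ) : Prop := ∀ p ∈ F, p.Prime ∧ 3 ≤ p

/-- the values of `1 / zz` on deficient sets -/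
def Zset : Set ℝ := {z | ∃ F : Finset ℕ, OP F ∧ hh F < 2 ∧ z = (zz F)⁻¹}

/-- the supremum of `1 / zz` over deficient sets -/
noncomputable def Zs : ℝ := sSup Zset

lemma prod_ge (F : Finset ℕ) (x : ℕ → ℝ) (h : ∀ i ∈ F, 0 ≤ x i ∧ x i ≤ 1) :
    1 - ∑ i ∈ F, x i ≤ ∏ i ∈ F, (1 - x i) ∧ 0 ≤ ∏ i ∈ F, (1 - x i) ∧ ∏ i ∈ F, (1 - x i) ≤ 1 := by
  classical
  induction F using Finset.induction_on with
  | empty => simp
  | insert a F ha ih =>
    obtain ⟨h1, h2, h3⟩ := ih (fun i hi => h i (mem_insert_of_mem hi))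
    obtain ⟨h4, h5⟩ := h a (mem_insert_self a F)
    rw [sum_insert ha, prod_insert ha]
    have h6 : 0 ≤ ∑ i ∈ F, x i := sum_nonneg (fun i hi => (h i (mem_insert_of_mem hi)).1)
    refine ⟨?_, ?_, ?_⟩
    · nlinarith [mul_le_mul_of_nonneg_left h3 h4]
    · exact mul_nonneg (by linarith) h2
    · nlinarith

lemma one_add_sum_le (F : Finset ℕ) (x : ℕ → ℝ) (h : ∀ i ∈ F, 0 ≤ x i) :
    1 + ∑ i ∈ F, x i ≤ ∏ i ∈ F, (1 + x i) := by
  classical
  induction F using Finset.induction_on with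
  | empty => simp
  | insert a F ha ih =>
    have h1 := ih (fun i hi => h i (mem_insert_of_mem hi))
    have h4 := h a (mem_insert_self a F)
    rw [sum_insert ha, prod_insert ha]
    have h6 : 0 ≤ ∑ i ∈ F, x i := sum_nonneg (fun i hi => h i (mem_insert_of_mem hi))
    nlinarith [mul_nonneg h4 h6]

lemma hh_union {F G : Finset ℕ} (h : Disjoint F G) : hh (F ∪ G) = hh F * hh G :=
  prod_union h

lemma zz_union {F G : Finset ℕ} (h : Disjoint F G) : zz (F ∪ G) = zz F * zz G :=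
  prod_union h

lemma hh_insert {a : ℕ} {F : Finset ℕ} (h : a ∉ F) : hh (insert a F) = (1 + 1 / (a : ℝ)) * hh F :=
  prod_insert h

lemma zz_insert {a : ℕ} {F : Finset ℕ} (h : a ∉ F) :
    zz (insert a F) = (1 - 1 / (a : ℝ) ^ 2) * zz F :=
  prod_insert h

lemma hh_pos (F : Finset ℕ) : 1 ≤ hh F := by
  have := one_add_sum_le F (fun p => 1 / (p : ℝ)) (fun i _ => by positivity)
  have h2 : 0 ≤ ∑ p ∈ F, 1 / (p : ℝ) := sum_nonneg (fun i _ => by positivity)
  unfold hh
  linarith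

lemma hh_mono {F G : Finset ℕ} (h : F ⊆ G) : hh F ≤ hh G := by
  classical
  have h1 : G = F ∪ (G \ F) := by
    rw [union_sdiff_of_subset h]
  rw [h1, hh_union disjoint_sdiff]
  have h2 := hh_pos F
  have h3 := hh_pos (G \ F)
  nlinarith

lemma sum_sq_le (N : ℕ) (hN : 2 ≤ N) : ∑ k ∈ Icc 3 N, 1 / (k : ℝ) ^ 2 ≤ 1 / 2 - 1 / (N : ℝ) := by
  induction N, hN using Nat.le_induction with
  | base => simp
  | succ n hn ih =>
    rw [sum_Icc_succ_top (by omega)]
    have hn0 : (2 : ℝ) ≤ n := by exact_mod_cast hn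
    have : 1 / ((n + 1 : ℕ) : ℝ) ^ 2 ≤ 1 / (n : ℝ) - 1 / ((n + 1 : ℕ) : ℝ) := by
      push_cast
      rw [div_sub_div _ _ (by positivity) (by positivity), div_le_div_iff₀ (by positivity)
        (by positivity)]
      nlinarith
    linarith

lemma zz_ge {F : Finset ℕ} (h : OP F) : 1 / 2 ≤ zz F := by
  have h1 : ∀ i ∈ F, (0 : ℝ) ≤ 1 / (i : ℝ) ^ 2 ∧ 1 / (i : ℝ) ^ 2 ≤ 1 := by
    intro i hi
    have h3 : (3 : ℝ) ≤ i := by exact_mod_cast (h i hi).2
    refine ⟨by positivity, ?_⟩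
    rw [div_le_one (by positivity)]
    nlinarith
  have h2 := (prod_ge F (fun p => 1 / (p : ℝ) ^ 2) h1).1
  have h3 : ∑ p ∈ F, 1 / (p : ℝ) ^ 2 ≤ 1 / 2 := by
    have h4 : F ⊆ Icc 3 (F.sup id + 2) := by
      intro p hp
      rw [mem_Icc]
      have : p ≤ F.sup id := le_sup (f := id) hp
      exact ⟨(h p hp).2, by omega⟩
    calc ∑ p ∈ F, 1 / (p : ℝ) ^ 2 ≤ ∑ p ∈ Icc 3 (F.sup id + 2), 1 / (p : ℝ) ^ 2 :=
          sum_le_sum_of_subset_of_nonneg h4 (fun i _ _ => by positivity)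
      _ ≤ 1 / 2 - 1 / ((F.sup id + 2 : ℕ) : ℝ) := sum_sq_le _ (by omega)
      _ ≤ 1 / 2 := by
          have : (0 : ℝ) ≤ 1 / ((F.sup id + 2 : ℕ) : ℝ) := by positivity
          linarith
  unfold zz
  linarith

lemma zz_le_one {F : Finset ℕ} (h : OP F) : zz F ≤ 1 := by
  have h1 : ∀ i ∈ F, (0 : ℝ) ≤ 1 / (i : ℝ) ^ 2 ∧ 1 / (i : ℝ) ^ 2 ≤ 1 := by
    intro i hi
    have h3 : (3 : ℝ) ≤ i := by exact_mod_cast (h i hi).2
    refine ⟨by positivity, ?_⟩
    rw [div_le_one (by positivity)]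
    nlinarith
  exact (prod_ge F (fun p => 1 / (p : ℝ) ^ 2) h1).2.2

lemma inv_zz_bounds {F : Finset ℕ} (h : OP F) : 1 ≤ (zz F)⁻¹ ∧ (zz F)⁻¹ ≤ 2 := by
  have h1 := zz_ge h
  have h2 := zz_le_one h
  constructor
  · exact (one_le_inv₀ (by linarith)).mpr h2
  · rw [inv_le_comm₀ (by linarith) (by norm_num)]
    linarith

lemma bdd : BddAbove Zset := by
  refine ⟨2, ?_⟩
  rintro z ⟨F, hF, _, rfl⟩
  exact (inv_zz_bounds hF).2

lemma mem_empty : (1 : ℝ) ∈ Zset := by
  refine ⟨∅, ?_, ?_, ?_⟩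
  · intro p hp
    simp at hp
  · simp [hh]
  · simp [zz]

lemma le_Zs {F : Finset ℕ} (h : OP F) (h2 : hh F < 2) : (zz F)⁻¹ ≤ Zs :=
  le_csSup bdd ⟨F, h, h2, rfl⟩

lemma one_le_Zs : 1 ≤ Zs := le_csSup bdd mem_empty

lemma Zs_le_two : Zs ≤ 2 := by
  apply csSup_le ⟨1, mem_empty⟩
  rintro z ⟨F, hF, _, rfl⟩
  exact (inv_zz_bounds hF).2

/-- splitting a set at a threshold -/
lemma split (F : Finset ℕ) (t : ℕ) : F = F.filter (· ≤ t) ∪ F.filter (fun p => t < p) ∧
    Disjoint (F.filter (· ≤ t)) (F.filter (fun p => t < p)) := by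
  constructor
  · ext p
    rw [mem_union, mem_filter, mem_filter]
    constructor
    · intro hp
      rcases Nat.lt_or_ge t p with h | h
      · right
        exact ⟨hp, h⟩
      · left
        exact ⟨hp, h⟩
    · rintro (h | h) <;> exact h.1
  · rw [Finset.disjoint_left]
    intro p hp hp2
    rw [mem_filter] at hp hp2
    omega

lemma hh_split (F : Finset ℕ) (t : ℕ) :
    hh F = hh (F.filter (· ≤ t)) * hh (F.filter (fun p => t < p)) := by
  conv_lhs => rw [(split F t).1]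
  exact hh_union (split F t).2

lemma zz_split (F : Finset ℕ) (t : ℕ) :
    zz F = zz (F.filter (· ≤ t)) * zz (F.filter (fun p => t < p)) := by
  conv_lhs => rw [(split F t).1]
  exact zz_union (split F t).2

/-- the tail beyond `u` has small `zz` loss -/
lemma zz_tail {D : Finset ℕ} (hD : OP D) (u η : ℝ) (hu : 0 < u) (h1 : ∀ p ∈ D, u ≤ p)
    (h2 : hh D < 1 + η) : 1 - η / u ≤ zz D := by
  have h3 := one_add_sum_le D (fun p => 1 / (p : ℝ)) (fun i _ => by positivity)
  have h4 : ∑ p ∈ D, 1 / (p : ℝ) ≤ η := by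
    unfold hh at h2
    linarith
  have h5 : ∑ p ∈ D, 1 / (p : ℝ) ^ 2 ≤ 1 / u * ∑ p ∈ D, 1 / (p : ℝ) := by
    rw [mul_sum]
    apply sum_le_sum
    intro p hp
    have h6 := h1 p hp
    have h7 : (0 : ℝ) < p := by linarith
    rw [one_div_mul_one_div]
    apply one_div_le_one_div_of_le (by positivity)
    nlinarith
  have h8 : ∀ i ∈ D, (0 : ℝ) ≤ 1 / (i : ℝ) ^ 2 ∧ 1 / (i : ℝ) ^ 2 ≤ 1 := by
    intro i hi
    have h3 : (3 : ℝ) ≤ i := by exact_mod_cast (hD i hi).2
    refine ⟨by positivity, ?_⟩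
    rw [div_le_one (by positivity)]
    nlinarith
  have h9 := (prod_ge D (fun p => 1 / (p : ℝ) ^ 2) h8).1
  have h10 : 1 / u * ∑ p ∈ D, 1 / (p : ℝ) ≤ 1 / u * η := by gcongr
  have h11 : 1 / u * η = η / u := by ring
  unfold zz
  linarith

/-- **Exchange.** -/
lemma exchange {F : Finset ℕ} (hF : OP F) (hF2 : hh F < 2) (ε : ℝ) (hε : Zs - ε ≤ (zz F)⁻¹)
    (s : ℕ) (hs : s.Prime) (hs3 : 3 ≤ s) (hsF : s ∉ F) (hsε : ε < 1 / (6 * (s : ℝ) ^ 2)) :
    2 ≤ hh (F.filter (· ≤ 2 * s)) * (1 + 1 / (s : ℝ)) := by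
  by_contra hcon
  push Not at hcon
  have hs0 : (3 : ℝ) ≤ s := by exact_mod_cast hs3
  have hz := inv_zz_bounds hF
  have hzp : 0 < zz F := by linarith [zz_ge hF]
  rcases lt_or_ge (hh F * (1 + 1 / (s : ℝ))) 2 with hA | hB
  · have h1 : OP (insert s F) := by
      intro p hp
      rw [mem_insert] at hp
      rcases hp with rfl | hp
      · exact ⟨hs, hs3⟩
      · exact hF p hp
    have h2 : hh (insert s F) < 2 := by
      rw [hh_insert hsF]
      linarith
    have h3 := le_Zs h1 h2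
    rw [zz_insert hsF, mul_inv] at h3
    have h4 : 1 + 1 / (s : ℝ) ^ 2 ≤ (1 - 1 / (s : ℝ) ^ 2)⁻¹ := by
      rw [le_inv_comm₀ (by positivity) ?_]
      · rw [inv_eq_one_div, le_div_iff₀ (by positivity)]
        have : 0 ≤ (1 / (s : ℝ) ^ 2) ^ 2 := by positivity
        nlinarith
      · have : 1 / (s : ℝ) ^ 2 < 1 := by
          rw [div_lt_one (by positivity)]
          nlinarith
        linarith
    have h5 : (1 + 1 / (s : ℝ) ^ 2) * (zz F)⁻¹ ≤ (1 - 1 / (s : ℝ) ^ 2)⁻¹ * (zz F)⁻¹ := by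
      apply mul_le_mul_of_nonneg_right h4
      linarith
    have h6 : 1 / (s : ℝ) ^ 2 * 1 ≤ 1 / (s : ℝ) ^ 2 * (zz F)⁻¹ := by
      apply mul_le_mul_of_nonneg_left hz.1
      positivity
    have h7 : 1 / (6 * (s : ℝ) ^ 2) ≤ 1 / (s : ℝ) ^ 2 := by
      apply one_div_le_one_div_of_le (by positivity)
      nlinarith
    nlinarith
  · -- find the threshold
    have hex : ∃ t, 2 * s ≤ t ∧ hh (F.filter (· ≤ t)) * (1 + 1 / (s : ℝ)) < 2 ∧
        2 ≤ hh (F.filter (· ≤ t + 1)) * (1 + 1 / (s : ℝ)) := by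
      by_contra hno
      push Not at hno
      have hall : ∀ k, hh (F.filter (· ≤ 2 * s + k)) * (1 + 1 / (s : ℝ)) < 2 := by
        intro k
        induction k with
        | zero => exact hcon
        | succ k ih => exact hno (2 * s + k) (by omega) ih
      have h1 := hall (F.sup id)
      have h2 : F.filter (· ≤ 2 * s + F.sup id) = F := by
        rw [filter_eq_self]
        intro p hp
        have : p ≤ F.sup id := le_sup (f := id) hp
        omega
      rw [h2] at h1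
      linarith
    obtain ⟨t, ht, h1, h2⟩ := hex
    have htF : t + 1 ∈ F := by
      by_contra hnot
      have : F.filter (· ≤ t + 1) = F.filter (· ≤ t) := by
        ext p
        rw [mem_filter, mem_filter]
        constructor
        · rintro ⟨h3, h4⟩
          refine ⟨h3, ?_⟩
          rcases Nat.lt_or_ge t p with h | h
          · have : p = t + 1 := by omega
            rw [this] at h3
            exact absurd h3 hnot
          · exact h
        · rintro ⟨h3, h4⟩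
          exact ⟨h3, by omega⟩
      rw [this] at h2
      linarith
    have hfil : F.filter (· ≤ t + 1) = insert (t + 1) (F.filter (· ≤ t)) := by
      ext p
      rw [mem_insert, mem_filter, mem_filter]
      constructor
      · rintro ⟨h3, h4⟩
        rcases Nat.lt_or_ge t p with h | h
        · left
          omega
        · right
          exact ⟨h3, h⟩
      · rintro (h3 | h3)
        · rw [h3]
          exact ⟨htF, le_refl _⟩
        · exact ⟨h3.1, by omega⟩
    have hnm : t + 1 ∉ F.filter (· ≤ t) := by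
      rw [mem_filter]
      omega
    rw [hfil, hh_insert hnm] at h2
    set A := F.filter (· ≤ t) with hA
    set D := F.filter (fun p => t < p) with hD
    have hAD : hh F = hh A * hh D := hh_split F t
    have hADz : zz F = zz A * zz D := zz_split F t
    have hAp : 1 ≤ hh A := hh_pos A
    have hOD : OP D := fun p hp => hF p (mem_filter.mp hp).1
    have hOA : OP A := fun p hp => hF p (mem_filter.mp hp).1
    set u : ℝ := ((t + 1 : ℕ) : ℝ) with hu
    have hut : 2 * (s : ℝ) ≤ u := by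
      rw [hu]
      have : (2 * s : ℕ) ≤ t + 1 := by omega
      exact_mod_cast this
    have hu0 : 0 < u := by linarith
    have hDlt : hh D < (1 + 1 / (s : ℝ)) * (1 + 1 / u) := by
      have h3 : hh A * hh D < hh A * ((1 + 1 / (s : ℝ)) * (1 + 1 / u)) := by
        rw [← hAD]
        calc hh F < 2 := hF2
          _ ≤ (1 + 1 / u) * hh A * (1 + 1 / (s : ℝ)) := h2
          _ = hh A * ((1 + 1 / (s : ℝ)) * (1 + 1 / u)) := by ring
      exact lt_of_mul_lt_mul_left h3 (by linarith)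
    have hDlt2 : hh D < 1 + (1 / (s : ℝ) + 1 / (2 * s) + 1 / (s * (2 * s))) := by
      refine hDlt.trans_le ?_
      have h3 : 1 / u ≤ 1 / (2 * (s : ℝ)) := one_div_le_one_div_of_le (by positivity) hut
      calc (1 + 1 / (s : ℝ)) * (1 + 1 / u) ≤ (1 + 1 / (s : ℝ)) * (1 + 1 / (2 * (s : ℝ))) := by
            gcongr
        _ = 1 + (1 / (s : ℝ) + 1 / (2 * s) + 1 / (s * (2 * s))) := by
            field_simp
            ring
    have hDu : ∀ p ∈ D, 2 * (s : ℝ) ≤ p := by
      intro p hp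
      have : t < p := (mem_filter.mp hp).2
      have : (2 * s : ℕ) ≤ p := by omega
      exact_mod_cast this
    have hzD := zz_tail hOD (2 * (s : ℝ)) _ (by positivity) hDu hDlt2
    have hzD2 : 1 - 5 / (6 * (s : ℝ) ^ 2) ≤ zz D := by
      refine le_trans ?_ hzD
      have h3 : (1 / (s : ℝ) + 1 / (2 * s) + 1 / (s * (2 * s))) / (2 * s) =
          3 / (4 * (s : ℝ) ^ 2) + 1 / (4 * (s : ℝ) ^ 2 * s) := by
        field_simp
        ring
      have h4 : 1 / (4 * (s : ℝ) ^ 2 * s) ≤ 1 / (4 * (s : ℝ) ^ 2 * 3) := by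
        apply one_div_le_one_div_of_le (by positivity)
        gcongr
      have h5 : 3 / (4 * (s : ℝ) ^ 2) + 1 / (4 * (s : ℝ) ^ 2 * 3) = 5 / (6 * (s : ℝ) ^ 2) := by
        field_simp
        norm_num
      rw [h3]
      linarith
    -- the new set
    have hsA : s ∉ A := fun h => hsF (mem_filter.mp h).1
    have h3 : OP (insert s A) := by
      intro p hp
      rw [mem_insert] at hp
      rcases hp with rfl | hp
      · exact ⟨hs, hs3⟩
      · exact hOA p hp
    have h4 : hh (insert s A) < 2 := by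
      rw [hh_insert hsA]
      linarith
    have h5 := le_Zs h3 h4
    rw [zz_insert hsA] at h5
    have hzAp : 0 < zz A := by linarith [zz_ge hOA]
    have hzDp : 0 < zz D := by linarith [zz_ge hOD]
    have hx0 : 0 < 1 / (s : ℝ) ^ 2 := by positivity
    have hx1 : 1 / (s : ℝ) ^ 2 ≤ 1 / 9 := by
      apply one_div_le_one_div_of_le (by norm_num)
      nlinarith
    set x : ℝ := 1 / (s : ℝ) ^ 2 with hx
    have h56 : 5 / (6 * (s : ℝ) ^ 2) = 5 / 6 * x := by
      rw [hx]
      field_simp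
    have h16 : 1 / (6 * (s : ℝ) ^ 2) = 1 / 6 * x := by
      rw [hx]
      field_simp
    rw [h56] at hzD2
    rw [h16] at hsε
    -- `(zz F)⁻¹ (1 + x / 6) ≤ ((1 - x) zz A)⁻¹`
    have h6 : (zz F)⁻¹ * (1 + 1 / 6 * x) ≤ ((1 - x) * zz A)⁻¹ := by
      rw [hADz, inv_mul_le_iff₀ (by positivity), ← div_eq_mul_inv,
        le_div_iff₀ (mul_pos (by linarith) hzAp)]
      have h7 : (1 + 1 / 6 * x) * (1 - x) ≤ zz D := by
        refine le_trans ?_ hzD2
        nlinarith
      calc (1 + 1 / 6 * x) * ((1 - x) * zz A) = ((1 + 1 / 6 * x) * (1 - x)) * zz A := by ring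
        _ ≤ zz D * zz A := by gcongr
        _ = zz A * zz D := by ring
    nlinarith [hz.1]

end Pool.Agent.R530.Pnd
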