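import Pool.Agent.R530.PndDefs
import Pool.Agent.R530.PndConstruct

/-!
# Arithmetic of `h` and `H`, and the upper bound for `H` on primitive non-deficient numbers
-/

set_option autoImplicit false
set_option maxHeartbeats 4000000

namespace Pool.Agent.R530.Pnd

open Finset

lemma h_nonneg (n : ℕ) : 0 ≤ h n := by
  unfold h
  positivity

lemma H_nonneg (n : ℕ) : 0 ≤ H n := by
  unfold H
  positivity

lemma h_one : h 1 = 1 := by simp [h]

lemma H_one : H 1 = 1 := by simp [H]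

lemma h_mul {a b : ℕ} (hab : a.Coprime b) : h (a * b) = h a * h b := by
  unfold h
  rw [Nat.Coprime.sum_divisors_mul hab]
  push_cast
  rw [mul_div_mul_comm]

lemma H_mul {a b : ℕ} (hab : a.Coprime b) : H (a * b) = H a * H b := by
  unfold H
  rw [Nat.totient_mul hab]
  push_cast
  rw [mul_div_mul_comm]

lemma h_prime_pow {p : ℕ} (hp : p.Prime) (a : ℕ) :
    h (p ^ a) * (1 - 1 / (p : ℝ)) = 1 - 1 / (p : ℝ) ^ (a + 1) := by
  unfold h
  have hp1 : (1 : ℝ) < p := by exact_mod_cast hp.one_lt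
  rw [Nat.sum_divisors_prime_pow hp]
  push_cast
  have h2 := geom_sum_eq (show (p : ℝ) ≠ 1 by linarith) (a + 1)
  rw [h2]
  have h3 : (p : ℝ) - 1 ≠ 0 := by linarith
  have h4 : (p : ℝ) ≠ 0 := by linarith
  have h5 : (p : ℝ) ^ a ≠ 0 := pow_ne_zero _ h4
  rw [pow_succ]
  field_simp

lemma H_prime_pow {p : ℕ} (hp : p.Prime) (a : ℕ) (ha : 0 < a) :
    H (p ^ a) * (1 - 1 / (p : ℝ)) = 1 := by
  unfold H
  have hp1 : (1 : ℝ) < p := by exact_mod_cast hp.one_lt
  rw [Nat.totient_prime_pow hp ha]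
  push_cast [Nat.cast_sub hp.one_lt.le]
  have h3 : (p : ℝ) - 1 ≠ 0 := by linarith
  have h4 : (p : ℝ) ≠ 0 := by linarith
  have h5 : (p : ℝ) ^ (a - 1) ≠ 0 := pow_ne_zero _ h4
  have h6 : (p : ℝ) ^ a = (p : ℝ) ^ (a - 1) * p := by
    rw [← pow_succ]
    congr 1
    omega
  rw [h6]
  field_simp

lemma one_sub_inv_pos {p : ℕ} (hp : p.Prime) : 0 < 1 - 1 / (p : ℝ) := by
  have hp1 : (1 : ℝ) < p := by exact_mod_cast hp.one_lt
  have : 1 / (p : ℝ) < 1 := by
    rw [div_lt_one (by linarith)]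
    exact hp1
  linarith

/-- `H ≤ h · Z` and `hh (rad) ≤ h` -/
lemma H_le (n : ℕ) (hn : 0 < n) (hodd : Odd n) : H n ≤ h n * (zz n.primeFactors)⁻¹ ∧
    hh n.primeFactors ≤ h n ∧ OP n.primeFactors := by
  have hOP : ∀ m : ℕ, 0 < m → Odd m → OP m.primeFactors := by
    intro m hm hmo p hp
    have h1 := Nat.prime_of_mem_primeFactors hp
    refine ⟨h1, ?_⟩
    have h2 := Nat.dvd_of_mem_primeFactors hp
    have h3 : Odd p := hmo.of_dvd_nat h2
    have h4 := h1.two_le
    rcases h3 with ⟨k, hk⟩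
    omega
  revert hn hodd
  induction n using Nat.recOnPosPrimePosCoprime with
  | prime_pow p a hp ha =>
    intro hn hodd
    refine ⟨?_, ?_, hOP _ hn hodd⟩
    · rw [Nat.primeFactors_prime_pow (by omega) hp]
      have h0 := one_sub_inv_pos hp
      have hp1 : (1 : ℝ) < p := by exact_mod_cast hp.one_lt
      have h1 := h_prime_pow hp a
      have h2 := H_prime_pow hp a ha
      have hz : zz {p} = 1 - 1 / (p : ℝ) ^ 2 := by simp [zz]
      rw [hz]
      have hz0 : 0 < 1 - 1 / (p : ℝ) ^ 2 := by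
        have : 1 / (p : ℝ) ^ 2 < 1 := by
          rw [div_lt_one (by positivity)]
          nlinarith
        linarith
      rw [← div_eq_mul_inv, le_div_iff₀ hz0]
      have h3 : 1 / (p : ℝ) ^ (a + 1) ≤ 1 / (p : ℝ) ^ 2 := by
        apply one_div_le_one_div_of_le (by positivity)
        apply pow_le_pow_right₀ hp1.le
        omega
      have h4 : H (p ^ a) * (1 - 1 / (p : ℝ) ^ 2) * (1 - 1 / (p : ℝ)) ≤
          h (p ^ a) * (1 - 1 / (p : ℝ)) := by
        rw [h1]
        calc H (p ^ a) * (1 - 1 / (p : ℝ) ^ 2) * (1 - 1 / (p : ℝ))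
            = (H (p ^ a) * (1 - 1 / (p : ℝ))) * (1 - 1 / (p : ℝ) ^ 2) := by ring
          _ = 1 - 1 / (p : ℝ) ^ 2 := by rw [h2, one_mul]
          _ ≤ _ := by linarith
      exact le_of_mul_le_mul_right h4 h0
    · rw [Nat.primeFactors_prime_pow (by omega) hp]
      have h0 := one_sub_inv_pos hp
      have hp1 : (1 : ℝ) < p := by exact_mod_cast hp.one_lt
      have h1 := h_prime_pow hp a
      have hz : hh {p} = 1 + 1 / (p : ℝ) := by simp [hh]
      rw [hz]
      have h3 : 1 / (p : ℝ) ^ (a + 1) ≤ 1 / (p : ℝ) ^ 2 := by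
        apply one_div_le_one_div_of_le (by positivity)
        apply pow_le_pow_right₀ hp1.le
        omega
      have h4 : (1 + 1 / (p : ℝ)) * (1 - 1 / (p : ℝ)) ≤ h (p ^ a) * (1 - 1 / (p : ℝ)) := by
        rw [h1]
        have e : (1 + 1 / (p : ℝ)) * (1 - 1 / (p : ℝ)) = 1 - 1 / (p : ℝ) ^ 2 := by
          field_simp
          ring
        rw [e]
        linarith
      exact le_of_mul_le_mul_right h4 h0
  | zero => 
    intro hn
    omega
  | one => 
    intro hn hodd
    refine ⟨?_, ?_, hOP _ hn hodd⟩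
    · rw [H_one, h_one]
      simp [zz]
    · rw [h_one]
      simp [hh]
  | coprime a b ha hb hab iha ihb =>
    intro hn hodd
    have hoa : Odd a := hodd.of_dvd_nat (dvd_mul_right a b)
    have hob : Odd b := hodd.of_dvd_nat (dvd_mul_left b a)
    obtain ⟨a1, a2, a3⟩ := iha (by omega) hoa
    obtain ⟨b1, b2, b3⟩ := ihb (by omega) hob
    refine ⟨?_, ?_, hOP _ hn hodd⟩
    · rw [H_mul hab, h_mul hab, hab.primeFactors_mul, zz_union hab.disjoint_primeFactors, mul_inv]
      have ka := inv_zz_bounds a3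
      have kb := inv_zz_bounds b3
      calc H a * H b ≤ (h a * (zz a.primeFactors)⁻¹) * (h b * (zz b.primeFactors)⁻¹) := by
            apply mul_le_mul a1 b1 (H_nonneg b)
            exact mul_nonneg (h_nonneg a) (by linarith)
        _ = _ := by ring
    · rw [h_mul hab, hab.primeFactors_mul, hh_union hab.disjoint_primeFactors]
      apply mul_le_mul a2 b2
      · linarith [hh_pos b.primeFactors]
      · exact h_nonneg a

lemma nonDef_iff (n : ℕ) (hn : 0 < n) : NonDeficient n ↔ 2 ≤ h n := by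
  unfold NonDeficient h
  have hn0 : (0 : ℝ) < n := by exact_mod_cast hn
  rw [le_div_iff₀ hn0]
  constructor
  · rintro ⟨_, h2⟩
    have : ((2 * n : ℕ) : ℝ) ≤ ((∑ d ∈ n.divisors, d : ℕ) : ℝ) := by exact_mod_cast h2
    push_cast at this ⊢
    exact this
  · intro h2
    refine ⟨hn, ?_⟩
    have : ((2 * n : ℕ) : ℝ) ≤ ((∑ d ∈ n.divisors, d : ℕ) : ℝ) := by
      push_cast at h2 ⊢
      exact h2
    exact_mod_cast this

/-- **Upper bound for `H`** in terms of a prime power component. -/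
lemma H_upper (n : ℕ) (hodd : Odd n) (hn : PrimitiveNonDeficient n) (q : ℕ)
    (hq : q ∈ n.primeFactors) :
    H n * (1 - 1 / ((q ^ n.factorization q : ℕ) : ℝ)) ≤ 2 * Zs := by
  have hn0 : 0 < n := hn.1.1
  have hqp := Nat.prime_of_mem_primeFactors hq
  have hqd := Nat.dvd_of_mem_primeFactors hq
  set a := n.factorization q with ha
  have ha1 : 1 ≤ a := (hqp.dvd_iff_one_le_factorization hn0.ne').mp hqd
  set r := n / q ^ a with hr
  have hnr : n = q ^ a * r := (Nat.ordProj_mul_ordCompl_eq_self n q).symm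
  have hcop : (q ^ a).Coprime r := (Nat.coprime_ordCompl hqp hn0.ne').pow_left a
  have hcop' : (q ^ (a - 1)).Coprime r := (Nat.coprime_ordCompl hqp hn0.ne').pow_left (a - 1)
  have hr0 : 0 < r := Nat.pos_of_ne_zero (by
    rintro h0
    rw [h0, mul_zero] at hnr
    omega)
  have hrn : r < n := by
    rw [hnr]
    have : 1 < q ^ a := Nat.one_lt_pow (by omega) hqp.one_lt
    nlinarith
  have hrodd : Odd r := hodd.of_dvd_nat ⟨q ^ a, by rw [mul_comm]; exact hnr⟩
  have hr2 : h r < 2 := by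
    by_contra hcon
    push Not at hcon
    exact hn.2 r ⟨q ^ a, by rw [mul_comm]; exact hnr⟩ hrn ((nonDef_iff r hr0).mpr hcon)
  have hpow : q ^ a = q * q ^ (a - 1) := by
    rw [← pow_succ']
    congr 1
    omega
  have hm0 : 0 < q ^ (a - 1) * r := Nat.mul_pos (pow_pos hqp.pos _) hr0
  have hm2 : h (q ^ (a - 1) * r) < 2 := by
    by_contra hcon
    push Not at hcon
    refine hn.2 (q ^ (a - 1) * r) ⟨q, ?_⟩ ?_ ((nonDef_iff _ hm0).mpr hcon)
    · conv_lhs => rw [hnr, hpow]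
      ring
    · conv_rhs => rw [hnr, hpow]
      have := hqp.one_lt
      rw [mul_assoc]
      nlinarith
  obtain ⟨h1, h2, h3⟩ := H_le r hr0 hrodd
  have hZ : (zz r.primeFactors)⁻¹ ≤ Zs := le_Zs h3 (h2.trans_lt hr2)
  have h0 := one_sub_inv_pos hqp
  have hH := H_prime_pow hqp a (by omega)
  have hh1 := h_prime_pow hqp (a - 1)
  rw [show a - 1 + 1 = a by omega] at hh1
  have hHn : H n = H (q ^ a) * H r := by
    conv_lhs => rw [hnr]
    exact H_mul hcop
  rw [h_mul hcop'] at hm2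
  push_cast
  have hZ0 : 0 ≤ Zs := by linarith [one_le_Zs]
  have ht0 : 0 ≤ 1 - 1 / (q : ℝ) ^ a := by
    have hq1 : (1 : ℝ) ≤ (q : ℝ) ^ a := one_le_pow₀ (by exact_mod_cast hqp.one_lt.le)
    have : 1 / (q : ℝ) ^ a ≤ 1 := by
      rw [div_le_one (by linarith)]
      exact hq1
    linarith
  have key : H n * (1 - 1 / (q : ℝ) ^ a) * (1 - 1 / (q : ℝ)) ≤ 2 * Zs * (1 - 1 / (q : ℝ)) := by
    calc H n * (1 - 1 / (q : ℝ) ^ a) * (1 - 1 / (q : ℝ))
        = (H (q ^ a) * (1 - 1 / (q : ℝ))) * (H r * (1 - 1 / (q : ℝ) ^ a)) := by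
          rw [hHn]
          ring
      _ = H r * (1 - 1 / (q : ℝ) ^ a) := by rw [hH, one_mul]
      _ ≤ (h r * Zs) * (1 - 1 / (q : ℝ) ^ a) := by
          apply mul_le_mul_of_nonneg_right _ ht0
          refine h1.trans ?_
          apply mul_le_mul_of_nonneg_left hZ (h_nonneg r)
      _ = (h (q ^ (a - 1)) * h r) * Zs * (1 - 1 / (q : ℝ)) := by
          rw [← hh1]
          ring
      _ ≤ 2 * Zs * (1 - 1 / (q : ℝ)) := by
          apply mul_le_mul_of_nonneg_right _ h0.le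
          apply mul_le_mul_of_nonneg_right hm2.le hZ0
  exact le_of_mul_le_mul_right key h0

/-- all prime power components are small when `H` is large -/
lemma comp_le (n : ℕ) (hodd : Odd n) (hn : PrimitiveNonDeficient n) (θ : ℝ) (hθ : 0 < θ)
    (hH : 2 * Zs + θ ≤ H n) (q : ℕ) (hq : q ∈ n.primeFactors) :
    ((q ^ n.factorization q : ℕ) : ℝ) ≤ 2 * Zs / θ + 1 := by
  have h1 := H_upper n hodd hn q hq
  set t : ℝ := ((q ^ n.factorization q : ℕ) : ℝ) with ht
  have hqp := Nat.prime_of_mem_primeFactors hq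
  have ht0 : 1 ≤ t := by
    rw [ht]
    exact_mod_cast Nat.one_le_pow _ _ hqp.pos
  have ht1 : 0 ≤ 1 - 1 / t := by
    have : 1 / t ≤ 1 := by
      rw [div_le_one (by linarith)]
      exact ht0
    linarith
  have h2 : (2 * Zs + θ) * (1 - 1 / t) ≤ 2 * Zs :=
    (mul_le_mul_of_nonneg_right hH ht1).trans h1
  have h3 : θ * t ≤ 2 * Zs + θ := by
    have h4 : (2 * Zs + θ) * (1 - 1 / t) * t ≤ 2 * Zs * t := by gcongr
    have h5 : (2 * Zs + θ) * (1 - 1 / t) * t = (2 * Zs + θ) * (t - 1) := by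
      field_simp
    rw [h5] at h4
    linarith
  have h6 : 2 * Zs / θ + 1 = (2 * Zs + θ) / θ := by
    field_simp
  rw [h6, le_div_iff₀ hθ]
  linarith

/-! ### squarefree products -/

lemma prod_facts (G : Finset ℕ) (hG : OP G) : h (∏ p ∈ G, p) = hh G ∧
    H (∏ p ∈ G, p) = hh G * (zz G)⁻¹ ∧ Odd (∏ p ∈ G, p) ∧ 0 < ∏ p ∈ G, p := by
  classical
  induction G using Finset.induction_on with
  | empty =>
    refine ⟨?_, ?_, ?_, ?_⟩
    · simp [h_one, hh]
    · simp [H_one, hh, zz]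
    · simp
    · simp
  | insert p G hp ih =>
    obtain ⟨h1, h2, h3, h4⟩ := ih (fun x hx => hG x (mem_insert_of_mem hx))
    obtain ⟨hpp, hp3⟩ := hG p (mem_insert_self p G)
    have hcop : p.Coprime (∏ x ∈ G, x) := by
      apply Nat.Coprime.prod_right
      intro x hx
      rw [Nat.coprime_primes hpp (hG x (mem_insert_of_mem hx)).1]
      rintro rfl
      exact hp hx
    have hp1 : (1 : ℝ) < p := by exact_mod_cast hpp.one_lt
    have k1 := h_prime_pow hpp 1
    have k2 := H_prime_pow hpp 1 one_pos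
    rw [pow_one] at k1 k2
    have k0 := one_sub_inv_pos hpp
    have hz0 : 0 < 1 - 1 / (p : ℝ) ^ 2 := by
      have : 1 / (p : ℝ) ^ 2 < 1 := by
        rw [div_lt_one (by positivity)]
        nlinarith
      linarith
    have e : (1 + 1 / (p : ℝ)) * (1 - 1 / (p : ℝ)) = 1 - 1 / (p : ℝ) ^ 2 := by
      field_simp
      ring
    have kh : h p = 1 + 1 / (p : ℝ) := by
      apply mul_right_cancel₀ k0.ne'
      rw [k1, e]
    have kH : H p = (1 + 1 / (p : ℝ)) * (1 - 1 / (p : ℝ) ^ 2)⁻¹ := by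
      apply mul_right_cancel₀ k0.ne'
      rw [k2]
      rw [mul_right_comm, e, mul_inv_cancel₀ hz0.ne']
    rw [prod_insert hp, h_mul hcop, H_mul hcop, h1, h2, hh_insert hp, zz_insert hp, kh, kH]
    refine ⟨rfl, ?_, ?_, ?_⟩
    · rw [mul_inv]
      ring
    · apply Odd.mul _ h3
      rcases hpp.eq_two_or_odd' with h5 | h5
      · omega
      · exact h5
    · exact Nat.mul_pos hpp.pos h4

lemma prod_pnd (G : Finset ℕ) (hG : OP G) (h1 : 2 ≤ hh G) (h2 : ∀ r ∈ G, hh (G.erase r) < 2) :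
    PrimitiveNonDeficient (∏ p ∈ G, p) := by
  classical
  obtain ⟨k1, k2, k3, k4⟩ := prod_facts G hG
  refine ⟨(nonDef_iff _ k4).mpr (by rw [k1]; exact h1), ?_⟩
  intro d hd hlt hnd
  have hd0 : 0 < d := hnd.1
  rw [nonDef_iff d hd0] at hnd
  -- a prime of `G` not dividing `d`
  have hex : ∃ r ∈ G, d ∣ ∏ p ∈ G.erase r, p := by
    obtain ⟨e, he⟩ := hd
    have he1 : e ≠ 1 := by
      rintro rfl
      rw [mul_one] at he
      omega
    obtain ⟨r, hr, hre⟩ := Nat.exists_prime_and_dvd he1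
    have hrG : r ∈ G := by
      have h3 : r ∣ ∏ p ∈ G, p := he ▸ (Dvd.dvd.mul_left hre d)
      obtain ⟨p, hp, hrp⟩ := (Prime.dvd_finsetProd_iff hr.prime _).mp h3
      have := (Nat.prime_dvd_prime_iff_eq hr (hG p hp).1).mp hrp
      rw [this]
      exact hp
    refine ⟨r, hrG, ?_⟩
    obtain ⟨f, hf⟩ := hre
    refine ⟨f, ?_⟩
    have h4 : ∏ p ∈ G, p = r * ∏ p ∈ G.erase r, p := (mul_prod_erase G (fun p => p) hrG).symm
    have h5 : r * ∏ p ∈ G.erase r, p = r * (d * f) := by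
      rw [← h4, he, hf]
      ring
    exact Nat.eq_of_mul_eq_mul_left hr.pos h5
  obtain ⟨r, hr, hdr⟩ := hex
  have hOr : OP (G.erase r) := fun p hp => hG p (mem_of_mem_erase hp)
  obtain ⟨m1, m2, m3, m4⟩ := prod_facts (G.erase r) hOr
  -- `h` is monotone under divisibility
  have hmono : h d ≤ h (∏ p ∈ G.erase r, p) := by
    unfold h
    have hd0' : (0 : ℝ) < d := by exact_mod_cast hd0
    have hm0' : (0 : ℝ) < ((∏ p ∈ G.erase r, p : ℕ) : ℝ) := by exact_mod_cast m4
    rw [div_le_div_iff₀ hd0' hm0']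
    obtain ⟨f, hf⟩ := hdr
    have hf0 : 0 < f := Nat.pos_of_ne_zero (by
      rintro rfl
      rw [mul_zero] at hf
      omega)
    have h3 : (∑ x ∈ d.divisors, x) * f ≤ ∑ x ∈ (d * f).divisors, x := by
      rw [sum_mul]
      have h4 : ∑ x ∈ d.divisors, x * f = ∑ x ∈ d.divisors.image (fun x => x * f), x := by
        rw [sum_image]
        intro x _ y _ hxy
        exact Nat.eq_of_mul_eq_mul_right hf0 hxy
      rw [h4]
      apply sum_le_sum_of_subset
      intro x hx
      rw [mem_image] at hx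
      obtain ⟨y, hy, rfl⟩ := hx
      rw [Nat.mem_divisors] at hy ⊢
      exact ⟨Nat.mul_dvd_mul_right hy.1 f, by positivity⟩
    rw [hf]
    have h5 : (∑ x ∈ d.divisors, x) * (d * f) ≤ (∑ x ∈ (d * f).divisors, x) * d := by
      calc (∑ x ∈ d.divisors, x) * (d * f) = ((∑ x ∈ d.divisors, x) * f) * d := by ring
        _ ≤ _ := Nat.mul_le_mul_right _ h3
    exact_mod_cast h5
  rw [m1] at hmono
  linarith [h2 r hr]

end Pool.Agent.R530.Pnd
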