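import Mathlib
set_option autoImplicit false
namespace Pool.Agent.R530

theorem two_inv {D : Type*} [Finite D] (A B : Equiv.Perm D) (hA : ∀ x, A (A x) = x)
    (hB : ∀ x, B (B x) = x) (l : D) (hl : B l = l)
    (hfix : ∀ y, (B * A).SameCycle l y → A y ≠ y) :
    (∃ l', l' ≠ l ∧ B l' = l' ∧ (B * A).SameCycle l l' ∧
      ∀ y, (B * A).SameCycle l y → B y = y → y = l ∨ y = l') ∧
    ∀ y, (B * A).SameCycle l y → (B * A).SameCycle l (A y) ∧ (B * A).SameCycle l (B y) := by
  classical
  set g := B * A with hg
  have hA' : A⁻¹ = A := by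
    rw [inv_eq_iff_mul_eq_one]; ext x; simp [hA]
  have hB' : B⁻¹ = B := by
    rw [inv_eq_iff_mul_eq_one]; ext x; simp [hB]
  have hgi : g⁻¹ = A * B := by rw [hg, mul_inv_rev, hA', hB']
  have hAA : A * A = 1 := by ext x; simp [hA]
  have hBB : B * B = 1 := by ext x; simp [hB]
  have cA : A * g * A⁻¹ = g⁻¹ := by
    rw [hgi, hA', hg, mul_assoc, mul_assoc, hAA, mul_one]
  have cB : B * g * B⁻¹ = g⁻¹ := by
    rw [hgi, hB', hg, ← mul_assoc, hBB, one_mul]
  have cAn : ∀ n : ℤ, A * g ^ n * A⁻¹ = g ^ (-n) := by
    intro n; rw [← conj_zpow, cA, inv_zpow, zpow_neg]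
  have cBn : ∀ n : ℤ, B * g ^ n * B⁻¹ = g ^ (-n) := by
    intro n; rw [← conj_zpow, cB, inv_zpow, zpow_neg]
  have hAl : A l = (g ^ (-1 : ℤ)) l := by
    rw [zpow_neg_one, hgi]; simp [hl]
  have eA : ∀ n : ℤ, A ((g ^ n) l) = (g ^ (-n - 1)) l := by
    intro n
    have h1 : A * g ^ n = g ^ (-n) * A := by
      rw [← cAn n, inv_mul_cancel_right]
    have h2 : A ((g ^ n) l) = (g ^ (-n)) (A l) := by
      rw [← Equiv.Perm.mul_apply, h1, Equiv.Perm.mul_apply]
    rw [h2, hAl, ← Equiv.Perm.mul_apply, ← zpow_add]; rfl
  have eB : ∀ n : ℤ, B ((g ^ n) l) = (g ^ (-n)) l := by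
    intro n
    have h1 : B * g ^ n = g ^ (-n) * B := by
      rw [← cBn n, inv_mul_cancel_right]
    rw [← Equiv.Perm.mul_apply, h1, Equiv.Perm.mul_apply, hl]
  have per : ∀ n : ℤ, (g ^ n) l = l ↔ ((MulAction.period g l : ℕ) : ℤ) ∣ n := by
    intro n
    have := MulAction.zpow_smul_eq_iff_period_dvd (g := g) (a := l) (j := n)
    simpa [Equiv.Perm.smul_def] using this
  have hpos : 0 < MulAction.period g l :=
    MulAction.period_pos_of_orderOf_pos (orderOf_pos g) l
  set N := MulAction.period g l with hN
  have eqn : ∀ m n : ℤ, (g ^ m) l = (g ^ n) l ↔ (N : ℤ) ∣ m - n := by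
    intro m n
    rw [← per (m - n)]
    constructor
    · intro h
      rw [sub_eq_neg_add, zpow_add, Equiv.Perm.mul_apply, h, ← Equiv.Perm.mul_apply, ← zpow_add]
      simp
    · intro h
      have : (g ^ m) l = (g ^ n) ((g ^ (m - n)) l) := by
        rw [← Equiv.Perm.mul_apply, ← zpow_add]; congr 2; ring
      rw [this, h]
  have heven : Even N := by
    by_contra hodd
    rw [Nat.not_even_iff_odd] at hodd
    obtain ⟨r, hr⟩ := hodd
    apply hfix ((g ^ (r : ℤ)) l) ⟨r, rfl⟩
    rw [eA, eqn]
    refine ⟨-1, ?_⟩
    rw [hr]; push_cast; ring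
  obtain ⟨h, hh⟩ := heven
  have hh0 : 0 < h := by omega
  refine ⟨⟨(g ^ (h : ℤ)) l, ?_, ?_, ⟨h, rfl⟩, ?_⟩, ?_⟩
  · intro hc
    rw [per] at hc
    obtain ⟨q, hq⟩ := hc
    rw [hh] at hq
    push_cast at hq
    have hq1 : q < 1 := by nlinarith
    have hq0 : 0 < q := by
      by_contra hq0
      push Not at hq0
      nlinarith
    omega
  · rw [eB, eqn]
    refine ⟨-1, ?_⟩
    rw [hh]; push_cast; ring
  · rintro y ⟨n, rfl⟩ hy
    rw [eB, eqn] at hy
    obtain ⟨q, hq⟩ := hy
    rw [hh] at hq
    push_cast at hq
    have hn : n = (-q) * h := by linarith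
    rcases Int.even_or_odd (-q) with ⟨r, hr⟩ | ⟨r, hr⟩
    · left
      rw [per, hh]
      refine ⟨r, ?_⟩
      rw [hn, hr]; push_cast; ring
    · right
      rw [eqn, hh]
      refine ⟨r, ?_⟩
      rw [hn, hr]; push_cast; ring
  · rintro y ⟨n, rfl⟩
    exact ⟨⟨-n - 1, (eA n).symm⟩, ⟨-n, (eB n).symm⟩⟩




/-- add (xor) `c` to the entry with index `n` -/
def xorAt : List ℕ → ℕ → ℕ → List ℕ
  | [], _, _ => []
  | x :: l, 0, c => (x ^^^ c) :: l
  | x :: l, n + 1, c => x :: xorAt l n c

/-- xor of all entries -/
def tot : List ℕ → ℕ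
  | [] => 0
  | x :: l => x ^^^ tot l

/-- partial sums -/
def pre : ℕ → List ℕ → List ℕ
  | _, [] => []
  | x, d :: l => (x ^^^ d) :: pre (x ^^^ d) l

/-- number of occurrences -/
def cnt (v : ℕ) : List ℕ → ℕ
  | [] => 0
  | x :: l => if x = v then cnt v l + 1 else cnt v l

/-- some value is hit exactly once -/
def good (d : List ℕ) : Bool :=
  let s := pre 0 d
  (cnt 0 s == 1) || ((cnt 1 s == 1) || ((cnt 2 s == 1) || (cnt 3 s == 1)))

def idx : List ℕ → ℕ
  | [] => 0
  | x :: l => x + 4 * idx l

/-- exploring all matchings of the positions `P` -/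
def stay (S : List ℕ → Bool) (c : ℕ) : ℕ → List ℕ → List (List ℕ) → Bool
  | 0, _, _ => true
  | _ + 1, [], _ => true
  | n + 1, a :: P, subs => P.any fun b =>
      (subs.map (fun l => xorAt (xorAt l a c) b c)).all S &&
        stay S c n (P.erase b) (subs.map (fun l => xorAt (xorAt l a c) b c) ++ subs)

/-- the positions of the entries different from `c` -/
def posn (c : ℕ) : ℕ → List ℕ → List ℕ
  | _, [] => []
  | i, x :: l => if x = c then posn c (i + 1) l else i :: posn c (i + 1) l

/-- toggle the positions `i` (offset `n`) with `Y i` -/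
def tog (c : ℕ) (Y : ℕ → Bool) : ℕ → List ℕ → List ℕ
  | _, [] => []
  | n, x :: l => (if Y n then x ^^^ c else x) :: tog c Y (n + 1) l

/-- Kempe-closed sets of boundary colourings with `k` legs -/
structure KC (k : ℕ) (F : List ℕ → Prop) : Prop where
  len : ∀ d, F d → d.length = k
  rng : ∀ d, F d → ∀ x ∈ d, 1 ≤ x ∧ x ≤ 3
  kempe : ∀ d, F d → ∀ c, 1 ≤ c → c ≤ 3 → ∃ μ : ℕ → ℕ,
    (∀ i, i ∈ posn c 0 d → μ i ∈ posn c 0 d ∧ μ i ≠ i ∧ μ (μ i) = i) ∧
    ∀ Y : ℕ → Bool, (∀ i, Y i = true → i ∈ posn c 0 d) → (∀ i, Y i = true → Y (μ i) = true) →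
      F (tog c Y 0 d)

theorem xorAt_tog (c : ℕ) (Y : ℕ → Bool) (a : ℕ) (ha : Y a = false) :
    ∀ (n : ℕ) (l : List ℕ) (i : ℕ), n + i = a →
      xorAt (tog c Y n l) i c = tog c (fun j => Y j || decide (j = a)) n l := by
  have key : ∀ (n : ℕ) (l : List ℕ), a < n →
      tog c Y n l = tog c (fun j => Y j || decide (j = a)) n l := by
    intro n l
    induction l generalizing n with
    | nil => intro _; rfl
    | cons x l ih =>
      intro h
      have hna : n ≠ a := by omega
      simp [tog, hna, ih (n + 1) (by omega)]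
  intro n l
  induction l generalizing n with
  | nil => intro i _; rfl
  | cons x l ih =>
    intro i hi
    cases i with
    | zero =>
      have hna : n = a := by omega
      subst hna
      simp only [tog, xorAt, ha, Bool.false_or]
      rw [key (n + 1) l (by omega)]
      simp
    | succ i =>
      have hna : n ≠ a := by omega
      have := ih (n + 1) i (by omega)
      simp only [tog, xorAt]
      rw [this]
      simp [hna]

theorem tog_false (c : ℕ) : ∀ (n : ℕ) (l : List ℕ), tog c (fun _ => false) n l = l := by
  intro n l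
  induction l generalizing n with
  | nil => rfl
  | cons x l ih => simp [tog, ih]

theorem posn_ge (c : ℕ) : ∀ (n : ℕ) (l : List ℕ) (i : ℕ), i ∈ posn c n l → n ≤ i := by
  intro n l
  induction l generalizing n with
  | nil => intro i h; simp [posn] at h
  | cons x l ih =>
    intro i h
    simp only [posn] at h
    split at h
    · have := ih (n + 1) i h; omega
    · rcases List.mem_cons.1 h with h | h
      · omega
      · have := ih (n + 1) i h; omega

theorem posn_nodup (c : ℕ) : ∀ (n : ℕ) (l : List ℕ), (posn c n l).Nodup := by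
  intro n l
  induction l generalizing n with
  | nil => simp [posn]
  | cons x l ih =>
    simp only [posn]
    split
    · exact ih _
    · rw [List.nodup_cons]
      refine ⟨fun h => ?_, ih _⟩
      have := posn_ge c (n + 1) l n h
      omega

theorem posn_length_le (c : ℕ) : ∀ (n : ℕ) (l : List ℕ), (posn c n l).length ≤ l.length := by
  intro n l
  induction l generalizing n with
  | nil => simp [posn]
  | cons x l ih =>
    simp only [posn]
    split
    · simp only [List.length_cons]; have := ih (n + 1); omega
    · simp only [List.length_cons]; have := ih (n + 1); omega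

theorem posn_lt (c : ℕ) : ∀ (n : ℕ) (l : List ℕ) (i : ℕ), i ∈ posn c n l → i < n + l.length := by
  intro n l
  induction l generalizing n with
  | nil => intro i h; simp [posn] at h
  | cons x l ih =>
    intro i h
    simp only [posn] at h
    simp only [List.length_cons]
    split at h
    · have := ih (n + 1) i h; omega
    · rcases List.mem_cons.1 h with h | h
      · omega
      · have := ih (n + 1) i h; omega

theorem xorAt_length (c : ℕ) : ∀ (l : List ℕ) (i : ℕ), (xorAt l i c).length = l.length := by
  intro l
  induction l with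
  | nil => intro i; rfl
  | cons x l ih => intro i; cases i <;> simp [xorAt, ih]

theorem tot_xorAt (c : ℕ) : ∀ (l : List ℕ) (i : ℕ), i < l.length →
    tot (xorAt l i c) = tot l ^^^ c := by
  intro l
  induction l with
  | nil => intro i h; simp at h
  | cons x l ih =>
    intro i h
    cases i with
    | zero => simp only [xorAt, tot]; rw [Nat.xor_assoc, Nat.xor_comm c, ← Nat.xor_assoc]
    | succ i =>
      simp only [xorAt, tot]
      rw [ih i (by simpa using h), Nat.xor_assoc]

theorem stay_sound (S : List ℕ → Bool) (c k : ℕ) (F : List ℕ → Prop) (d : List ℕ) (μ : ℕ → ℕ)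
    (hdk : d.length = k)
    (hS : ∀ l, F l → tot l = 0 → S l = true)
    (hμ : ∀ i, i ∈ posn c 0 d → μ i ∈ posn c 0 d ∧ μ i ≠ i ∧ μ (μ i) = i)
    (hY : ∀ Y : ℕ → Bool, (∀ i, Y i = true → i ∈ posn c 0 d) →
      (∀ i, Y i = true → Y (μ i) = true) → F (tog c Y 0 d)) :
    ∀ (n : ℕ) (P : List ℕ) (subs : List (List ℕ)),
      P.Nodup → (∀ i ∈ P, i ∈ posn c 0 d) → (∀ i ∈ P, μ i ∈ P) →
      (∀ l ∈ subs, tot l = 0 ∧ ∃ Y : ℕ → Bool, l = tog c Y 0 d ∧
        (∀ i, Y i = true → i ∈ posn c 0 d) ∧ (∀ i, Y i = true → Y (μ i) = true) ∧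
        (∀ i ∈ P, Y i = false)) →
      stay S c n P subs = true := by
  intro n
  induction n with
  | zero => intro P subs _ _ _ _; rfl
  | succ n ih =>
    intro P subs hnd hP hPμ hsubs
    cases P with
    | nil => rfl
    | cons a P =>
      have haP := hP a List.mem_cons_self
      obtain ⟨h1, h2, h3⟩ := hμ a haP
      have hb : μ a ∈ P := by
        rcases List.mem_cons.1 (hPμ a List.mem_cons_self) with h | h
        · exact absurd h h2
        · exact h
      have haP' : a ∉ P := (List.nodup_cons.1 hnd).1
      have hnd' : P.Nodup := (List.nodup_cons.1 hnd).2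
      have hnew : ∀ l ∈ subs, tot (xorAt (xorAt l a c) (μ a) c) = 0 ∧ ∃ Y : ℕ → Bool,
          xorAt (xorAt l a c) (μ a) c = tog c Y 0 d ∧
          (∀ i, Y i = true → i ∈ posn c 0 d) ∧ (∀ i, Y i = true → Y (μ i) = true) ∧
          (∀ i ∈ P.erase (μ a), Y i = false) := by
        intro l hl
        obtain ⟨ht, Y, hYl, hY1, hY2, hY3⟩ := hsubs l hl
        have ha0 : Y a = false := hY3 a List.mem_cons_self
        have hb0 : Y (μ a) = false := hY3 (μ a) (List.mem_cons_of_mem _ hb)
        have tl : ∀ (Z : ℕ → Bool) (n : ℕ) (m : List ℕ), (tog c Z n m).length = m.length := by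
          intro Z n m
          induction m generalizing n with
          | nil => rfl
          | cons x m ih => simp [tog, ih]
        have hlen : l.length = k := by rw [hYl, tl, hdk]
        have hak : a < l.length := by
          have := posn_lt c 0 d a haP; rw [hlen]; omega
        have hbk : μ a < (xorAt l a c).length := by
          rw [xorAt_length]
          have := posn_lt c 0 d (μ a) h1; rw [hlen]; omega
        refine ⟨?_, fun j => (Y j || decide (j = a)) || decide (j = μ a), ?_, ?_, ?_, ?_⟩
        · rw [tot_xorAt c _ _ hbk, tot_xorAt c _ _ hak, ht]; simp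
        · rw [hYl, xorAt_tog c Y a ha0 0 d a (by omega),
            xorAt_tog c _ (μ a) (by simp [hb0, h2]) 0 d (μ a) (by omega)]
        · intro i hi
          simp only [Bool.or_eq_true, decide_eq_true_eq] at hi
          rcases hi with (hi | hi) | hi
          · exact hY1 i hi
          · rw [hi]; exact haP
          · rw [hi]; exact h1
        · intro i hi
          simp only [Bool.or_eq_true, decide_eq_true_eq] at hi ⊢
          rcases hi with (hi | hi) | hi
          · exact Or.inl (Or.inl (hY2 i hi))
          · right; rw [hi]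
          · left; right; rw [hi, h3]
        · intro i hi
          have hiP : i ∈ P := List.mem_of_mem_erase hi
          have hib : i ≠ μ a := by
            intro h
            rw [h] at hi
            exact (List.Nodup.not_mem_erase hnd') hi
          have hia : i ≠ a := fun h => haP' (h ▸ hiP)
          simp [hib, hia, hY3 i (List.mem_cons_of_mem _ hiP)]
      simp only [stay]
      rw [List.any_eq_true]
      refine ⟨μ a, hb, ?_⟩
      rw [Bool.and_eq_true]
      constructor
      · rw [List.all_eq_true]
        intro l' hl'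
        obtain ⟨l, hl, rfl⟩ := List.mem_map.1 hl'
        obtain ⟨ht, Y, hYl, hY1, hY2, _⟩ := hnew l hl
        apply hS _ _ ht
        rw [hYl]
        exact hY Y hY1 hY2
      · apply ih
        · exact hnd'.erase _
        · intro i hi
          exact hP i (List.mem_cons_of_mem _ (List.mem_of_mem_erase hi))
        · intro i hi
          have hiP : i ∈ P := List.mem_of_mem_erase hi
          have hib : i ≠ μ a := by
            intro h
            rw [h] at hi
            exact (List.Nodup.not_mem_erase hnd') hi
          have hia : i ≠ a := fun h => haP' (h ▸ hiP)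
          have hipos := hP i (List.mem_cons_of_mem _ hiP)
          obtain ⟨g1, g2, g3⟩ := hμ i hipos
          have hmi : μ i ∈ a :: P := hPμ i (List.mem_cons_of_mem _ hiP)
          have hmia : μ i ≠ a := by
            intro h
            apply hib
            rw [← g3, h]
          have hmib : μ i ≠ μ a := by
            intro h
            apply hia
            rw [← g3, h, h3]
          rcases List.mem_cons.1 hmi with h | h
          · exact absurd h hmia
          · exact (List.mem_erase_of_ne hmib).2 h
        · intro l hl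
          rcases (List.mem_append.1 hl).symm with hl | hl
          · obtain ⟨ht, Y, hYl, hY1, hY2, hY3⟩ := hsubs l hl
            exact ⟨ht, Y, hYl, hY1, hY2, fun i hi =>
              hY3 i (List.mem_cons_of_mem _ (List.mem_of_mem_erase hi))⟩
          · obtain ⟨l, hl', rfl⟩ := List.mem_map.1 hl
            exact hnew l hl'



def decode : ℕ → ℕ → List ℕ
  | 0, _ => []
  | k + 1, e => (e % 4) :: decode k (e / 4)

/-- `f n`, evaluating `n` first -/
def force {α : Type} (n : ℕ) (f : ℕ → α) : α :=
  match n with
  | 0 => f 0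
  | m + 1 => f (m + 1)

theorem force_eq {α : Type} (n : ℕ) (f : ℕ → α) : force n f = f n := by
  cases n <;> rfl

/-- index of a code (its first `n` digits, in base 3) -/
def idxN : ℕ → ℕ → ℕ
  | 0, _ => 0
  | n + 1, t => Nat.add (Nat.pred (Nat.mod t 4)) (Nat.mul 3 (idxN n (Nat.div t 4)))

/-- not yet excluded -/
def live (k acc : ℕ) (t : ℕ) : Bool :=
  Nat.beq (Nat.land (Nat.shiftRight acc (idxN k t)) 1) 0

def allN (S : ℕ → Bool) (m : ℕ) : List ℕ → Bool
  | [] => true
  | t :: l => match S (Nat.xor t m) with
    | true => allN S m l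
    | false => false

def mapN (m : ℕ) (r : List ℕ) : List ℕ → List ℕ
  | [] => r
  | t :: l => Nat.xor t m :: mapN m r l

def anyN (f : ℕ → Bool) : List ℕ → Bool
  | [] => false
  | t :: l => match f t with
    | true => true
    | false => anyN f l

/-- exploring all matchings of the positions `P`, for codes -/
def stayN (S : ℕ → Bool) (c : ℕ) : ℕ → List ℕ → List ℕ → Bool
  | 0, _, _ => true
  | _ + 1, [], _ => true
  | n + 1, a :: P, subs => anyN (fun b =>
      force (Nat.xor (Nat.mul c (Nat.pow 4 a)) (Nat.mul c (Nat.pow 4 b))) fun m =>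
      match allN S m subs with
      | true => stayN S c n (P.erase b) (mapN m subs subs)
      | false => false) P

/-- the numbers of occurrences of `0,1,2,3` among the partial sums, in base 16 -/
def code : ℕ → List ℕ → ℕ
  | _, [] => 0
  | s, d :: l => Nat.add (Nat.pow 16 (Nat.xor s d)) (code (Nat.xor s d) l)

def goodc (c : ℕ) : Bool :=
  or (Nat.beq (Nat.mod c 16) 1) (or (Nat.beq (Nat.mod (Nat.div c 16) 16) 1)
    (or (Nat.beq (Nat.mod (Nat.div c 256) 16) 1) (Nat.beq (Nat.mod (Nat.div c 4096) 16) 1)))

/-- entries nonzero, with xor `x` -/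
def validL : ℕ → List ℕ → Bool
  | x, [] => Nat.beq x 0
  | x, y :: l => match y with
    | 0 => false
    | _ + 1 => validL (Nat.xor x y) l

def stepd (k : ℕ) (acc c : ℕ) (d : List ℕ) : ℕ :=
  match validL 0 d with
  | false => acc
  | true => match c with
    | 0 => match goodc (code 0 d) with
      | true => acc ||| 2 ^ (idxN (k - 1) (idx d))
      | false => acc
    | c + 1 => match stayN (live (k - 1) acc) (c + 1) (k + 1) (posn (c + 1) 0 d) [idx d] with
      | true => acc
      | false => acc ||| 2 ^ (idxN (k - 1) (idx d))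

/-- differences of consecutive entries, the entry before the first one being `p` -/
def dif : ℕ → List ℕ → List ℕ
  | _, [] => []
  | p, x :: l => (p ^^^ x) :: dif x l

/-- walks: lists over `1,2,3` whose consecutive entries differ -/
def walks : ℕ → List (List ℕ)
  | 0 => [[]]
  | n + 1 => (walks n).flatMap fun l => (([1, 2, 3] : List ℕ).filter
      fun x => !(x == l.headD 0)).map fun x => x :: l

def fin (k : ℕ) (acc : ℕ) : Bool :=
  (walks k).all fun s => (s.headD 0 == s.getLastD 0) ||
    !(live (k - 1) acc (idx (dif (s.getLastD 0) s)))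

def run (k : ℕ) : List ℕ → ℕ → Bool
  | [], acc => fin k acc
  | e :: es, acc => force (stepd k acc (e % 4) (decode k (e / 4))) (run k es)

theorem xor4 (x m y n : ℕ) (hx : x < 4) (hy : y < 4) :
    (x + 4 * m) ^^^ (y + 4 * n) = (x ^^^ y) + 4 * (m ^^^ n) := by
  have hxy : x ^^^ y < 4 := by interval_cases x <;> interval_cases y <;> decide
  have h1 : ((x + 4 * m) ^^^ (y + 4 * n)) % 4 = x ^^^ y := by
    have := @Nat.xor_mod_two_pow (x + 4 * m) (y + 4 * n) 2
    norm_num at this
    rw [this, Nat.mod_eq_of_lt hx, Nat.mod_eq_of_lt hy]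
  have h2 : ((x + 4 * m) ^^^ (y + 4 * n)) / 4 = m ^^^ n := by
    have := Nat.shiftRight_xor_distrib (a := x + 4 * m) (b := y + 4 * n) (i := 2)
    simp only [Nat.shiftRight_eq_div_pow] at this
    norm_num at this
    rw [this]
    rw [show (x + 4 * m) / 4 = m by omega, show (y + 4 * n) / 4 = n by omega]
  omega

theorem idx_xorAt (c : ℕ) (hc : c < 4) : ∀ (l : List ℕ) (a : ℕ), (∀ x ∈ l, x < 4) →
    a < l.length → idx (xorAt l a c) = idx l ^^^ (c * 4 ^ a) := by
  intro l
  induction l with
  | nil => intro a _ h; simp at h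
  | cons x l ih =>
    intro a hl ha
    have hx : x < 4 := hl x List.mem_cons_self
    have hl' : ∀ y ∈ l, y < 4 := fun y hy => hl y (List.mem_cons_of_mem _ hy)
    cases a with
    | zero =>
      simp only [xorAt, idx]
      have := xor4 x (idx l) c 0 hx hc
      simpa using this.symm
    | succ a =>
      simp only [xorAt, idx]
      rw [ih a hl' (by simpa using ha)]
      have := xor4 x (idx l) 0 (c * 4 ^ a) hx (by norm_num)
      simp only [Nat.xor_zero, Nat.zero_add] at this
      rw [← this]
      congr 1
      rw [pow_succ]; ring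

theorem xorAt_lt (c : ℕ) (hc : c < 4) : ∀ (l : List ℕ) (a : ℕ), (∀ x ∈ l, x < 4) →
    ∀ x ∈ xorAt l a c, x < 4 := by
  intro l
  induction l with
  | nil => intro a _ x hx; simp [xorAt] at hx
  | cons y l ih =>
    intro a hl x hx
    have hy : y < 4 := hl y List.mem_cons_self
    have hl' : ∀ z ∈ l, z < 4 := fun z hz => hl z (List.mem_cons_of_mem _ hz)
    cases a with
    | zero =>
      simp only [xorAt] at hx
      rcases List.mem_cons.1 hx with h | h
      · rw [h]; interval_cases y <;> interval_cases c <;> decide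
      · exact hl' x h
    | succ a =>
      simp only [xorAt] at hx
      rcases List.mem_cons.1 hx with h | h
      · rw [h]; exact hy
      · exact ih a hl' x h

theorem allN_eq (S : ℕ → Bool) (m : ℕ) : ∀ l : List ℕ, allN S m l = l.all fun t => S (t ^^^ m) := by
  intro l
  induction l with
  | nil => rfl
  | cons t l ih =>
    have : Nat.xor t m = t ^^^ m := rfl
    simp only [allN, List.all_cons, this]
    cases h : S (t ^^^ m) <;> simp [ih]

theorem mapN_eq (m : ℕ) (r : List ℕ) : ∀ l : List ℕ, mapN m r l = (l.map fun t => t ^^^ m) ++ r := by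
  intro l
  induction l with
  | nil => rfl
  | cons t l ih =>
    have : Nat.xor t m = t ^^^ m := rfl
    simp only [mapN, List.map_cons, this, ih, List.cons_append]

theorem anyN_eq (f : ℕ → Bool) : ∀ l : List ℕ, anyN f l = l.any f := by
  intro l
  induction l with
  | nil => rfl
  | cons t l ih =>
    simp only [anyN, List.any_cons]
    cases h : f t <;> simp [ih]

theorem any_congr' {f g : ℕ → Bool} : ∀ l : List ℕ, (∀ x ∈ l, f x = g x) → l.any f = l.any g := by
  intro l
  induction l with
  | nil => intro _; rfl
  | cons t l ih =>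
    intro h
    simp only [List.any_cons]
    rw [h t List.mem_cons_self, ih fun x hx => h x (List.mem_cons_of_mem _ hx)]

theorem stayN_eq (S : ℕ → Bool) (c k : ℕ) (hc : c < 4) : ∀ (n : ℕ) (P : List ℕ)
    (subs : List (List ℕ)), (∀ l ∈ subs, l.length = k ∧ ∀ x ∈ l, x < 4) → (∀ i ∈ P, i < k) →
    stayN S c n P (subs.map idx) = stay (fun l => S (idx l)) c n P subs := by
  intro n
  induction n with
  | zero => intro P subs _ _; rfl
  | succ n ih =>
    intro P subs hs hP
    cases P with
    | nil => rfl
    | cons a P =>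
      have ha : a < k := hP a List.mem_cons_self
      simp only [stayN, stay]
      rw [anyN_eq]
      apply any_congr'
      intro b hb
      have hbk : b < k := hP b (List.mem_cons_of_mem _ hb)
      rw [force_eq]
      have hm : Nat.xor (Nat.mul c (Nat.pow 4 a)) (Nat.mul c (Nat.pow 4 b))
        = (c * 4 ^ a) ^^^ (c * 4 ^ b) := rfl
      rw [hm, allN_eq, mapN_eq]
      have hi : ∀ l ∈ subs, idx (xorAt (xorAt l a c) b c)
          = idx l ^^^ ((c * 4 ^ a) ^^^ (c * 4 ^ b)) := by
        intro l hl
        obtain ⟨h1, h2⟩ := hs l hl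
        rw [idx_xorAt c hc _ b (xorAt_lt c hc l a h2) (by rw [xorAt_length, h1]; exact hbk),
          idx_xorAt c hc l a h2 (by rw [h1]; exact ha), Nat.xor_assoc]
      have e1 : ((subs.map idx).all fun t => S (t ^^^ ((c * 4 ^ a) ^^^ (c * 4 ^ b))))
          = (subs.map (fun l => xorAt (xorAt l a c) b c)).all (fun l => S (idx l)) := by
        rw [Bool.eq_iff_iff, List.all_eq_true, List.all_eq_true]
        constructor
        · intro h x hx
          obtain ⟨l, hl, rfl⟩ := List.mem_map.1 hx
          rw [hi l hl]
          exact h _ (List.mem_map_of_mem hl)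
        · intro h x hx
          obtain ⟨l, hl, rfl⟩ := List.mem_map.1 hx
          have := h _ (List.mem_map_of_mem (f := fun l => xorAt (xorAt l a c) b c) hl)
          rw [hi l hl] at this
          exact this
      have e2 : ((subs.map idx).map fun t => t ^^^ ((c * 4 ^ a) ^^^ (c * 4 ^ b))) ++ subs.map idx
          = (subs.map (fun l => xorAt (xorAt l a c) b c) ++ subs).map idx := by
        rw [List.map_append, List.map_map, List.map_map]
        congr 1
        apply List.map_congr_left
        intro l hl
        simp only [Function.comp]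
        rw [hi l hl]
      rw [e1, e2]
      have e3 := ih (P.erase b) (subs.map (fun l => xorAt (xorAt l a c) b c) ++ subs) ?_ ?_
      · rw [e3]
        cases ((subs.map (fun l => xorAt (xorAt l a c) b c)).all (fun l => S (idx l))) <;> rfl
      · intro l hl
        rcases List.mem_append.1 hl with h | h
        · obtain ⟨l', hl', rfl⟩ := List.mem_map.1 h
          obtain ⟨h1, h2⟩ := hs l' hl'
          exact ⟨by rw [xorAt_length, xorAt_length, h1],
            xorAt_lt c hc _ b (xorAt_lt c hc l' a h2)⟩
        · exact hs l h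
      · intro i hi
        exact hP i (List.mem_cons_of_mem _ (List.mem_of_mem_erase hi))

theorem idxN_cons (n x t : ℕ) (h1 : 1 ≤ x) (h2 : x ≤ 3) :
    idxN (n + 1) (x + 4 * t) = (x - 1) + 3 * idxN n t := by
  have e : idxN (n + 1) (x + 4 * t) = ((x + 4 * t) % 4 - 1) + 3 * idxN n ((x + 4 * t) / 4) := rfl
  rw [e, show (x + 4 * t) % 4 = x by omega, show (x + 4 * t) / 4 = t by omega]

theorem idxN_inj : ∀ (n : ℕ) (l l' : List ℕ), l.length = n + 1 → l'.length = n + 1 →
    (∀ x ∈ l, 1 ≤ x ∧ x ≤ 3) → (∀ x ∈ l', 1 ≤ x ∧ x ≤ 3) → tot l = tot l' →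
    idxN n (idx l) = idxN n (idx l') → l = l' := by
  intro n
  induction n with
  | zero =>
    intro l l' h h' _ _ ht _
    obtain ⟨x, rfl⟩ := List.length_eq_one_iff.1 h
    obtain ⟨y, rfl⟩ := List.length_eq_one_iff.1 h'
    simp only [tot, Nat.xor_zero] at ht
    rw [ht]
  | succ n ih =>
    intro l l' h h' hl hl' ht hi
    cases l with
    | nil => simp at h
    | cons x l =>
      cases l' with
      | nil => simp at h'
      | cons y l' =>
        obtain ⟨x1, x2⟩ := hl x List.mem_cons_self
        obtain ⟨y1, y2⟩ := hl' y List.mem_cons_self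
        simp only [idx] at hi
        rw [idxN_cons n x _ x1 x2, idxN_cons n y _ y1 y2] at hi
        have hxy : x = y := by omega
        subst hxy
        have hii : idxN n (idx l) = idxN n (idx l') := by omega
        simp only [tot] at ht
        have ht' : tot l = tot l' := by
          have := congrArg (fun z => x ^^^ z) ht
          simpa [← Nat.xor_assoc] using this
        rw [ih l l' (by simpa using h) (by simpa using h')
          (fun z hz => hl z (List.mem_cons_of_mem _ hz))
          (fun z hz => hl' z (List.mem_cons_of_mem _ hz)) ht' hii]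

theorem cnt_le (v : ℕ) : ∀ l : List ℕ, cnt v l ≤ l.length := by
  intro l
  induction l with
  | nil => simp [cnt]
  | cons x l ih =>
    simp only [cnt, List.length_cons]
    split <;> omega

theorem pre_length : ∀ (x : ℕ) (l : List ℕ), (pre x l).length = l.length := by
  intro x l
  induction l generalizing x with
  | nil => rfl
  | cons y l ih => simp [pre, ih]

theorem code_eq : ∀ (s : ℕ) (l : List ℕ), s < 4 → (∀ x ∈ l, x < 4) →
    code s l = cnt 0 (pre s l) + 16 * cnt 1 (pre s l) + 256 * cnt 2 (pre s l)
      + 4096 * cnt 3 (pre s l) := by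
  intro s l
  induction l generalizing s with
  | nil => intro _ _; rfl
  | cons d l ih =>
    intro hs hl
    have hd : d < 4 := hl d List.mem_cons_self
    have hsd : s ^^^ d < 4 := by interval_cases s <;> interval_cases d <;> decide
    have e : code s (d :: l) = 16 ^ (s ^^^ d) + code (s ^^^ d) l := rfl
    rw [e, ih _ hsd fun x hx => hl x (List.mem_cons_of_mem _ hx)]
    simp only [pre, cnt]
    generalize s ^^^ d = w at hsd
    interval_cases w <;> norm_num <;> ring

theorem goodc_good (d : List ℕ) (hd : ∀ x ∈ d, x < 4) (hlen : d.length < 16)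
    (h : goodc (code 0 d) = true) : good d = true := by
  rw [code_eq 0 d (by norm_num) hd] at h
  have b0 := cnt_le 0 (pre 0 d)
  have b1 := cnt_le 1 (pre 0 d)
  have b2 := cnt_le 2 (pre 0 d)
  have b3 := cnt_le 3 (pre 0 d)
  rw [pre_length] at b0 b1 b2 b3
  simp only [goodc, Bool.or_eq_true, Nat.beq_eq] at h
  simp only [good, Bool.or_eq_true, beq_iff_eq]
  have hm : ∀ a b : ℕ, Nat.mod a b = a % b := fun _ _ => rfl
  have hv : ∀ a b : ℕ, Nat.div a b = a / b := fun _ _ => rfl
  simp only [hm, hv] at h
  generalize cnt 0 (pre 0 d) = c0 at *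
  generalize cnt 1 (pre 0 d) = c1 at *
  generalize cnt 2 (pre 0 d) = c2 at *
  generalize cnt 3 (pre 0 d) = c3 at *
  omega

theorem live_eq (k acc t : ℕ) : live k acc t = !(acc.testBit (idxN k t)) := by
  have e : live k acc t = Nat.beq ((acc >>> (idxN k t)) &&& 1) 0 := rfl
  rw [e, Nat.testBit, Nat.land_comm]
  cases h : (1 &&& acc >>> idxN k t) with
  | zero => rfl
  | succ n => rfl

theorem validL_spec : ∀ (l : List ℕ) (x : ℕ), validL x l = true →
    (∀ y ∈ l, 1 ≤ y) ∧ x ^^^ tot l = 0 := by
  intro l
  induction l with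
  | nil => intro x h; simpa [validL, tot, Nat.beq_eq_true_eq] using h
  | cons y l ih =>
    intro x h
    cases y with
    | zero => simp [validL] at h
    | succ y =>
      have h' : validL (x ^^^ (y + 1)) l = true := h
      obtain ⟨h1, h2⟩ := ih _ h'
      refine ⟨?_, ?_⟩
      · intro z hz
        rcases List.mem_cons.1 hz with h | h
        · omega
        · exact h1 z h
      · simp only [tot]; rw [← Nat.xor_assoc]; exact h2

theorem decode_spec : ∀ (k e : ℕ), (decode k e).length = k ∧ ∀ x ∈ decode k e, x < 4 := by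
  intro k
  induction k with
  | zero => intro e; simp [decode]
  | succ k ih =>
    intro e
    obtain ⟨h1, h2⟩ := ih (e / 4)
    refine ⟨by simp [decode, h1], ?_⟩
    intro x hx
    simp only [decode] at hx
    rcases List.mem_cons.1 hx with h | h
    · rw [h]; omega
    · exact h2 x h

/-- no boundary colouring of `F` has been excluded -/
def Inv (k : ℕ) (F : List ℕ → Prop) (acc : ℕ) : Prop :=
  ∀ d, F d → tot d = 0 → acc.testBit (idxN (k - 1) (idx d)) = false

theorem stepd_inv (k : ℕ) (hk : 0 < k) (hk16 : k < 16) (F : List ℕ → Prop) (hF : KC k F)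
    (hg : ∀ d, F d → tot d = 0 → good d = false) (acc c : ℕ) (hc : c < 4) (d : List ℕ)
    (hdl : d.length = k) (hd4 : ∀ x ∈ d, x < 4) (hacc : Inv k F acc) :
    Inv k F (stepd k acc c d) := by
  have add : (validL 0 d = true) → (F d → tot d = 0 → False) →
      Inv k F (acc ||| 2 ^ (idxN (k - 1) (idx d))) := by
    intro hv hno l hl hlt
    rw [Nat.testBit_or, hacc l hl hlt, Bool.false_or, Nat.testBit_two_pow]
    rw [decide_eq_false_iff_not]
    intro he
    obtain ⟨v1, v2⟩ := validL_spec d 0 hv
    rw [Nat.zero_xor] at v2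
    obtain ⟨m, rfl⟩ : ∃ m, k = m + 1 := ⟨k - 1, by omega⟩
    have : d = l := by
      apply idxN_inj m d l hdl (hF.len l hl)
        (fun x hx => ⟨v1 x hx, by have := hd4 x hx; omega⟩) (hF.rng l hl) (by rw [v2, hlt])
      simpa using he
    rw [this] at hno
    exact hno hl hlt
  unfold stepd
  cases hv : validL 0 d with
  | false => exact hacc
  | true =>
    cases c with
    | zero =>
      simp only
      cases hgc : goodc (code 0 d) with
      | false => exact hacc
      | true =>
        simp only
        apply add hv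
        intro h1 h2
        have := goodc_good d hd4 (by rw [hdl]; exact hk16) hgc
        rw [hg d h1 h2] at this
        exact absurd this (by decide)
    | succ c =>
      simp only
      cases hs : stayN (live (k - 1) acc) (c + 1) (k + 1) (posn (c + 1) 0 d) [idx d] with
      | true => exact hacc
      | false =>
        simp only
        apply add hv
        intro h1 h2
        obtain ⟨μ, hμ, hY⟩ := hF.kempe d h1 (c + 1) (by omega) (by omega)
        have hst := stay_sound (fun l => live (k - 1) acc (idx l)) (c + 1) k F d μ hdl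
          (by
            intro l hl hlt
            rw [live_eq, hacc l hl hlt]; rfl) hμ hY (k + 1) (posn (c + 1) 0 d) [d]
          (posn_nodup _ _ _) (fun i hi => hi) (fun i hi => (hμ i hi).1)
          (by
            intro l hl
            rw [List.mem_singleton] at hl
            subst hl
            exact ⟨h2, fun _ => false, (tog_false _ _ _).symm, by simp, by simp, by simp⟩)
        have hEq := stayN_eq (live (k - 1) acc) (c + 1) k hc (k + 1) (posn (c + 1) 0 d) [d]
          (by
            intro l hl
            rw [List.mem_singleton] at hl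
            subst hl
            exact ⟨hdl, hd4⟩)
          (by
            intro i hi
            have := posn_lt (c + 1) 0 d i hi
            omega)
        rw [← hEq] at hst
        rw [List.map_singleton, hs] at hst
        exact absurd hst (by decide)

theorem run_inv (k : ℕ) (hk : 0 < k) (hk16 : k < 16) (F : List ℕ → Prop) (hF : KC k F)
    (hg : ∀ d, F d → tot d = 0 → good d = false) : ∀ (es : List ℕ) (acc : ℕ), Inv k F acc →
    run k es acc = true → ∃ acc', Inv k F acc' ∧ fin k acc' = true := by
  intro es
  induction es with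
  | nil => intro acc h1 h2; exact ⟨acc, h1, h2⟩
  | cons e es ih =>
    intro acc h1 h2
    simp only [run] at h2
    rw [force_eq] at h2
    obtain ⟨a, b⟩ := decode_spec k (e / 4)
    exact ih _ (stepd_inv k hk hk16 F hF hg acc (e % 4) (Nat.mod_lt _ (by norm_num)) _ a b h1) h2

/-- the combinatorial core: a Kempe-closed set containing the boundary colouring of a proper
3-edge-colouring contains a boundary colouring with a value hit exactly once -/
theorem kc_good (k : ℕ) (hk : 0 < k) (hk16 : k < 16) (es : List ℕ) (hrun : run k es 0 = true)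
    (F : List ℕ → Prop) (hF : KC k F) (s : List ℕ) (hs : s ∈ walks k)
    (hne : s.headD 0 ≠ s.getLastD 0) (hd : F (dif (s.getLastD 0) s))
    (ht : tot (dif (s.getLastD 0) s) = 0) :
    ∃ d, F d ∧ tot d = 0 ∧ good d = true := by
  by_contra hcon
  push Not at hcon
  have hg : ∀ d, F d → tot d = 0 → good d = false := by
    intro d h1 h2
    have := hcon d h1 h2
    simpa using this
  obtain ⟨acc, h1, h2⟩ := run_inv k hk hk16 F hF hg es 0
    (by intro d _ _; exact Nat.zero_testBit _) hrun
  unfold fin at h2
  rw [List.all_eq_true] at h2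
  have h3 := h2 s hs
  rw [Bool.or_eq_true] at h3
  rcases h3 with h3 | h3
  · exact hne (by simpa using h3)
  · rw [live_eq, h1 _ hd ht] at h3
    simp at h3

end Pool.Agent.R530
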