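import Pool.Agent.TH423.DS.Sieve
import Pool.Agent.H295R3.Hoheisel
import Pool.Agent.R530.PndNear

/-!
# Small differences of the totient at consecutive integers

A greedy construction with primes in short intervals gives odd `b` with `φ(b) / b` very close to
`1 / 2`, and a lower bound sieve gives `n` with `b ∣ n + 1`, `2 ∣ n` and `n / 2`, `(n + 1) / b` free of
small prime factors.
-/

set_option autoImplicit false
set_option maxHeartbeats 4000000

namespace Pool.Agent.R530.Tot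

open Finset Filter

/-- primes in short intervals -/
lemma short : ∃ δ : ℝ, 0 < δ ∧ δ < 1 ∧ ∃ x₁ : ℝ, 1 ≤ x₁ ∧ ∀ x : ℝ, x₁ ≤ x →
    ∃ p : ℕ, p.Prime ∧ x < p ∧ (p : ℝ) ≤ x + x ^ (1 - δ) := by
  obtain ⟨δ, η, hδ, hδ1, hη, X₀, hX₀, h⟩ := Pool.Agent.H295R3.D.hoheisel
  have ev : ∀ᶠ x : ℝ in atTop, 5 ≤ x ^ (δ / 2) :=
    (tendsto_rpow_atTop (by linarith)).eventually_ge_atTop 5
  obtain ⟨x₁, hx₁⟩ := eventually_atTop.mp (ev.and ((eventually_ge_atTop (X₀ : ℝ)).and
    (eventually_ge_atTop 2)))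
  refine ⟨δ / 2, by linarith, by linarith, max x₁ 1, le_max_right _ _, fun x hx => ?_⟩
  obtain ⟨h1, h2, h3⟩ := hx₁ x ((le_max_left _ _).trans hx)
  have hx0 : 0 < x := by linarith
  set X : ℕ := ⌈x⌉₊ with hX
  have hX1 : x ≤ X := Nat.le_ceil x
  have hX2 : (X : ℝ) < x + 1 := Nat.ceil_lt_add_one hx0.le
  have hX1' : (1 : ℝ) < X := by linarith
  set Y : ℕ := ⌈(X : ℝ) ^ (1 - δ)⌉₊ with hY
  have hY1 : (X : ℝ) ^ (1 - δ) ≤ Y := Nat.le_ceil _
  have hpos : 0 < (X : ℝ) ^ (1 - δ) := by positivity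
  have hY2 : (Y : ℝ) < (X : ℝ) ^ (1 - δ) + 1 := Nat.ceil_lt_add_one hpos.le
  have hYX : Y ≤ X := by
    rw [hY, Nat.ceil_le]
    calc (X : ℝ) ^ (1 - δ) ≤ (X : ℝ) ^ (1 : ℝ) :=
          Real.rpow_le_rpow_of_exponent_le hX1'.le (by linarith)
      _ = X := Real.rpow_one _
  have hX₀X : X₀ ≤ X := by
    have : (X₀ : ℝ) ≤ X := by linarith
    exact_mod_cast this
  have h4 := h X Y hX₀X hY1 hYX
  have h5 : 0 < η * Y / Real.log X := by
    have : 0 < Real.log X := Real.log_pos hX1'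
    have : 0 < (Y : ℝ) := hpos.trans_le hY1
    positivity
  have h6 : 0 < ((Ioc X (X + Y)).filter Nat.Prime).card := by
    have : (0 : ℝ) < (((Ioc X (X + Y)).filter Nat.Prime).card : ℝ) := h5.trans_le h4
    exact_mod_cast this
  obtain ⟨p, hp⟩ := card_pos.mp h6
  rw [mem_filter, mem_Ioc] at hp
  refine ⟨p, hp.2, ?_, ?_⟩
  · have : (X : ℝ) < p := by exact_mod_cast hp.1.1
    linarith
  · have h7 : (p : ℝ) ≤ X + Y := by exact_mod_cast hp.1.2
    have h8 : (X : ℝ) ^ (1 - δ) ≤ 2 * x ^ (1 - δ) := by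
      calc (X : ℝ) ^ (1 - δ) ≤ (2 * x) ^ (1 - δ) :=
            Real.rpow_le_rpow (by linarith) (by linarith) (by linarith)
        _ = 2 ^ (1 - δ) * x ^ (1 - δ) := Real.mul_rpow (by norm_num) hx0.le
        _ ≤ 2 * x ^ (1 - δ) := by
            apply mul_le_mul_of_nonneg_right _ (by positivity)
            calc (2 : ℝ) ^ (1 - δ) ≤ 2 ^ (1 : ℝ) :=
                  Real.rpow_le_rpow_of_exponent_le (by norm_num) (by linarith)
              _ = 2 := Real.rpow_one _
    have h9 : 1 ≤ x ^ (1 - δ) := Real.one_le_rpow (by linarith) (by linarith)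
    have h10 : x ^ (1 - δ / 2) = x ^ (1 - δ) * x ^ (δ / 2) := by
      rw [← Real.rpow_add hx0]
      congr 1
      ring
    rw [h10]
    have h11 : x ^ (1 - δ) * 5 ≤ x ^ (1 - δ) * x ^ (δ / 2) := by gcongr
    linarith

/-- `b` is odd, `2 φ(b) = (1 + θ) b`, and all prime factors of `b` are below `1 / θ` -/
structure State (b : ℕ) (θ : ℝ) : Prop where
  odd : Odd b
  pos : 0 < θ
  tot : 2 * (Nat.totient b : ℝ) = (1 + θ) * b
  fac : ∀ p : ℕ, p.Prime → p ∣ b → (p : ℝ) * θ < 1

lemma tot_prod (s : Finset ℕ) (hs : ∀ p ∈ s, p.Prime) :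
    (Nat.totient (∏ p ∈ s, p) : ℝ) = (∏ p ∈ s, (1 - 1 / (p : ℝ))) * ((∏ p ∈ s, p : ℕ) : ℝ) := by
  classical
  induction s using Finset.induction_on with
  | empty => simp
  | insert a s ha ih =>
    have h1 := ih (fun p hp => hs p (mem_insert_of_mem hp))
    have ha1 := hs a (mem_insert_self a s)
    have hcop : a.Coprime (∏ x ∈ s, x) := by
      apply Nat.Coprime.prod_right
      intro x hx
      rw [Nat.coprime_primes ha1 (hs x (mem_insert_of_mem hx))]
      rintro rfl
      exact ha hx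
    rw [prod_insert ha, prod_insert ha, Nat.totient_mul hcop, Nat.totient_prime ha1]
    have ha0 : (a : ℝ) ≠ 0 := by exact_mod_cast ha1.pos.ne'
    push_cast [Nat.cast_sub ha1.one_lt.le] at h1 ⊢
    rw [h1]
    field_simp

/-- initial states with arbitrarily small `θ` -/
lemma init (Z : ℕ) (hZ : 3 ≤ Z) : ∃ b : ℕ, ∃ θ : ℝ, State b θ ∧ θ ≤ 1 / Z := by
  classical
  obtain ⟨X, hX⟩ := Pnd.exists_X Z
  set f : ℕ → ℝ := fun m => ∏ p ∈ (Ioc Z m).filter Nat.Prime, (1 - 1 / (p : ℝ)) with hf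
  have hfX : f X ≤ 1 / 2 := by
    have h1 : f X * Pnd.hh ((Ioc Z X).filter Nat.Prime) ≤ 1 := by
      rw [hf]
      unfold Pnd.hh
      simp only
      rw [← prod_mul_distrib]
      apply Finset.prod_le_one
      · intro p hp
        rw [mem_filter, mem_Ioc] at hp
        have : (1 : ℝ) < p := by exact_mod_cast hp.2.one_lt
        have h2 : 1 / (p : ℝ) < 1 := by
          rw [div_lt_one (by linarith)]
          exact this
        have h3 : 0 < 1 / (p : ℝ) := by positivity
        apply mul_nonneg <;> linarith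
      · intro p hp
        have h3 : 0 ≤ 1 / (p : ℝ) := by positivity
        nlinarith
    have h0 : 0 ≤ f X := by
      rw [hf]
      apply prod_nonneg
      intro p hp
      rw [mem_filter, mem_Ioc] at hp
      have : (1 : ℝ) < p := by exact_mod_cast hp.2.one_lt
      have h2 : 1 / (p : ℝ) < 1 := by
        rw [div_lt_one (by linarith)]
        exact this
      linarith
    nlinarith
  have hex : ∃ m, Z ≤ m ∧ 1 / 2 < f m ∧ f (m + 1) ≤ 1 / 2 := by
    by_contra hno
    push Not at hno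
    have hall : ∀ k, 1 / 2 < f (Z + k) := by
      intro k
      induction k with
      | zero =>
        rw [hf]
        simp
        norm_num
      | succ k ih => exact hno (Z + k) (by omega) ih
    have h1 : f (Z + X) ≤ f X := by
      have hsub : (Ioc Z X).filter Nat.Prime ⊆ (Ioc Z (Z + X)).filter Nat.Prime := by
        intro p hp
        rw [mem_filter, mem_Ioc] at hp ⊢
        exact ⟨⟨hp.1.1, by omega⟩, hp.2⟩
      have hnn : ∀ p : ℕ, p.Prime → 0 ≤ 1 - 1 / (p : ℝ) ∧ 1 - 1 / (p : ℝ) ≤ 1 := by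
        intro p hp
        have : (1 : ℝ) < p := by exact_mod_cast hp.one_lt
        have h2 : 1 / (p : ℝ) < 1 := by
          rw [div_lt_one (by linarith)]
          exact this
        have h3 : 0 ≤ 1 / (p : ℝ) := by positivity
        exact ⟨by linarith, by linarith⟩
      have h4 : f (Z + X) = (∏ p ∈ (Ioc Z (Z + X)).filter Nat.Prime \
          (Ioc Z X).filter Nat.Prime, (1 - 1 / (p : ℝ))) * f X := (prod_sdiff hsub).symm
      rw [h4]
      apply mul_le_of_le_one_left
      · exact prod_nonneg fun p hp => (hnn p (mem_filter.mp hp).2).1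
      · apply Finset.prod_le_one
        · intro p hp
          exact (hnn p (mem_filter.mp (mem_sdiff.mp hp).1).2).1
        · intro p hp
          exact (hnn p (mem_filter.mp (mem_sdiff.mp hp).1).2).2
    linarith [hall X]
  obtain ⟨m, hm, h1, h2⟩ := hex
  have hp : (m + 1).Prime := by
    by_contra hnp
    have : (Ioc Z (m + 1)).filter Nat.Prime = (Ioc Z m).filter Nat.Prime := by
      ext p
      rw [mem_filter, mem_filter, mem_Ioc, mem_Ioc]
      constructor
      · rintro ⟨⟨h3, h4⟩, h5⟩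
        refine ⟨⟨h3, ?_⟩, h5⟩
        rcases Nat.lt_or_ge m p with h | h
        · have : p = m + 1 := by omega
          rw [this] at h5
          exact absurd h5 hnp
        · exact h
      · rintro ⟨⟨h3, h4⟩, h5⟩
        exact ⟨⟨h3, by omega⟩, h5⟩
    rw [hf] at h1 h2
    simp only at h1 h2
    rw [this] at h2
    linarith
  have hf2 : f (m + 1) = (1 - 1 / ((m + 1 : ℕ) : ℝ)) * f m := by
    rw [hf]
    simp only
    have : (Ioc Z (m + 1)).filter Nat.Prime = insert (m + 1) ((Ioc Z m).filter Nat.Prime) := by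
      ext p
      rw [mem_insert, mem_filter, mem_filter, mem_Ioc, mem_Ioc]
      constructor
      · rintro ⟨⟨h3, h4⟩, h5⟩
        rcases Nat.lt_or_ge m p with h | h
        · left
          omega
        · right
          exact ⟨⟨h3, h⟩, h5⟩
      · rintro (h3 | ⟨⟨h3, h4⟩, h5⟩)
        · rw [h3]
          exact ⟨⟨by omega, le_refl _⟩, hp⟩
        · exact ⟨⟨h3, by omega⟩, h5⟩
    rw [this, prod_insert]
    rw [mem_filter, mem_Ioc]
    omega
  set s := (Ioc Z m).filter Nat.Prime with hs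
  have hsp : ∀ p ∈ s, p.Prime := fun p hp => (mem_filter.mp hp).2
  have hm0 : (3 : ℝ) ≤ m := by exact_mod_cast hZ.trans hm
  have hθm : 2 * f m - 1 ≤ 1 / m := by
    rw [hf2] at h2
    push_cast at h2
    have h3 : (1 - 1 / ((m : ℝ) + 1)) = m / (m + 1) := by
      field_simp
      ring
    rw [h3, div_mul_eq_mul_div, div_le_div_iff₀ (by linarith) (by norm_num)] at h2
    rw [le_div_iff₀ (by linarith)]
    linarith
  refine ⟨∏ p ∈ s, p, 2 * f m - 1, ⟨?_, by linarith, ?_, ?_⟩, ?_⟩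
  · apply Finset.prod_induction (fun p => p) Odd (fun a b ha hb => ha.mul hb) odd_one
    intro p hp
    rcases (hsp p hp).eq_two_or_odd' with h3 | h3
    · have := (mem_Ioc.mp (mem_filter.mp hp).1).1
      omega
    · exact h3
  · rw [tot_prod s hsp]
    have : ∏ p ∈ s, (1 - 1 / (p : ℝ)) = f m := rfl
    rw [this]
    ring
  · intro p hpp hpd
    obtain ⟨p', hp', hpp'⟩ := (Prime.dvd_finsetProd_iff hpp.prime _).mp hpd
    have hpe : p = p' := (Nat.prime_dvd_prime_iff_eq hpp (hsp p' hp')).mp hpp'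
    rw [← hpe] at hp'
    have h3 := mem_Ioc.mp (mem_filter.mp hp').1
    have h4 : p ≠ m := by
      rintro rfl
      rcases hpp.eq_two_or_odd' with h5 | h5
      · omega
      · rcases hp.eq_two_or_odd' with h6 | h6
        · omega
        · rcases h5 with ⟨a, ha⟩
          rcases h6 with ⟨c, hc⟩
          omega
    have h5 : p + 1 ≤ m := by omega
    have h6 : (p : ℝ) + 1 ≤ m := by exact_mod_cast h5
    have h7 : (p : ℝ) * (2 * f m - 1) ≤ p * (1 / m) := by gcongr
    have h8 : (p : ℝ) * (1 / m) < 1 := by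
      rw [mul_one_div, div_lt_one (by linarith)]
      linarith
    linarith
  · refine hθm.trans ?_
    apply one_div_le_one_div_of_le
    · have : (3 : ℝ) ≤ Z := by exact_mod_cast hZ
      linarith
    · exact_mod_cast hm

/-- the greedy step -/
lemma step : ∃ δ : ℝ, 0 < δ ∧ δ < 1 ∧ ∃ τ : ℝ, 0 < τ ∧ τ < 1 ∧ ∀ (b : ℕ) (θ : ℝ), State b θ → θ ≤ τ →
    ∃ (b' : ℕ) (θ' : ℝ), State b' θ' ∧ θ' ≤ 2 * θ ^ (1 + δ) ∧ θ' < θ ∧ 2 * b ≤ b' ∧
      (b' : ℝ) ≤ b * (4 / θ) := by
  obtain ⟨δ, hδ, hδ1, x₁, hx₁, h⟩ := short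
  have ev : ∀ᶠ x : ℝ in atTop, 3 ≤ x ^ δ := (tendsto_rpow_atTop hδ).eventually_ge_atTop 3
  obtain ⟨x₂, hx₂⟩ := eventually_atTop.mp ev
  refine ⟨δ, hδ, hδ1, 1 / (max x₁ x₂ + 1), ?_, ?_, ?_⟩
  · have : 1 ≤ max x₁ x₂ := hx₁.trans (le_max_left _ _)
    positivity
  · have : 1 ≤ max x₁ x₂ := hx₁.trans (le_max_left _ _)
    rw [div_lt_one (by linarith)]
    linarith
  intro b θ hS hθ
  obtain ⟨hodd, hpos, htot, hfac⟩ := hS
  have hmx : 1 ≤ max x₁ x₂ := hx₁.trans (le_max_left _ _)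
  have hθinv : max x₁ x₂ + 1 ≤ 1 / θ := by
    rw [le_div_iff₀ hpos]
    rw [le_div_iff₀ (by linarith)] at hθ
    linarith
  have hθ1 : θ ≤ 1 / 2 := by
    refine hθ.trans ?_
    apply one_div_le_one_div_of_le (by norm_num)
    linarith
  set x : ℝ := (1 + θ) / θ with hx
  have hxinv : x = 1 / θ + 1 := by
    rw [hx]
    field_simp
  have hx0 : 0 < x := by positivity
  have hxθ : x * θ = 1 + θ := by
    rw [hx]
    field_simp
  have hxx₁ : x₁ ≤ x := by
    rw [hxinv]
    linarith [le_max_left x₁ x₂]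
  have hxx₂ : x₂ ≤ x := by
    rw [hxinv]
    linarith [le_max_right x₁ x₂]
  have hx1 : 1 ≤ x := hx₁.trans hxx₁
  obtain ⟨p, hp, hp1, hp2⟩ := h x hxx₁
  have hp0 : (0 : ℝ) < p := by linarith
  have hxδ : x ^ (1 - δ) ≤ x := by
    calc x ^ (1 - δ) ≤ x ^ (1 : ℝ) := Real.rpow_le_rpow_of_exponent_le hx1 (by linarith)
      _ = x := Real.rpow_one _
  have hpx2 : (p : ℝ) ≤ 2 * x := by linarith
  have hpb : ¬ p ∣ b := by
    intro hd
    have h1 := hfac p hp hd
    have h2 : 1 / θ < p := by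
      rw [hxinv] at hp1
      linarith
    rw [div_lt_iff₀ hpos] at h2
    linarith
  have hcop : b.Coprime p := (Nat.Coprime.symm ((Nat.Prime.coprime_iff_not_dvd hp).mpr hpb))
  set θ' : ℝ := θ - (1 + θ) / p with hθ'
  have hθ'p : θ' * p = (p - x) * θ := by
    rw [hθ']
    have : (1 + θ) / (p : ℝ) * p = 1 + θ := by field_simp
    calc (θ - (1 + θ) / p) * p = θ * p - (1 + θ) / p * p := by ring
      _ = θ * p - x * θ := by rw [this, hxθ]
      _ = (p - x) * θ := by ring
  have hθ'pos : 0 < θ' := by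
    have h1 : 0 < θ' * p := by
      rw [hθ'p]
      apply mul_pos (by linarith) hpos
    exact pos_of_mul_pos_left h1 hp0.le
  have hθ'lt : θ' < θ := by
    have : 0 < (1 + θ) / (p : ℝ) := by positivity
    linarith
  have hb0 : 0 < b := hodd.pos
  refine ⟨b * p, θ', ⟨?_, hθ'pos, ?_, ?_⟩, ?_, hθ'lt, ?_, ?_⟩
  · apply hodd.mul
    rcases hp.eq_two_or_odd' with h3 | h3
    · exfalso
      have h4 : (p : ℝ) = 2 := by exact_mod_cast h3
      have : 2 ≤ 1 / θ := by linarith
      rw [hxinv, h4] at hp1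
      linarith
    · exact h3
  · rw [Nat.totient_mul hcop, Nat.totient_prime hp]
    push_cast [Nat.cast_sub hp.one_lt.le]
    have e1 : (1 + θ') * ((b : ℝ) * p) = (p + θ' * p) * b := by ring
    rw [e1, hθ'p]
    calc 2 * ((Nat.totient b : ℝ) * (p - 1)) = (2 * (Nat.totient b : ℝ)) * (p - 1) := by ring
      _ = ((1 + θ) * b) * (p - 1) := by rw [htot]
      _ = (p + θ * p - (1 + θ)) * b := by ring
      _ = (p + θ * p - x * θ) * b := by rw [hxθ]
      _ = (p + (p - x) * θ) * b := by ring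
  · intro r hr hrd
    rcases (Nat.Prime.dvd_mul hr).mp hrd with h1 | h1
    · have h2 := hfac r hr h1
      have h3 : (r : ℝ) * θ' ≤ r * θ := by gcongr
      linarith
    · have h2 : r = p := (Nat.prime_dvd_prime_iff_eq hr hp).mp h1
      rw [h2, mul_comm, hθ'p]
      have h3 : (p - x) * θ ≤ x ^ (1 - δ) * θ := by
        apply mul_le_mul_of_nonneg_right _ hpos.le
        linarith
      have h4 : x ^ (1 - δ) * x ^ δ = x := by
        rw [← Real.rpow_add hx0]
        have : 1 - δ + δ = 1 := by ring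
        rw [this, Real.rpow_one]
      have h5 : 3 ≤ x ^ δ := hx₂ x hxx₂
      have h6 : x ^ (1 - δ) * 3 ≤ x := by
        calc x ^ (1 - δ) * 3 ≤ x ^ (1 - δ) * x ^ δ := by gcongr
          _ = x := h4
      have h7 : x ^ (1 - δ) * 3 * θ ≤ x * θ := by gcongr
      rw [hxθ] at h7
      linarith
  · -- `θ' ≤ 2 θ ^ (1 + δ)`
    have h1 : θ' ≤ x ^ (1 - δ) * θ / x := by
      rw [le_div_iff₀ hx0]
      calc θ' * x ≤ θ' * p := by gcongr
        _ = (p - x) * θ := hθ'p
        _ ≤ x ^ (1 - δ) * θ := by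
            apply mul_le_mul_of_nonneg_right _ hpos.le
            linarith
    have h2 : x ^ (1 - δ) / x = x ^ (-δ) := by
      rw [show x ^ (1 - δ) / x = x ^ (1 - δ) / x ^ (1 : ℝ) by rw [Real.rpow_one],
        ← Real.rpow_sub hx0]
      congr 1
      ring
    have h3 : x ^ (-δ) ≤ (1 / θ) ^ (-δ) := by
      apply Real.rpow_le_rpow_of_nonpos (by positivity) _ (by linarith)
      rw [hxinv]
      linarith
    have h4 : (1 / θ) ^ (-δ) = θ ^ δ := by
      rw [one_div, Real.inv_rpow hpos.le, Real.rpow_neg hpos.le, inv_inv]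
    calc θ' ≤ x ^ (1 - δ) * θ / x := h1
      _ = θ * (x ^ (1 - δ) / x) := by ring
      _ = θ * x ^ (-δ) := by rw [h2]
      _ ≤ θ * θ ^ δ := by
          apply mul_le_mul_of_nonneg_left _ hpos.le
          rw [← h4]
          exact h3
      _ = θ ^ (1 + δ) := by
          rw [Real.rpow_add hpos, Real.rpow_one]
      _ ≤ 2 * θ ^ (1 + δ) := by
          have : 0 ≤ θ ^ (1 + δ) := by positivity
          linarith
  · have := hp.two_le
    nlinarith
  · push_cast
    apply mul_le_mul_of_nonneg_left _ (Nat.cast_nonneg b)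
    refine hpx2.trans ?_
    rw [hxinv]
    have h1 : 2 ≤ 1 / θ := by linarith
    have h2 : 4 / θ = 4 * (1 / θ) := by ring
    rw [h2]
    linarith

/-- **Odd numbers with `φ(b) / b` close to `1 / 2`.** -/
theorem half : ∃ κ : ℝ, 0 < κ ∧ ∀ B : ℕ, ∃ b : ℕ, B < b ∧ Odd b ∧ ∃ θ : ℝ, 0 < θ ∧
    θ ≤ (b : ℝ) ^ (-κ) ∧ 2 * (Nat.totient b : ℝ) = (1 + θ) * b := by
  obtain ⟨δ, hδ, hδ1, τ, hτ, hτ1, hstep⟩ := step
  -- start with a small `θ`
  set τ' : ℝ := min τ (Real.exp (-(3 / δ))) with hτ'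
  have hτ'0 : 0 < τ' := lt_min hτ (Real.exp_pos _)
  obtain ⟨b₀, θ₀, hS₀, hθ₀⟩ := init (max 3 ⌈1 / τ'⌉₊) (le_max_left _ _)
  have hθ₀τ : θ₀ ≤ τ' := by
    refine hθ₀.trans ?_
    have h1 : 1 / τ' ≤ ((max 3 ⌈1 / τ'⌉₊ : ℕ) : ℝ) := by
      refine (Nat.le_ceil _).trans ?_
      exact_mod_cast le_max_right _ _
    rw [div_le_iff₀ (by
      have : (3 : ℝ) ≤ ((max 3 ⌈1 / τ'⌉₊ : ℕ) : ℝ) := by exact_mod_cast le_max_left _ _
      linarith)]
    rw [div_le_iff₀ hτ'0] at h1
    linarith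
  -- the invariant
  have hlogτ : ∀ θ : ℝ, 0 < θ → θ ≤ τ' → 3 / δ ≤ -Real.log θ := by
    intro θ h0 h1
    have h2 : θ ≤ Real.exp (-(3 / δ)) := h1.trans (min_le_right _ _)
    have h3 := Real.log_le_log h0 h2
    rw [Real.log_exp] at h3
    linarith
  have hℓ₀ := hlogτ θ₀ hS₀.pos hθ₀τ
  have h3δ : 3 < 3 / δ := by
    rw [lt_div_iff₀ hδ]
    linarith
  set A : ℝ := max (2 / δ) (Real.log b₀ / (-Real.log θ₀)) with hA
  have hA2 : 2 / δ ≤ A := le_max_left _ _
  have h2δ : 2 < 2 / δ := by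
    rw [lt_div_iff₀ hδ]
    linarith
  have hA0 : 0 < A := by linarith
  have hb₀A : Real.log b₀ ≤ A * (-Real.log θ₀) := by
    have : Real.log b₀ / (-Real.log θ₀) ≤ A := le_max_right _ _
    rwa [div_le_iff₀ (by linarith)] at this
  have hiter : ∀ k : ℕ, ∃ (b : ℕ) (θ : ℝ), State b θ ∧ θ ≤ τ' ∧ Real.log b ≤ A * (-Real.log θ) ∧
      k < b := by
    intro k
    induction k with
    | zero => exact ⟨b₀, θ₀, hS₀, hθ₀τ, hb₀A, hS₀.odd.pos⟩
    | succ k ih =>
      obtain ⟨b, θ, hS, hθ, hlog, hk⟩ := ih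
      obtain ⟨b', θ', hS', h1, h2, h3, h4⟩ := hstep b θ hS (hθ.trans (min_le_left _ _))
      refine ⟨b', θ', hS', h2.le.trans hθ, ?_, by omega⟩
      have hℓ := hlogτ θ hS.pos hθ
      have hb0 : (0 : ℝ) < b := by exact_mod_cast hS.odd.pos
      have hb'0 : (0 : ℝ) < b' := by exact_mod_cast hS'.odd.pos
      have h5 : Real.log b' ≤ Real.log b + (Real.log 4 - Real.log θ) := by
        have h6 := Real.log_le_log hb'0 h4
        rw [Real.log_mul hb0.ne' (by have := hS.pos; positivity),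
          Real.log_div (by norm_num) hS.pos.ne'] at h6
        exact h6
      have h6 : Real.log θ' ≤ Real.log 2 + (1 + δ) * Real.log θ := by
        have h7 := Real.log_le_log hS'.pos h1
        rw [Real.log_mul (by norm_num) (by have := hS.pos; positivity),
          Real.log_rpow hS.pos] at h7
        exact h7
      have hlog2 : Real.log 2 ≤ 0.7 := by
        have := Real.log_two_lt_d9
        linarith
      have hlog4 : Real.log 4 ≤ 1.4 := by
        have : Real.log 4 = 2 * Real.log 2 := by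
          rw [show (4 : ℝ) = 2 ^ 2 by norm_num, Real.log_pow]
          norm_num
        rw [this]
        linarith
      have hlog2' : 0 < Real.log 2 := Real.log_pos (by norm_num)
      set ℓ : ℝ := -Real.log θ with hℓdef
      -- `A δ ℓ ≥ ℓ + log 4 + A log 2`
      have k1 : 3 ≤ δ * ℓ := by
        rw [div_le_iff₀ hδ] at hℓ
        linarith
      have k2 : 2 ≤ A * δ := by
        rw [div_le_iff₀ hδ] at hA2
        exact hA2
      have hℓ3 : 3 < ℓ := by linarith
      have k3 : ℓ + Real.log 4 + A * Real.log 2 ≤ A * δ * ℓ := by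
        have k4 : 2 * ℓ ≤ A * δ * ℓ := by gcongr
        have k5 : A * 3 ≤ A * (δ * ℓ) := by gcongr
        have k6 : A * Real.log 2 ≤ A * 0.7 := by gcongr
        have k7 : A * (δ * ℓ) = A * δ * ℓ := by ring
        rw [k7] at k5
        linarith
      have k8 : A * ((1 + δ) * ℓ - Real.log 2) ≤ A * (-Real.log θ') := by
        apply mul_le_mul_of_nonneg_left _ hA0.le
        have : (1 + δ) * Real.log θ = -((1 + δ) * ℓ) := by
          rw [hℓdef]
          ring
        rw [this] at h6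
        linarith
      have k9 : Real.log b' ≤ A * ℓ + ℓ + Real.log 4 := by linarith
      have k10 : A * ((1 + δ) * ℓ - Real.log 2) = A * ℓ + A * δ * ℓ - A * Real.log 2 := by ring
      linarith
  refine ⟨1 / A, by positivity, fun B => ?_⟩
  obtain ⟨b, θ, hS, _, hlog, hB⟩ := hiter B
  refine ⟨b, hB, hS.odd, θ, hS.pos, ?_, hS.tot⟩
  have hb0 : (0 : ℝ) < b := by exact_mod_cast hS.odd.pos
  rw [← Real.log_le_log_iff hS.pos (by positivity), Real.log_rpow hb0]
  have h1 : Real.log b * (1 / A) ≤ -Real.log θ := by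
    rw [mul_one_div, div_le_iff₀ hA0]
    linarith
  linarith

end Pool.Agent.R530.Tot
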