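import Mathlib

/-!
# A bit-parallel sieve, evaluated by the kernel

Masks of odd numbers: bit `i` stands for the odd number `2 i + 1`.
-/

set_option autoImplicit false

namespace Pool.Agent.R530.Tug

open Finset

/-- `1 + 2 ^ q + ... + 2 ^ (q (K - 1))` -/
def geo (q K : ℕ) : ℕ := Nat.div (Nat.sub (Nat.pow 2 (Nat.mul q K)) 1) (Nat.sub (Nat.pow 2 q) 1)

/-- union of the masks of odd multiples of `2 k + 3`, `k < n`, from the square on -/
def sv (N n : ℕ) : ℕ :=
  Nat.rec 0 (fun k r => Nat.lor r
    (Nat.shiftLeft (geo (2 * k + 3) (N / (2 * k + 3) + 1)) (2 * k * k + 6 * k + 4))) n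

/-- all ones -/
def ones (N : ℕ) : ℕ := Nat.sub (Nat.pow 2 N) 1

/-- the mask of the odd primes -/
def BB (N n : ℕ) : ℕ := Nat.xor (Nat.land (Nat.lor (sv N n) 1) (ones N)) (ones N)

/-- some bit among the next `d` ones -/
def RR (b d : ℕ) : ℕ := Nat.rec 0 (fun k r => Nat.lor r (Nat.shiftRight b (k + 1))) d

/-- some bit among the previous `d` ones -/
def LL (b d : ℕ) : ℕ := Nat.rec 0 (fun k r => Nat.lor r (Nat.shiftLeft b (k + 1))) d

/-- `x` and not `y` -/
def an (x y : ℕ) : ℕ := Nat.xor x (Nat.land x y)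

/-- bits with the next gap larger than the previous one -/
def UU (b d : ℕ) : ℕ := Nat.rec 0 (fun k u => Nat.lor u
  (an (Nat.land b (Nat.shiftLeft b (k + 1))) (RR b (k + 1)))) d

/-- bits with the next gap equal to the previous one -/
def EE (b d : ℕ) : ℕ := Nat.rec 0 (fun k u => Nat.lor u
  (an (an (Nat.land (Nat.land b (Nat.shiftLeft b (k + 1))) (Nat.shiftRight b (k + 1))) (RR b k))
    (LL b k))) d

/-- population count -/
def pc (K x : ℕ) : ℕ := Nat.rec 0 (fun r s => Nat.add s
  (Nat.mod (Nat.land (Nat.shiftRight x r) (geo 20 K)) 1048575)) (20 : ℕ)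

/-- the mask used -/
def B : ℕ := BB 1833291 957

theorem chk1 : pc 91665 (Nat.land B (ones 1833290)) = 261149 := by decide +kernel

/-- the number compared with the number of steps -/
def tot (b K M : ℕ) : ℕ := Nat.add (Nat.mul 2 (Nat.add (pc K (Nat.land (UU b 74) (ones M))) 1))
    (pc K (Nat.land (EE b 74) (ones M)))

theorem chk2 : tot B 91665 1833290 = 261150 := by decide +kernel

lemma geo_eq (q K : ℕ) (hq : 1 ≤ q) : geo q K = ∑ j ∈ range K, (2 ^ q) ^ j := by
  have h2 : 2 ≤ 2 ^ q := by
    calc 2 = 2 ^ 1 := rfl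
      _ ≤ 2 ^ q := Nat.pow_le_pow_right (by norm_num) hq
  rw [Nat.geomSum_eq h2, ← pow_mul]
  rfl

lemma geo_succ (q K : ℕ) (hq : 1 ≤ q) : geo q (K + 1) = 2 ^ q * geo q K + 1 := by
  rw [geo_eq q K hq, geo_eq q (K + 1) hq, Finset.sum_range_succ', mul_sum, pow_zero]
  congr 1
  apply sum_congr rfl
  intro j _
  rw [pow_succ, mul_comm]

lemma testBit_one' (i : ℕ) : (1 : ℕ).testBit i = decide (i = 0) := by
  cases i with
  | zero => rfl
  | succ n => simp [Nat.testBit_succ]

lemma testBit_geo (q : ℕ) (hq : 1 ≤ q) (K i : ℕ) :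
    (geo q K).testBit i = true ↔ q ∣ i ∧ i < q * K := by
  induction K generalizing i with
  | zero => simp [geo_eq q 0 hq]
  | succ K ih =>
    have h1 : 1 < 2 ^ q := Nat.one_lt_two_pow (by omega)
    rw [geo_succ q K hq, Nat.testBit_two_pow_mul_add _ h1]
    split_ifs with h
    · rw [testBit_one']
      simp only [decide_eq_true_eq]
      constructor
      · rintro rfl
        refine ⟨dvd_zero _, ?_⟩
        positivity
      · rintro ⟨h3, _⟩
        exact Nat.eq_zero_of_dvd_of_lt h3 h
    · rw [ih]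
      push Not at h
      rw [Nat.mul_succ]
      have hd : q ∣ i - q ↔ q ∣ i := by
        constructor
        · intro h3
          have := (Nat.dvd_add_right h3).mpr (dvd_refl q)
          rwa [Nat.sub_add_cancel h] at this
        · intro h3
          exact Nat.dvd_sub h3 (dvd_refl q)
      rw [hd]
      constructor
      · rintro ⟨h3, h4⟩
        exact ⟨h3, by omega⟩
      · rintro ⟨h3, h4⟩
        exact ⟨h3, by omega⟩

lemma testBit_an (x y i : ℕ) : (an x y).testBit i = (x.testBit i && !y.testBit i) := by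
  have : an x y = x ^^^ (x &&& y) := rfl
  rw [this, Nat.testBit_xor, Nat.testBit_and]
  cases x.testBit i <;> cases y.testBit i <;> rfl

lemma testBit_ones (N i : ℕ) : (ones N).testBit i = decide (i < N) := by
  have : ones N = 2 ^ N - 1 := rfl
  rw [this, Nat.testBit_two_pow_sub_one]

lemma RR_succ (b d : ℕ) : RR b (d + 1) = RR b d ||| (b >>> (d + 1)) := rfl

lemma LL_succ (b d : ℕ) : LL b (d + 1) = LL b d ||| (b <<< (d + 1)) := rfl

lemma UU_succ (b d : ℕ) : UU b (d + 1) = UU b d |||
  (an (b &&& (b <<< (d + 1))) (RR b (d + 1))) := rfl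

lemma EE_succ (b d : ℕ) : EE b (d + 1) = EE b d |||
  (an (an ((b &&& (b <<< (d + 1))) &&& (b >>> (d + 1))) (RR b d)) (LL b d)) := rfl

lemma testBit_RR (b d i : ℕ) : (RR b d).testBit i = true ↔
    ∃ e, 1 ≤ e ∧ e ≤ d ∧ b.testBit (i + e) = true := by
  induction d with
  | zero =>
    have : RR b 0 = 0 := rfl
    rw [this]
    simp only [Nat.zero_testBit, Bool.false_eq_true, false_iff]
    rintro ⟨e, h1, h2, _⟩
    omega
  | succ d ih =>
    rw [RR_succ, Nat.testBit_or, Bool.or_eq_true, ih, Nat.testBit_shiftRight]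
    constructor
    · rintro (⟨e, h1, h2, h3⟩ | h)
      · exact ⟨e, h1, by omega, h3⟩
      · exact ⟨d + 1, by omega, le_refl _, by rwa [Nat.add_comm] at h⟩
    · rintro ⟨e, h1, h2, h3⟩
      rcases Nat.lt_or_ge d e with h | h
      · have : e = d + 1 := by omega
        subst this
        right
        rwa [Nat.add_comm]
      · left
        exact ⟨e, h1, h, h3⟩

lemma testBit_LL (b d i : ℕ) : (LL b d).testBit i = true ↔
    ∃ e, 1 ≤ e ∧ e ≤ d ∧ e ≤ i ∧ b.testBit (i - e) = true := by
  induction d with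
  | zero =>
    have : LL b 0 = 0 := rfl
    rw [this]
    simp only [Nat.zero_testBit, Bool.false_eq_true, false_iff]
    rintro ⟨e, h1, h2, _⟩
    omega
  | succ d ih =>
    rw [LL_succ, Nat.testBit_or, Bool.or_eq_true, ih, Nat.testBit_shiftLeft, Bool.and_eq_true,
      decide_eq_true_eq]
    constructor
    · rintro (⟨e, h1, h2, h3, h4⟩ | ⟨h, h'⟩)
      · exact ⟨e, h1, by omega, h3, h4⟩
      · exact ⟨d + 1, by omega, le_refl _, h, h'⟩
    · rintro ⟨e, h1, h2, h3, h4⟩
      rcases Nat.lt_or_ge d e with h | h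
      · have : e = d + 1 := by omega
        subst this
        right
        exact ⟨h3, h4⟩
      · left
        exact ⟨e, h1, h, h3, h4⟩

lemma testBit_UU (b D i : ℕ) (h : (UU b D).testBit i = true) :
    ∃ d, 1 ≤ d ∧ d ≤ D ∧ b.testBit i = true ∧ d ≤ i ∧ b.testBit (i - d) = true ∧
      ∀ e, 1 ≤ e → e ≤ d → ¬ b.testBit (i + e) = true := by
  induction D with
  | zero =>
    have h0 : UU b 0 = 0 := rfl
    rw [h0] at h
    simp at h
  | succ D ih =>
    rw [UU_succ, Nat.testBit_or, Bool.or_eq_true] at h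
    rcases h with h | h
    · obtain ⟨d, h1, h2, h3⟩ := ih h
      exact ⟨d, h1, by omega, h3⟩
    · rw [testBit_an, Nat.testBit_and, Nat.testBit_shiftLeft, Bool.and_eq_true, Bool.and_eq_true,
        Bool.and_eq_true, decide_eq_true_eq, Bool.not_eq_true', Bool.eq_false_iff, Ne,
        testBit_RR] at h
      refine ⟨D + 1, by omega, le_refl _, h.1.1, h.1.2.1, h.1.2.2, ?_⟩
      intro e he1 he2 he3
      exact h.2 ⟨e, he1, he2, he3⟩

lemma testBit_EE (b D i : ℕ) (h : (EE b D).testBit i = true) :
    ∃ d, 1 ≤ d ∧ d ≤ D ∧ b.testBit i = true ∧ d ≤ i ∧ b.testBit (i - d) = true ∧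
      b.testBit (i + d) = true ∧
      (∀ e, 1 ≤ e → e < d → ¬ b.testBit (i + e) = true) ∧
      (∀ e, 1 ≤ e → e < d → e ≤ i → ¬ b.testBit (i - e) = true) := by
  induction D with
  | zero =>
    have h0 : EE b 0 = 0 := rfl
    rw [h0] at h
    simp at h
  | succ D ih =>
    rw [EE_succ, Nat.testBit_or, Bool.or_eq_true] at h
    rcases h with h | h
    · obtain ⟨d, h1, h2, h3⟩ := ih h
      exact ⟨d, h1, by omega, h3⟩
    · rw [testBit_an, testBit_an, Nat.testBit_and, Nat.testBit_and, Nat.testBit_shiftLeft,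
        Nat.testBit_shiftRight, Bool.and_eq_true, Bool.and_eq_true, Bool.and_eq_true,
        Bool.and_eq_true, Bool.and_eq_true, decide_eq_true_eq, Bool.not_eq_true',
        Bool.not_eq_true', Bool.eq_false_iff, Bool.eq_false_iff, Ne, Ne,
        testBit_RR, testBit_LL] at h
      refine ⟨D + 1, by omega, le_refl _, h.1.1.1.1, h.1.1.1.2.1, h.1.1.1.2.2, ?_, ?_, ?_⟩
      · have := h.1.1.2
        rwa [Nat.add_comm] at this
      · intro e he1 he2 he3
        exact h.1.2 ⟨e, he1, by omega, he3⟩
      · intro e he1 he2 he4 he3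
        exact h.2 ⟨e, he1, by omega, he4, he3⟩

/-! ### the sieve -/

lemma sv_succ (N n : ℕ) : sv N (n + 1) = sv N n |||
    ((geo (2 * n + 3) (N / (2 * n + 3) + 1)) <<< (2 * n * n + 6 * n + 4)) := rfl

lemma testBit_sv (N n i : ℕ) (hi : i < N) : (sv N n).testBit i = true ↔
    ∃ k, k < n ∧ (2 * k + 3) ∣ (2 * i + 1) ∧ (2 * k + 3) * (2 * k + 3) ≤ 2 * i + 1 := by
  induction n with
  | zero =>
    have : sv N 0 = 0 := rfl
    rw [this]
    simp
  | succ n ih =>
    rw [sv_succ, Nat.testBit_or, Bool.or_eq_true, ih, Nat.testBit_shiftLeft, Bool.and_eq_true,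
      decide_eq_true_eq, testBit_geo _ (by omega)]
    have hlt : i < (2 * n + 3) * (N / (2 * n + 3) + 1) := by
      have h1 := Nat.div_add_mod N (2 * n + 3)
      have h2 := Nat.mod_lt N (show 0 < 2 * n + 3 by omega)
      rw [Nat.mul_add, Nat.mul_one]
      omega
    have hkey : (i ≥ 2 * n * n + 6 * n + 4 ∧ (2 * n + 3) ∣ (i - (2 * n * n + 6 * n + 4)) ∧
        i - (2 * n * n + 6 * n + 4) < (2 * n + 3) * (N / (2 * n + 3) + 1)) ↔
        ((2 * n + 3) ∣ (2 * i + 1) ∧ (2 * n + 3) * (2 * n + 3) ≤ 2 * i + 1) := by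
      have hsq : (2 * n + 3) * (2 * n + 3) = 2 * (2 * n * n + 6 * n + 4) + 1 := by ring
      constructor
      · rintro ⟨h1, h2, h3⟩
        refine ⟨?_, by omega⟩
        have h4 : 2 * i + 1 = 2 * (i - (2 * n * n + 6 * n + 4)) + (2 * n + 3) * (2 * n + 3) := by
          omega
        rw [h4]
        exact dvd_add (Dvd.dvd.mul_left h2 2) (dvd_mul_right _ _)
      · rintro ⟨h1, h2⟩
        refine ⟨by omega, ?_, by omega⟩
        have h4 : 2 * (i - (2 * n * n + 6 * n + 4)) = (2 * i + 1) - (2 * n + 3) * (2 * n + 3) := by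
          omega
        have h5 : (2 * n + 3) ∣ 2 * (i - (2 * n * n + 6 * n + 4)) := by
          rw [h4]
          exact Nat.dvd_sub h1 (dvd_mul_right _ _)
        refine Nat.Coprime.dvd_of_dvd_mul_left ?_ h5
        rw [Nat.coprime_comm, Nat.coprime_two_left]
        exact ⟨n + 1, by ring⟩
    constructor
    · rintro (⟨k, h1, h2, h3⟩ | h)
      · exact ⟨k, by omega, h2, h3⟩
      · obtain ⟨h1, h2⟩ := hkey.mp h
        exact ⟨n, by omega, h1, h2⟩
    · rintro ⟨k, h1, h2, h3⟩
      rcases Nat.lt_or_ge k n with h | h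
      · left
        exact ⟨k, h, h2, h3⟩
      · have : k = n := by omega
        subst this
        right
        exact hkey.mpr ⟨h2, h3⟩

lemma testBit_BB (N n i : ℕ) (hi : i < N) (hN : 2 * N ≤ (2 * n + 3) * (2 * n + 3)) :
    (BB N n).testBit i = true ↔ (2 * i + 1).Prime := by
  have h0 : BB N n = ((sv N n ||| 1) &&& ones N) ^^^ ones N := rfl
  have h1 : (BB N n).testBit i = !((sv N n).testBit i || (1 : ℕ).testBit i) := by
    rw [h0, Nat.testBit_xor, Nat.testBit_and, Nat.testBit_or, testBit_ones, decide_eq_true hi]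
    cases (sv N n).testBit i <;> cases (1 : ℕ).testBit i <;> rfl
  rw [h1, Bool.not_eq_true', Bool.eq_false_iff, Ne, Bool.or_eq_true, testBit_sv N n i hi,
    testBit_one', decide_eq_true_eq]
  constructor
  · intro h
    push Not at h
    obtain ⟨h2, h3⟩ := h
    by_contra hnp
    set q := (2 * i + 1).minFac with hq
    have hqd : q ∣ 2 * i + 1 := Nat.minFac_dvd _
    have hqp : q.Prime := Nat.minFac_prime (by omega)
    have hqs : q ^ 2 ≤ 2 * i + 1 := Nat.minFac_sq_le_self (by omega) hnp
    have hqo : q % 2 = 1 := by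
      rcases Nat.Prime.eq_two_or_odd hqp with h | h
      · rw [h] at hqd
        omega
      · exact h
    have hq3 : 3 ≤ q := by
      have := hqp.two_le
      omega
    obtain ⟨k, hk⟩ : ∃ k, q = 2 * k + 3 := ⟨(q - 3) / 2, by omega⟩
    rw [hk] at hqd hqs
    rw [sq] at hqs
    have hkn : k < n := by
      by_contra hge
      push Not at hge
      have : (2 * n + 3) * (2 * n + 3) ≤ (2 * k + 3) * (2 * k + 3) := by
        apply Nat.mul_le_mul <;> omega
      omega
    have := h2 k hkn hqd
    omega
  · intro hp h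
    rcases h with ⟨k, _, h2, h3⟩ | h
    · rcases (Nat.dvd_prime hp).mp h2 with h4 | h4
      · omega
      · rw [← h4] at h3
        nlinarith
    · subst h
      exact absurd hp (by norm_num)

/-! ### population count -/

lemma cnt_geo (K : ℕ) (y : ℕ) :
    (y &&& geo 20 K) ≡ ∑ j ∈ range K, (y.testBit (20 * j)).toNat [MOD 1048575] := by
  induction K generalizing y with
  | zero =>
    rw [geo_eq 20 0 (by norm_num)]
    simp
    rfl
  | succ K ih =>
    have hy : y &&& geo 20 (K + 1) = 2 ^ 20 * ((y >>> 20) &&& geo 20 K) + (y.testBit 0).toNat := by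
      apply Nat.eq_of_testBit_eq
      intro i
      have hb : (y.testBit 0).toNat < 2 ^ 20 := by
        cases y.testBit 0 <;> simp
      rw [Nat.testBit_and, geo_succ 20 K (by norm_num),
        Nat.testBit_two_pow_mul_add _ (by norm_num : 1 < 2 ^ 20),
        Nat.testBit_two_pow_mul_add _ hb]
      split_ifs with h
      · rw [testBit_one']
        rcases Nat.eq_zero_or_pos i with h0 | h0
        · subst h0
          cases y.testBit 0 <;> simp
        · have : decide (i = 0) = false := decide_eq_false (by omega)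
          rw [this, Bool.and_false]
          cases y.testBit 0
          · simp
          · simp [testBit_one', h0.ne']
      · push Not at h
        rw [Nat.testBit_and, Nat.testBit_shiftRight]
        congr 2
        omega
    rw [hy, Finset.sum_range_succ']
    have h1 : 2 ^ 20 * ((y >>> 20) &&& geo 20 K) ≡
        1 * ∑ j ∈ range K, ((y >>> 20).testBit (20 * j)).toNat [MOD 1048575] := by
      apply Nat.ModEq.mul
      · decide
      · exact ih (y >>> 20)
    rw [one_mul] at h1
    have h2 : ∑ j ∈ range K, ((y >>> 20).testBit (20 * j)).toNat =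
        ∑ j ∈ range K, (y.testBit (20 * (j + 1))).toNat := by
      apply sum_congr rfl
      intro j _
      rw [Nat.testBit_shiftRight]
      congr 2
      ring
    rw [h2] at h1
    exact h1.add_right _

lemma pc_eq (K x : ℕ) (hK : K < 1048575) :
    pc K x = ((range (20 * K)).filter (fun i => x.testBit i = true)).card := by
  have hr : ∀ r, ((x >>> r) &&& geo 20 K) % 1048575 =
      ∑ j ∈ range K, (x.testBit (20 * j + r)).toNat := by
    intro r
    have h1 := cnt_geo K (x >>> r)
    have h2 : ∑ j ∈ range K, ((x >>> r).testBit (20 * j)).toNat =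
        ∑ j ∈ range K, (x.testBit (20 * j + r)).toNat := by
      apply sum_congr rfl
      intro j _
      rw [Nat.testBit_shiftRight, Nat.add_comm]
    rw [h2] at h1
    have h3 : ∑ j ∈ range K, (x.testBit (20 * j + r)).toNat ≤ K := by
      calc ∑ j ∈ range K, (x.testBit (20 * j + r)).toNat ≤ ∑ j ∈ range K, 1 := by
            apply sum_le_sum
            intro j _
            exact Bool.toNat_le _
        _ = K := by simp
    have h4 : (∑ j ∈ range K, (x.testBit (20 * j + r)).toNat) % 1048575 =
      ∑ j ∈ range K, (x.testBit (20 * j + r)).toNat := Nat.mod_eq_of_lt (by omega)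
    rw [← h4]
    exact h1
  have hpc : pc K x = ∑ r ∈ range 20, ∑ j ∈ range K, (x.testBit (20 * j + r)).toNat := by
    have : pc K x = ∑ r ∈ range 20, ((x >>> r) &&& geo 20 K) % 1048575 := by
      rw [Finset.sum_range_succ, Finset.sum_range_succ, Finset.sum_range_succ,
        Finset.sum_range_succ, Finset.sum_range_succ, Finset.sum_range_succ,
        Finset.sum_range_succ, Finset.sum_range_succ, Finset.sum_range_succ,
        Finset.sum_range_succ, Finset.sum_range_succ, Finset.sum_range_succ,
        Finset.sum_range_succ, Finset.sum_range_succ, Finset.sum_range_succ,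
        Finset.sum_range_succ, Finset.sum_range_succ, Finset.sum_range_succ,
        Finset.sum_range_succ, Finset.sum_range_succ, Finset.sum_range_zero]
      rfl
    rw [this]
    exact sum_congr rfl (fun r _ => hr r)
  rw [hpc, Finset.sum_comm]
  have hall : ∀ K, ∑ j ∈ range K, ∑ r ∈ range 20, (x.testBit (20 * j + r)).toNat =
      ∑ i ∈ range (20 * K), (x.testBit i).toNat := by
    intro K
    induction K with
    | zero => simp
    | succ K ih => rw [Finset.sum_range_succ, ih, Nat.mul_succ, Finset.sum_range_add]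
  rw [hall, Finset.card_filter]
  apply sum_congr rfl
  intro i _
  cases x.testBit i <;> simp

/-- the masks restricted to the indices below `M` -/
lemma pc_mask (K M x : ℕ) (hK : K < 1048575) (hM : M ≤ 20 * K) : pc K (Nat.land x (ones M)) =
    ((range M).filter (fun i => x.testBit i = true)).card := by
  rw [pc_eq K _ hK]
  apply congrArg
  ext i
  have h : Nat.land x (ones M) = x &&& ones M := rfl
  rw [mem_filter, mem_filter, mem_range, mem_range, h, Nat.testBit_and, testBit_ones,
    Bool.and_eq_true, decide_eq_true_eq]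
  constructor
  · rintro ⟨h1, h2, h3⟩
    exact ⟨h3, h2⟩
  · rintro ⟨h1, h2⟩
    exact ⟨by omega, h2, h1⟩

lemma card_B (M : ℕ) (hM : M = 1833290) :
    ((range M).filter (fun i => B.testBit i = true)).card = 261149 := by
  have h1 := pc_mask 91665 M B (by norm_num) (by omega)
  rw [← h1]
  have h2 := chk1
  rw [hM]
  exact h2

lemma card_UE (M : ℕ) (hM : M = 1833290) :
    2 * (((range M).filter (fun i => (UU B 74).testBit i = true)).card + 1) +
    ((range M).filter (fun i => (EE B 74).testBit i = true)).card = 261150 := by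
  have h1 := pc_mask 91665 M (UU B 74) (by norm_num) (by omega)
  have h1' := pc_mask 91665 M (EE B 74) (by norm_num) (by omega)
  rw [← h1, ← h1']
  have h2 : tot B 91665 1833290 = 261150 := chk2
  rw [← hM] at h2
  have h3 : ∀ b K M : ℕ, tot b K M = 2 * (pc K (Nat.land (UU b 74) (ones M)) + 1) +
    pc K (Nat.land (EE b 74) (ones M)) := fun b K M => rfl
  rw [← h2, h3]

end Pool.Agent.R530.Tug
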