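import Mathlib

/-!
Finite-dimensional facts on the Master Equations of a variance profile: positivity, uniqueness of
the positive solution, injectivity of the linearisation, a Collatz-Wielandt bound.
-/

open Finset

namespace Pool.Agent.R530.VP

variable {n : ℕ}

/-- `(Vᵀ q)_i`. -/
def av (V : Matrix (Fin n) (Fin n) ℝ) (q : Fin n → ℝ) (i : Fin n) : ℝ := ∑ j, V j i * q j

/-- `(V p)_i`. -/
def bv (V : Matrix (Fin n) (Fin n) ℝ) (p : Fin n → ℝ) (i : Fin n) : ℝ := ∑ j, V i j * p j

/-- `V` is entrywise nonnegative and its digraph is strongly connected. -/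
structure Good (V : Matrix (Fin n) (Fin n) ℝ) : Prop where
  nonneg : ∀ i j, 0 ≤ V i j
  irr : ∀ i j, Relation.ReflTransGen (fun x y => 0 < V x y) i j

/-- the spectral radius of a real square matrix (over the complex numbers), as a real number -/
noncomputable def specRad (V : Matrix (Fin n) (Fin n) ℝ) : ℝ :=
  (spectralRadius ℂ (V.map (fun x : ℝ => (x : ℂ)))).toReal

/-- `(q, p)` solves the Master Equations at `s`. -/
structure IsSol (V : Matrix (Fin n) (Fin n) ℝ) (s : ℝ) (q p : Fin n → ℝ) : Prop where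
  q_nonneg : ∀ i, 0 ≤ q i
  p_nonneg : ∀ i, 0 ≤ p i
  eq_q : ∀ i, q i = av V q i / (s ^ 2 + bv V p i * av V q i)
  eq_p : ∀ i, p i = bv V p i / (s ^ 2 + bv V p i * av V q i)
  sum_eq : ∑ i, q i = ∑ i, p i

theorem av_transpose (V : Matrix (Fin n) (Fin n) ℝ) (q : Fin n → ℝ) :
    av V.transpose q = bv V q := rfl

theorem bv_transpose (V : Matrix (Fin n) (Fin n) ℝ) (q : Fin n → ℝ) :
    bv V.transpose q = av V q := rfl

theorem Good.transpose {V : Matrix (Fin n) (Fin n) ℝ} (h : Good V) : Good V.transpose where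
  nonneg := fun i j => h.nonneg j i
  irr := fun i j => by
    have := h.irr j i
    have h2 : Relation.ReflTransGen (Function.swap fun x y => 0 < V x y) i j :=
      Relation.reflTransGen_swap.mpr this
    exact h2

theorem IsSol.symm {V : Matrix (Fin n) (Fin n) ℝ} {s : ℝ} {q p : Fin n → ℝ}
    (h : IsSol V s q p) : IsSol V.transpose s p q where
  q_nonneg := h.p_nonneg
  p_nonneg := h.q_nonneg
  eq_q := fun i => by
    rw [av_transpose, bv_transpose, mul_comm (av V q i)]
    exact h.eq_p i
  eq_p := fun i => by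
    rw [av_transpose, bv_transpose, mul_comm (av V q i)]
    exact h.eq_q i
  sum_eq := h.sum_eq.symm

theorem av_nonneg {V : Matrix (Fin n) (Fin n) ℝ} (h : Good V) {q : Fin n → ℝ}
    (hq : ∀ i, 0 ≤ q i) (i : Fin n) : 0 ≤ av V q i :=
  Finset.sum_nonneg fun j _ => mul_nonneg (h.nonneg j i) (hq j)

theorem bv_nonneg {V : Matrix (Fin n) (Fin n) ℝ} (h : Good V) {q : Fin n → ℝ}
    (hq : ∀ i, 0 ≤ q i) (i : Fin n) : 0 ≤ bv V q i :=
  Finset.sum_nonneg fun j _ => mul_nonneg (h.nonneg i j) (hq j)

/-- Vanishing of `(Vᵀ w)_i` forces `w` to vanish at in-neighbours. -/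
theorem av_zero {V : Matrix (Fin n) (Fin n) ℝ} (h : Good V) {w : Fin n → ℝ}
    (hw : ∀ i, 0 ≤ w i) {i : Fin n} (h0 : av V w i = 0) {j : Fin n} (hj : 0 < V j i) :
    w j = 0 := by
  have h1 : V j i * w j = 0 :=
    (Finset.sum_eq_zero_iff_of_nonneg (fun k _ => mul_nonneg (h.nonneg k i) (hw k))).1 h0 j
      (Finset.mem_univ j)
  rcases mul_eq_zero.1 h1 with h2 | h2
  · exact absurd h2 hj.ne'
  · exact h2

/-- backward induction along edges -/
theorem back_closed {V : Matrix (Fin n) (Fin n) ℝ} (h : Good V) (P : Fin n → Prop) {i0 : Fin n}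
    (h0 : P i0) (hstep : ∀ i j, 0 < V j i → P i → P j) (i : Fin n) : P i := by
  have hp := h.irr i i0
  induction hp using Relation.ReflTransGen.head_induction_on with
  | refl => exact h0
  | head hab _ ih => exact hstep _ _ hab ih

theorem fwd_closed {V : Matrix (Fin n) (Fin n) ℝ} (h : Good V) (P : Fin n → Prop) {i0 : Fin n}
    (h0 : P i0) (hstep : ∀ i j, 0 < V i j → P i → P j) (i : Fin n) : P i :=
  back_closed h.transpose P h0 (fun i j hij hi => hstep i j hij hi) i

/-- a nonzero `q` in a solution is entrywise positive -/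
theorem IsSol.q_pos {V : Matrix (Fin n) (Fin n) ℝ} (h : Good V) {s : ℝ} (hs : 0 < s)
    {q p : Fin n → ℝ} (hS : IsSol V s q p) (hq : q ≠ 0) : ∀ i, 0 < q i := by
  obtain ⟨i0, hi0⟩ : ∃ i0, q i0 ≠ 0 := by
    by_contra hcon
    push Not at hcon
    exact hq (funext hcon)
  refine fwd_closed h (fun i => 0 < q i) (lt_of_le_of_ne (hS.q_nonneg i0) (Ne.symm hi0)) ?_
  intro i j hij hi
  show 0 < q j
  rw [hS.eq_q j]
  have ha : 0 < av V q j := by
    have : V i j * q i ≤ av V q j :=
      Finset.single_le_sum (f := fun k => V k j * q k)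
        (fun k _ => mul_nonneg (h.nonneg k j) (hS.q_nonneg k)) (Finset.mem_univ i)
    exact lt_of_lt_of_le (mul_pos hij hi) this
  have hb := bv_nonneg h hS.p_nonneg j
  have : 0 < s ^ 2 + bv V p j * av V q j := by positivity
  positivity

/-- a nonzero solution is entrywise positive -/
theorem IsSol.pos {V : Matrix (Fin n) (Fin n) ℝ} (h : Good V) {s : ℝ} (hs : 0 < s)
    {q p : Fin n → ℝ} (hS : IsSol V s q p) (hne : ¬ (q = 0 ∧ p = 0)) :
    (∀ i, 0 < q i) ∧ ∀ i, 0 < p i := by
  have key : q = 0 ↔ p = 0 := by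
    constructor
    · intro hq
      have : ∑ i, p i = 0 := by rw [← hS.sum_eq, hq]; simp
      funext i
      exact (Finset.sum_eq_zero_iff_of_nonneg (fun k _ => hS.p_nonneg k)).1 this i
        (Finset.mem_univ i)
    · intro hq
      have : ∑ i, q i = 0 := by rw [hS.sum_eq, hq]; simp
      funext i
      exact (Finset.sum_eq_zero_iff_of_nonneg (fun k _ => hS.q_nonneg k)).1 this i
        (Finset.mem_univ i)
  have hq : q ≠ 0 := fun hq => hne ⟨hq, key.1 hq⟩
  have hp : p ≠ 0 := fun hp => hne ⟨key.2 hp, hp⟩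
  exact ⟨hS.q_pos h hs hq, hS.symm.q_pos h.transpose hs hp⟩

/-- cross-multiplied data of a positive solution -/
theorem IsSol.facts {V : Matrix (Fin n) (Fin n) ℝ} (h : Good V) {s : ℝ} (hs : 0 < s)
    {q p : Fin n → ℝ} (hS : IsSol V s q p) (hq : ∀ i, 0 < q i) (hp : ∀ i, 0 < p i) (i : Fin n) :
    0 < av V q i ∧ 0 < bv V p i ∧ 0 < s ^ 2 + bv V p i * av V q i ∧
      q i * (s ^ 2 + bv V p i * av V q i) = av V q i ∧
      p i * (s ^ 2 + bv V p i * av V q i) = bv V p i := by
  have ha := av_nonneg h hS.q_nonneg i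
  have hb := bv_nonneg h hS.p_nonneg i
  have hD : 0 < s ^ 2 + bv V p i * av V q i := by positivity
  have e1 : q i * (s ^ 2 + bv V p i * av V q i) = av V q i := by
    have := hS.eq_q i
    rw [eq_div_iff hD.ne'] at this
    exact this
  have e2 : p i * (s ^ 2 + bv V p i * av V q i) = bv V p i := by
    have := hS.eq_p i
    rw [eq_div_iff hD.ne'] at this
    exact this
  refine ⟨?_, ?_, hD, e1, e2⟩
  · rw [← e1]; exact mul_pos (hq i) hD
  · rw [← e2]; exact mul_pos (hp i) hD

/-- Uniqueness of the positive solution. -/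
theorem IsSol.unique {V : Matrix (Fin n) (Fin n) ℝ} (h : Good V) {s : ℝ} (hs : 0 < s)
    {q p q2 p2 : Fin n → ℝ} (hS : IsSol V s q p) (hq : ∀ i, 0 < q i) (hp : ∀ i, 0 < p i)
    (hS2 : IsSol V s q2 p2) (hq2 : ∀ i, 0 < q2 i) (hp2 : ∀ i, 0 < p2 i) :
    q2 = q ∧ p2 = p := by
  rcases isEmpty_or_nonempty (Fin n) with hemp | hne
  · exact ⟨funext fun i => (hemp.false i).elim, funext fun i => (hemp.false i).elim⟩
  obtain ⟨i0, hi0⟩ := Finite.exists_max (fun i => q2 i / q i)
  obtain ⟨j0, hj0⟩ := Finite.exists_min (fun i => p2 i / p i)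
  set α := q2 i0 / q i0 with hα
  set β := p2 j0 / p j0 with hβ
  have hαpos : 0 < α := div_pos (hq2 _) (hq _)
  have hβpos : 0 < β := div_pos (hp2 _) (hp _)
  have hle : ∀ i, q2 i ≤ α * q i := fun i => (div_le_iff₀ (hq i)).1 (hi0 i)
  have hge : ∀ i, β * p i ≤ p2 i := fun i => (le_div_iff₀ (hp i)).1 (hj0 i)
  have haa : ∀ i, av V q2 i ≤ α * av V q i := by
    intro i
    unfold av
    rw [Finset.mul_sum]
    refine Finset.sum_le_sum fun j _ => ?_
    have := mul_le_mul_of_nonneg_left (hle j) (h.nonneg j i)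
    linarith
  have hbb : ∀ i, β * bv V p i ≤ bv V p2 i := by
    intro i
    unfold bv
    rw [Finset.mul_sum]
    refine Finset.sum_le_sum fun j _ => ?_
    have := mul_le_mul_of_nonneg_left (hge j) (h.nonneg i j)
    linarith
  -- the identity at a contact point
  have hcontact : ∀ i, q2 i = α * q i →
      s ^ 2 * (α * av V q i - av V q2 i)
        + av V q i * av V q2 i * (α * bv V p2 i - bv V p i) = 0 := by
    intro i hi
    obtain ⟨hA, hB, hD, e1, e2⟩ := hS.facts h hs hq hp i
    obtain ⟨hA2, hB2, hD2, e12, e22⟩ := hS2.facts h hs hq2 hp2 i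
    rw [hi] at e12
    have : α * av V q i * (s ^ 2 + bv V p2 i * av V q2 i)
        = av V q2 i * (s ^ 2 + bv V p i * av V q i) := by
      calc α * av V q i * (s ^ 2 + bv V p2 i * av V q2 i)
          = α * (q i * (s ^ 2 + bv V p i * av V q i)) * (s ^ 2 + bv V p2 i * av V q2 i) := by
            rw [e1]
        _ = (α * q i * (s ^ 2 + bv V p2 i * av V q2 i)) * (s ^ 2 + bv V p i * av V q i) := by
            ring
        _ = _ := by rw [e12]
    linarith
  have hab1 : α * β ≤ 1 := by
    have hi : q2 i0 = α * q i0 := by rw [hα, div_mul_cancel₀ _ (hq i0).ne']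
    have hc := hcontact i0 hi
    obtain ⟨hA, hB, hD, e1, e2⟩ := hS.facts h hs hq hp i0
    obtain ⟨hA2, hB2, hD2, e12, e22⟩ := hS2.facts h hs hq2 hp2 i0
    have h1 : 0 ≤ s ^ 2 * (α * av V q i0 - av V q2 i0) :=
      mul_nonneg (by positivity) (sub_nonneg.2 (haa i0))
    have h2 : av V q i0 * av V q2 i0 * (α * bv V p2 i0 - bv V p i0) ≤ 0 := by linarith
    have h3 : α * bv V p2 i0 - bv V p i0 ≤ 0 := by
      by_contra hcon
      push Not at hcon
      have : 0 < av V q i0 * av V q2 i0 * (α * bv V p2 i0 - bv V p i0) := by positivity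
      linarith
    have h4 : α * (β * bv V p i0) ≤ α * bv V p2 i0 :=
      mul_le_mul_of_nonneg_left (hbb i0) hαpos.le
    have h5 : α * β * bv V p i0 ≤ 1 * bv V p i0 := by linarith
    exact le_of_mul_le_mul_right h5 hB
  have hab2 : 1 ≤ α * β := by
    have hi : p2 j0 = β * p j0 := by rw [hβ, div_mul_cancel₀ _ (hp j0).ne']
    obtain ⟨hA, hB, hD, e1, e2⟩ := hS.facts h hs hq hp j0
    obtain ⟨hA2, hB2, hD2, e12, e22⟩ := hS2.facts h hs hq2 hp2 j0
    rw [hi] at e22
    have hc : β * bv V p j0 * (s ^ 2 + bv V p2 j0 * av V q2 j0)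
        = bv V p2 j0 * (s ^ 2 + bv V p j0 * av V q j0) := by
      calc β * bv V p j0 * (s ^ 2 + bv V p2 j0 * av V q2 j0)
          = β * (p j0 * (s ^ 2 + bv V p j0 * av V q j0)) * (s ^ 2 + bv V p2 j0 * av V q2 j0) := by
            rw [e2]
        _ = (β * p j0 * (s ^ 2 + bv V p2 j0 * av V q2 j0)) * (s ^ 2 + bv V p j0 * av V q j0) := by
            ring
        _ = _ := by rw [e22]
    have hc2 : s ^ 2 * (bv V p2 j0 - β * bv V p j0)
        + bv V p j0 * bv V p2 j0 * (av V q j0 - β * av V q2 j0) = 0 := by linarith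
    have h1 : 0 ≤ s ^ 2 * (bv V p2 j0 - β * bv V p j0) :=
      mul_nonneg (by positivity) (sub_nonneg.2 (hbb j0))
    have h3 : av V q j0 - β * av V q2 j0 ≤ 0 := by
      by_contra hcon
      push Not at hcon
      have : 0 < bv V p j0 * bv V p2 j0 * (av V q j0 - β * av V q2 j0) := by positivity
      linarith
    have h4 : β * av V q2 j0 ≤ β * (α * av V q j0) :=
      mul_le_mul_of_nonneg_left (haa j0) hβpos.le
    have h5 : 1 * av V q j0 ≤ α * β * av V q j0 := by linarith
    exact le_of_mul_le_mul_right h5 hA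
  have hab : α * β = 1 := le_antisymm hab1 hab2
  -- contact points
  have hcon2 : ∀ i, q2 i = α * q i → av V q2 i = α * av V q i ∧ bv V p2 i = β * bv V p i := by
    intro i hi
    have hc := hcontact i hi
    obtain ⟨hA, hB, hD, e1, e2⟩ := hS.facts h hs hq hp i
    obtain ⟨hA2, hB2, hD2, e12, e22⟩ := hS2.facts h hs hq2 hp2 i
    have h1 : 0 ≤ s ^ 2 * (α * av V q i - av V q2 i) :=
      mul_nonneg (by positivity) (sub_nonneg.2 (haa i))
    have h4 : α * (β * bv V p i) ≤ α * bv V p2 i :=
      mul_le_mul_of_nonneg_left (hbb i) hαpos.le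
    have h5 : 0 ≤ α * bv V p2 i - bv V p i := by
      have : α * (β * bv V p i) = bv V p i := by rw [← mul_assoc, hab, one_mul]
      linarith
    have h6 : 0 ≤ av V q i * av V q2 i * (α * bv V p2 i - bv V p i) := by positivity
    have h7 : s ^ 2 * (α * av V q i - av V q2 i) = 0 := by linarith
    have h8 : av V q i * av V q2 i * (α * bv V p2 i - bv V p i) = 0 := by linarith
    have h9 : α * av V q i - av V q2 i = 0 := by
      rcases mul_eq_zero.1 h7 with h | h
      · exact absurd h (by positivity)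
      · exact h
    have h10 : α * bv V p2 i - bv V p i = 0 := by
      rcases mul_eq_zero.1 h8 with h | h
      · exact absurd h (by positivity)
      · exact h
    refine ⟨by linarith, ?_⟩
    have : β * (α * bv V p2 i) = β * bv V p i := by rw [sub_eq_zero.1 h10]
    have h11 : β * (α * bv V p2 i) = bv V p2 i := by
      rw [← mul_assoc, mul_comm β α, hab, one_mul]
    linarith
  have hall : ∀ i, q2 i = α * q i := by
    refine back_closed h (fun i => q2 i = α * q i)
      (by rw [hα, div_mul_cancel₀ _ (hq i0).ne'] : q2 i0 = α * q i0) ?_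
    intro i j hji hi
    have hA := (hcon2 i hi).1
    have hw : ∀ k, 0 ≤ α * q k - q2 k := fun k => sub_nonneg.2 (hle k)
    have h0 : av V (fun k => α * q k - q2 k) i = 0 := by
      unfold av at hA ⊢
      have : ∑ k, V k i * (α * q k - q2 k) = α * ∑ k, V k i * q k - ∑ k, V k i * q2 k := by
        rw [Finset.mul_sum, ← Finset.sum_sub_distrib]
        refine Finset.sum_congr rfl fun k _ => by ring
      rw [this, hA]
      ring
    have := av_zero h hw h0 hji
    show q2 j = α * q j
    linarith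
  have hall2 : ∀ i, p2 i = β * p i := by
    intro i
    obtain ⟨hA, hB, hD, e1, e2⟩ := hS.facts h hs hq hp i
    have := hS2.eq_p i
    rw [(hcon2 i (hall i)).1, (hcon2 i (hall i)).2] at this
    rw [this]
    have h1 : β * bv V p i * (α * av V q i) = bv V p i * av V q i := by
      calc β * bv V p i * (α * av V q i) = (α * β) * (bv V p i * av V q i) := by ring
        _ = _ := by rw [hab, one_mul]
    rw [h1, div_eq_iff hD.ne']
    linear_combination (-β) * e2
  have hsum : α * ∑ i, q i = β * ∑ i, q i := by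
    have h1 : ∑ i, q2 i = α * ∑ i, q i := by
      rw [Finset.mul_sum]; exact Finset.sum_congr rfl fun i _ => hall i
    have h2 : ∑ i, p2 i = β * ∑ i, p i := by
      rw [Finset.mul_sum]; exact Finset.sum_congr rfl fun i _ => hall2 i
    rw [← h1, hS2.sum_eq, h2, hS.sum_eq]
  have hSpos : 0 < ∑ i, q i := Finset.sum_pos (fun i _ => hq i) Finset.univ_nonempty
  have hαβ : α = β := mul_right_cancel₀ hSpos.ne' hsum
  have hα1 : α = 1 := by
    have h1 : α * α = 1 := by rw [← hαβ] at hab; exact hab
    nlinarith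
  have hβ1 : β = 1 := by rw [← hαβ]; exact hα1
  exact ⟨funext fun i => by rw [hall i, hα1, one_mul], funext fun i => by rw [hall2 i, hβ1, one_mul]⟩

/-- Fixed vectors of the linearised map are multiples of the solution. -/
theorem fixed_multiple {V : Matrix (Fin n) (Fin n) ℝ} (h : Good V) {s : ℝ} (hs : 0 < s)
    {q p : Fin n → ℝ} (hS : IsSol V s q p) (hq : ∀ i, 0 < q i) (hp : ∀ i, 0 < p i)
    {x y : Fin n → ℝ}
    (hx : ∀ i, (s ^ 2 + bv V p i * av V q i) ^ 2 * x i
      = s ^ 2 * av V x i + (av V q i) ^ 2 * bv V y i)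
    (hy : ∀ i, (s ^ 2 + bv V p i * av V q i) ^ 2 * y i
      = s ^ 2 * bv V y i + (bv V p i) ^ 2 * av V x i) :
    ∃ c : ℝ, (∀ i, x i = c * q i) ∧ ∀ i, y i = c * p i := by
  rcases isEmpty_or_nonempty (Fin n) with hemp | hne
  · exact ⟨0, fun i => (hemp.false i).elim, fun i => (hemp.false i).elim⟩
  obtain ⟨i0, hi0⟩ := Finite.exists_max (fun i => x i / q i)
  obtain ⟨j0, hj0⟩ := Finite.exists_max (fun i => y i / p i)
  set c := max (x i0 / q i0) (y j0 / p j0) with hc
  have hw1 : ∀ i, 0 ≤ c * q i - x i := fun i => by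
    have : x i / q i ≤ c := (hi0 i).trans (le_max_left _ _)
    have := (div_le_iff₀ (hq i)).1 this
    linarith
  have hw2 : ∀ i, 0 ≤ c * p i - y i := fun i => by
    have : y i / p i ≤ c := (hj0 i).trans (le_max_right _ _)
    have := (div_le_iff₀ (hp i)).1 this
    linarith
  have hav : ∀ i, av V (fun k => c * q k - x k) i = c * av V q i - av V x i := by
    intro i
    unfold av
    rw [Finset.mul_sum, ← Finset.sum_sub_distrib]
    exact Finset.sum_congr rfl fun k _ => by ring
  have hbv : ∀ i, bv V (fun k => c * p k - y k) i = c * bv V p i - bv V y i := by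
    intro i
    unfold bv
    rw [Finset.mul_sum, ← Finset.sum_sub_distrib]
    exact Finset.sum_congr rfl fun k _ => by ring
  have hav0 : ∀ i, 0 ≤ c * av V q i - av V x i := fun i => by
    rw [← hav i]; exact av_nonneg h hw1 i
  have hbv0 : ∀ i, 0 ≤ c * bv V p i - bv V y i := fun i => by
    rw [← hbv i]; exact bv_nonneg h hw2 i
  have e1 : ∀ i, (s ^ 2 + bv V p i * av V q i) ^ 2 * (c * q i - x i)
      = s ^ 2 * (c * av V q i - av V x i) + (av V q i) ^ 2 * (c * bv V p i - bv V y i) := by
    intro i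
    obtain ⟨hA, hB, hD, e1, e2⟩ := hS.facts h hs hq hp i
    have := hx i
    linear_combination c * (s ^ 2 + bv V p i * av V q i) * e1 - this
  have e2 : ∀ i, (s ^ 2 + bv V p i * av V q i) ^ 2 * (c * p i - y i)
      = s ^ 2 * (c * bv V p i - bv V y i) + (bv V p i) ^ 2 * (c * av V q i - av V x i) := by
    intro i
    obtain ⟨hA, hB, hD, e1, e2⟩ := hS.facts h hs hq hp i
    have := hy i
    linear_combination c * (s ^ 2 + bv V p i * av V q i) * e2 - this
  -- contact implies both neighbour sums vanish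
  have hz : ∀ i, (c * q i - x i = 0 ∨ c * p i - y i = 0) →
      c * av V q i - av V x i = 0 ∧ c * bv V p i - bv V y i = 0 := by
    intro i hi
    obtain ⟨hA, hB, hD, -, -⟩ := hS.facts h hs hq hp i
    have hs2 : 0 < s ^ 2 := by positivity
    rcases hi with hi | hi
    · have h1 := e1 i
      rw [hi, mul_zero] at h1
      have h2 : 0 ≤ s ^ 2 * (c * av V q i - av V x i) := mul_nonneg hs2.le (hav0 i)
      have h3 : 0 ≤ (av V q i) ^ 2 * (c * bv V p i - bv V y i) :=
        mul_nonneg (by positivity) (hbv0 i)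
      have h4 : s ^ 2 * (c * av V q i - av V x i) = 0 := by linarith
      have h5 : (av V q i) ^ 2 * (c * bv V p i - bv V y i) = 0 := by linarith
      exact ⟨(mul_eq_zero.1 h4).resolve_left hs2.ne',
        (mul_eq_zero.1 h5).resolve_left (by positivity)⟩
    · have h1 := e2 i
      rw [hi, mul_zero] at h1
      have h2 : 0 ≤ s ^ 2 * (c * bv V p i - bv V y i) := mul_nonneg hs2.le (hbv0 i)
      have h3 : 0 ≤ (bv V p i) ^ 2 * (c * av V q i - av V x i) :=
        mul_nonneg (by positivity) (hav0 i)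
      have h4 : s ^ 2 * (c * bv V p i - bv V y i) = 0 := by linarith
      have h5 : (bv V p i) ^ 2 * (c * av V q i - av V x i) = 0 := by linarith
      exact ⟨(mul_eq_zero.1 h5).resolve_left (by positivity),
        (mul_eq_zero.1 h4).resolve_left hs2.ne'⟩
  have hzz : ∀ i, (c * q i - x i = 0 ∨ c * p i - y i = 0) →
      (c * q i - x i = 0 ∧ c * p i - y i = 0) := by
    intro i hi
    obtain ⟨h1, h2⟩ := hz i hi
    obtain ⟨hA, hB, hD, -, -⟩ := hS.facts h hs hq hp i
    have f1 := e1 i
    have f2 := e2 i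
    rw [h1, h2, mul_zero, mul_zero, add_zero] at f1
    rw [h1, h2, mul_zero, mul_zero, add_zero] at f2
    have hD2 : (s ^ 2 + bv V p i * av V q i) ^ 2 ≠ 0 := by positivity
    exact ⟨(mul_eq_zero.1 f1).resolve_left hD2, (mul_eq_zero.1 f2).resolve_left hD2⟩
  have hstart : ∃ i, (c * q i - x i = 0 ∧ c * p i - y i = 0) := by
    rcases le_total (y j0 / p j0) (x i0 / q i0) with hcase | hcase
    · refine ⟨i0, hzz i0 (Or.inl ?_)⟩
      rw [hc, max_eq_left hcase, div_mul_cancel₀ _ (hq i0).ne', sub_self]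
    · refine ⟨j0, hzz j0 (Or.inr ?_)⟩
      rw [hc, max_eq_right hcase, div_mul_cancel₀ _ (hp j0).ne', sub_self]
  obtain ⟨k0, hk0⟩ := hstart
  have hall : ∀ i, (c * q i - x i = 0 ∧ c * p i - y i = 0) := by
    refine back_closed h (fun i => (c * q i - x i = 0 ∧ c * p i - y i = 0)) hk0 ?_
    intro i j hji hi
    refine hzz j (Or.inl ?_)
    have h0 : av V (fun k => c * q k - x k) i = 0 := by
      rw [hav i]; exact (hz i (Or.inl hi.1)).1
    exact av_zero h hw1 h0 hji
  exact ⟨c, fun i => by linarith [(hall i).1], fun i => by linarith [(hall i).2]⟩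

theorem av_bv_adj (V : Matrix (Fin n) (Fin n) ℝ) (x y : Fin n → ℝ) :
    ∑ i, av V x i * y i = ∑ i, x i * bv V y i := by
  unfold av bv
  simp only [Finset.sum_mul, Finset.mul_sum]
  rw [Finset.sum_comm]
  exact Finset.sum_congr rfl fun i _ => Finset.sum_congr rfl fun j _ => by ring

/-- Injectivity of the full linearisation. -/
theorem linear_injective {V : Matrix (Fin n) (Fin n) ℝ} (h : Good V) {s : ℝ} (hs : 0 < s)
    {q p : Fin n → ℝ} (hS : IsSol V s q p) (hq : ∀ i, 0 < q i) (hp : ∀ i, 0 < p i)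
    {x y : Fin n → ℝ}
    (h1 : ∀ i, x i * (s ^ 2 + bv V p i * av V q i)
      + q i * (bv V y i * av V q i + bv V p i * av V x i) - av V x i
      + (∑ k, x k - ∑ k, y k) = 0)
    (h2 : ∀ i, y i * (s ^ 2 + bv V p i * av V q i)
      + p i * (bv V y i * av V q i + bv V p i * av V x i) - bv V y i
      - (∑ k, x k - ∑ k, y k) = 0) :
    x = 0 ∧ y = 0 := by
  rcases isEmpty_or_nonempty (Fin n) with hemp | hne
  · exact ⟨funext fun i => (hemp.false i).elim, funext fun i => (hemp.false i).elim⟩
  set τ := ∑ k, x k - ∑ k, y k with hτ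
  have hF := fun i => hS.facts h hs hq hp i
  have hτ0 : τ = 0 := by
    -- p_i * (eq 1) - q_i * (eq 2), with p_i = b_i / D_i, q_i = a_i / D_i
    have key : ∀ i, bv V p i * x i - av V q i * y i - p i * av V x i + q i * bv V y i
        + τ * (p i + q i) = 0 := by
      intro i
      obtain ⟨hA, hB, hD, e1, e2⟩ := hF i
      have g1 := h1 i
      have g2 := h2 i
      have : (bv V p i * x i - av V q i * y i - p i * av V x i + q i * bv V y i
        + τ * (p i + q i)) = 0 := by
        linear_combination p i * g1 - q i * g2 - x i * e2 + y i * e1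
      exact this
    have hsum : ∑ i, (bv V p i * x i - av V q i * y i - p i * av V x i + q i * bv V y i
        + τ * (p i + q i)) = 0 := Finset.sum_eq_zero fun i _ => key i
    have s1 : ∑ i, p i * av V x i = ∑ i, bv V p i * x i := by
      have := av_bv_adj V x p
      calc ∑ i, p i * av V x i = ∑ i, av V x i * p i :=
            Finset.sum_congr rfl fun i _ => mul_comm _ _
        _ = ∑ i, x i * bv V p i := this
        _ = _ := Finset.sum_congr rfl fun i _ => mul_comm _ _
    have s2 : ∑ i, q i * bv V y i = ∑ i, av V q i * y i := (av_bv_adj V q y).symm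
    have hexp : ∑ i, (bv V p i * x i - av V q i * y i - p i * av V x i + q i * bv V y i
        + τ * (p i + q i)) = ∑ i, bv V p i * x i - ∑ i, av V q i * y i - ∑ i, p i * av V x i
          + ∑ i, q i * bv V y i + τ * ∑ i, (p i + q i) := by
      rw [Finset.sum_add_distrib, Finset.sum_add_distrib, Finset.sum_sub_distrib,
        Finset.sum_sub_distrib, Finset.mul_sum]
    rw [hexp, s1, s2] at hsum
    have hpos : 0 < ∑ i, (p i + q i) :=
      Finset.sum_pos (fun i _ => add_pos (hp i) (hq i)) Finset.univ_nonempty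
    have : τ * ∑ i, (p i + q i) = 0 := by linarith
    exact (mul_eq_zero.1 this).resolve_right hpos.ne'
  have hny : ∀ i, bv V (fun k => - y k) i = - bv V y i := by
    intro i
    unfold bv
    rw [← Finset.sum_neg_distrib]
    exact Finset.sum_congr rfl fun k _ => by ring
  obtain ⟨c, hc1, hc2⟩ := fixed_multiple h hs hS hq hp (x := x) (y := fun k => - y k)
    (by
      intro i
      obtain ⟨hA, hB, hD, e1, e2⟩ := hF i
      have g1 := h1 i
      rw [hτ0] at g1
      rw [hny i]
      linear_combination (s ^ 2 + bv V p i * av V q i) * g1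
        - (bv V y i * av V q i + bv V p i * av V x i) * e1)
    (by
      intro i
      obtain ⟨hA, hB, hD, e1, e2⟩ := hF i
      have g2 := h2 i
      rw [hτ0] at g2
      rw [hny i]
      linear_combination (-(s ^ 2 + bv V p i * av V q i)) * g2
        + (bv V y i * av V q i + bv V p i * av V x i) * e2)
  have hc0 : c = 0 := by
    have t1 : ∑ k, x k = c * ∑ k, q k := by
      rw [Finset.mul_sum]; exact Finset.sum_congr rfl fun i _ => hc1 i
    have t2 : ∑ k, y k = -(c * ∑ k, p k) := by
      rw [Finset.mul_sum, ← Finset.sum_neg_distrib]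
      exact Finset.sum_congr rfl fun i _ => by linarith [hc2 i]
    have t3 : c * (∑ k, q k + ∑ k, p k) = 0 := by
      have : ∑ k, x k - ∑ k, y k = 0 := hτ0
      rw [t1, t2] at this
      linarith
    have hpos : 0 < ∑ k, q k + ∑ k, p k := by
      have a1 : 0 < ∑ k, q k := Finset.sum_pos (fun i _ => hq i) Finset.univ_nonempty
      have a2 : 0 < ∑ k, p k := Finset.sum_pos (fun i _ => hp i) Finset.univ_nonempty
      linarith
    exact (mul_eq_zero.1 t3).resolve_right hpos.ne'
  refine ⟨funext fun i => by rw [hc1 i, hc0]; simp, funext fun i => ?_⟩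
  have := hc2 i
  rw [hc0, zero_mul] at this
  simpa using this

/-- A zero of the augmented system with positive entries is a solution. -/
theorem isSol_of_zero {V : Matrix (Fin n) (Fin n) ℝ} (h : Good V) {s : ℝ} (hs : 0 < s)
    {q p : Fin n → ℝ} (hq : ∀ i, 0 < q i) (hp : ∀ i, 0 < p i)
    (h1 : ∀ i, q i * (s ^ 2 + bv V p i * av V q i) - av V q i + (∑ k, q k - ∑ k, p k) = 0)
    (h2 : ∀ i, p i * (s ^ 2 + bv V p i * av V q i) - bv V p i - (∑ k, q k - ∑ k, p k) = 0) :
    IsSol V s q p := by
  have hA := fun i => av_nonneg h (fun j => (hq j).le) i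
  have hB := fun i => bv_nonneg h (fun j => (hp j).le) i
  have hD : ∀ i, 0 < s ^ 2 + bv V p i * av V q i := fun i => by
    have := hA i; have := hB i; positivity
  set τ := ∑ k, q k - ∑ k, p k with hτ
  have hτ0 : τ = 0 := by
    rcases isEmpty_or_nonempty (Fin n) with hemp | hne
    · simp [hτ]
    have key : ∀ i, q i * bv V p i - p i * av V q i + τ * (p i + q i) = 0 := by
      intro i
      linear_combination p i * h1 i - q i * h2 i
    have hsum : ∑ i, (q i * bv V p i - p i * av V q i + τ * (p i + q i)) = 0 :=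
      Finset.sum_eq_zero fun i _ => key i
    rw [Finset.sum_add_distrib, Finset.sum_sub_distrib, ← Finset.mul_sum] at hsum
    have s1 : ∑ i, p i * av V q i = ∑ i, q i * bv V p i := by
      rw [← av_bv_adj V q p]
      exact Finset.sum_congr rfl fun i _ => mul_comm _ _
    rw [s1] at hsum
    have hpos : 0 < ∑ i, (p i + q i) :=
      Finset.sum_pos (fun i _ => add_pos (hp i) (hq i)) Finset.univ_nonempty
    have : τ * ∑ i, (p i + q i) = 0 := by linarith
    exact (mul_eq_zero.1 this).resolve_right hpos.ne'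
  refine ⟨fun i => (hq i).le, fun i => (hp i).le, fun i => ?_, fun i => ?_, by linarith⟩
  · rw [eq_div_iff (hD i).ne']
    have := h1 i
    rw [hτ0] at this
    linarith
  · rw [eq_div_iff (hD i).ne']
    have := h2 i
    rw [hτ0] at this
    linarith

end Pool.Agent.R530.VP
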