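import Mathlib
import Pool.Agent.R530.VPSol

/-!
A Collatz-Wielandt bound and the behaviour of positive solutions at the spectral edge.
-/

open Finset Filter Topology
open scoped Matrix.Norms.Operator ENNReal NNReal

namespace Pool.Agent.R530.VP

variable {n : ℕ}

theorem bv_eq (V : Matrix (Fin n) (Fin n) ℝ) (w : Fin n → ℝ) : bv V w = V.mulVec w := rfl

theorem bv_mono {V : Matrix (Fin n) (Fin n) ℝ} (hV : ∀ i j, 0 ≤ V i j) {u w : Fin n → ℝ}
    (h : ∀ i, u i ≤ w i) (i : Fin n) : bv V u i ≤ bv V w i :=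
  Finset.sum_le_sum fun j _ => mul_le_mul_of_nonneg_left (h j) (hV i j)

theorem pow_growth {V : Matrix (Fin n) (Fin n) ℝ} (hV : ∀ i j, 0 ≤ V i j) {w : Fin n → ℝ}
    {c : ℝ} (hc : 0 ≤ c) (hcw : ∀ i, c * w i ≤ bv V w i) (k : ℕ) (i : Fin n) :
    c ^ k * w i ≤ ((V ^ k).mulVec w) i := by
  induction k generalizing i with
  | zero => simp
  | succ k ih =>
    have e : (V ^ (k + 1)).mulVec w = V.mulVec ((V ^ k).mulVec w) := by
      rw [pow_succ', Matrix.mulVec_mulVec]
    rw [e]
    have h1 : bv V (fun j => c ^ k * w j) i ≤ bv V ((V ^ k).mulVec w) i := bv_mono hV ih i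
    have h2 : bv V (fun j => c ^ k * w j) i = c ^ k * bv V w i := by
      unfold bv
      rw [Finset.mul_sum]
      exact Finset.sum_congr rfl fun j _ => by ring
    have h3 : c ^ k * (c * w i) ≤ c ^ k * bv V w i :=
      mul_le_mul_of_nonneg_left (hcw i) (by positivity)
    calc c ^ (k + 1) * w i = c ^ k * (c * w i) := by ring
      _ ≤ c ^ k * bv V w i := h3
      _ ≤ bv V ((V ^ k).mulVec w) i := by rw [← h2]; exact h1
      _ = (V.mulVec ((V ^ k).mulVec w)) i := rfl

theorem collatz_wielandt {V : Matrix (Fin n) (Fin n) ℝ} (hV : ∀ i j, 0 ≤ V i j)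
    {w : Fin n → ℝ} (hw : ∀ i, 0 ≤ w i) (hw0 : w ≠ 0) {c : ℝ} (hc : 0 ≤ c)
    (hcw : ∀ i, c * w i ≤ bv V w i) : c ≤ specRad V := by
  set M : Matrix (Fin n) (Fin n) ℂ := V.map (fun x : ℝ => (x : ℂ)) with hM
  set wc : Fin n → ℂ := fun i => (w i : ℂ) with hwc
  obtain ⟨i1, hi1⟩ : ∃ i, w i ≠ 0 := by
    by_contra hcon
    push Not at hcon
    exact hw0 (funext hcon)
  have : Nonempty (Fin n) := ⟨i1⟩
  obtain ⟨i0, hi0⟩ := Finite.exists_max w
  have hwi0 : 0 < w i0 :=
    lt_of_lt_of_le (lt_of_le_of_ne (hw i1) (Ne.symm hi1)) (hi0 i1)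
  have hnorm : ‖wc‖ = w i0 := by
    apply le_antisymm
    · refine (pi_norm_le_iff_of_nonneg hwi0.le).2 fun i => ?_
      simp only [hwc, Complex.norm_real, Real.norm_eq_abs, abs_of_nonneg (hw i)]
      exact hi0 i
    · have := norm_le_pi_norm wc i0
      simp only [hwc, Complex.norm_real, Real.norm_eq_abs, abs_of_nonneg (hw i0)] at this
      exact this
  have hpow : ∀ k : ℕ, M ^ k = (V ^ k).map (fun x : ℝ => (x : ℂ)) := by
    intro k
    have : (Complex.ofRealHom.mapMatrix (V ^ k) : Matrix (Fin n) (Fin n) ℂ)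
        = (Complex.ofRealHom.mapMatrix V) ^ k := map_pow _ _ _
    exact this.symm
  have hbound : ∀ k : ℕ, c ^ k ≤ ‖M ^ k‖ := by
    intro k
    have h1 : ‖(M ^ k).mulVec wc‖ ≤ ‖M ^ k‖ * ‖wc‖ := Matrix.linfty_opNorm_mulVec _ _
    have h2 : (M ^ k).mulVec wc = fun i => ((((V ^ k).mulVec w) i : ℝ) : ℂ) := by
      funext i
      rw [hpow]
      simp [Matrix.mulVec, dotProduct, hwc]
    have h3 : c ^ k * w i0 ≤ ‖(M ^ k).mulVec wc‖ := by
      have h4 := norm_le_pi_norm ((M ^ k).mulVec wc) i0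
      rw [h2] at h4 ⊢
      refine le_trans ?_ h4
      simp only [Complex.norm_real, Real.norm_eq_abs]
      exact (pow_growth hV hc hcw k i0).trans (le_abs_self _)
    have h5 : c ^ k * w i0 ≤ ‖M ^ k‖ * w i0 := by
      calc c ^ k * w i0 ≤ ‖(M ^ k).mulVec wc‖ := h3
        _ ≤ ‖M ^ k‖ * ‖wc‖ := h1
        _ = _ := by rw [hnorm]
    exact le_of_mul_le_mul_right h5 hwi0
  have : CompleteSpace (Matrix (Fin n) (Fin n) ℂ) := FiniteDimensional.complete ℂ _
  have hlim := spectrum.pow_nnnorm_pow_one_div_tendsto_nhds_spectralRadius M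
  have hge : ENNReal.ofReal c ≤ spectralRadius ℂ M := by
    refine ge_of_tendsto hlim ?_
    filter_upwards [eventually_ge_atTop 1] with k hk
    have hk0 : (k : ℝ) ≠ 0 := by positivity
    have h1 : (ENNReal.ofReal c) ^ k ≤ (‖M ^ k‖₊ : ℝ≥0∞) := by
      rw [← ENNReal.ofReal_pow hc]
      have : (‖M ^ k‖₊ : ℝ≥0∞) = ENNReal.ofReal ‖M ^ k‖ :=
         (ofReal_norm (M ^ k)).symm
      rw [this]
      exact ENNReal.ofReal_le_ofReal (hbound k)
    have h2 : ENNReal.ofReal c = ((ENNReal.ofReal c) ^ k) ^ (1 / (k : ℝ)) := by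
      rw [← ENNReal.rpow_natCast, ← ENNReal.rpow_mul, mul_one_div_cancel hk0, ENNReal.rpow_one]
    rw [h2]
    exact ENNReal.rpow_le_rpow h1 (by positivity)
  have hfin : spectralRadius ℂ M ≠ ∞ := by
    have := spectrum.spectralRadius_le_nnnorm (𝕜 := ℂ) M
    exact ne_top_of_le_ne_top ENNReal.coe_ne_top this
  have := (ENNReal.ofReal_le_iff_le_toReal hfin).1 hge
  exact this

/-- a power of `1 + V` is entrywise positive -/
theorem exists_pos_pow {V : Matrix (Fin n) (Fin n) ℝ} (h : Good V) :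
    ∃ N : ℕ, ∀ i j, 0 < ((1 + V) ^ N) i j := by
  have hnn : ∀ k : ℕ, ∀ i j, 0 ≤ ((1 + V) ^ k) i j := by
    intro k
    induction k with
    | zero => intro i j; rw [pow_zero, Matrix.one_apply]; split_ifs <;> norm_num
    | succ k ih =>
      intro i j
      rw [pow_succ, Matrix.mul_apply]
      refine Finset.sum_nonneg fun l _ => mul_nonneg (ih i l) ?_
      rw [Matrix.add_apply, Matrix.one_apply]
      have := h.nonneg l j
      split_ifs <;> linarith
  have hmono : ∀ i j, Monotone fun k : ℕ => ((1 + V) ^ k) i j := by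
    intro i j
    refine monotone_nat_of_le_succ fun k => ?_
    rw [pow_succ, mul_add, mul_one, Matrix.add_apply, Matrix.mul_apply]
    have : 0 ≤ ∑ l, ((1 + V) ^ k) i l * V l j :=
      Finset.sum_nonneg fun l _ => mul_nonneg (hnn k i l) (h.nonneg l j)
    linarith
  have hex : ∀ i j, ∃ k : ℕ, 0 < ((1 + V) ^ k) i j := by
    intro i j
    have hp := h.irr i j
    induction hp with
    | refl => exact ⟨0, by simp⟩
    | @tail b c _ hbc ih =>
      obtain ⟨k, hk⟩ := ih
      refine ⟨k + 1, ?_⟩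
      rw [pow_succ, Matrix.mul_apply]
      have h1 : ((1 + V) ^ k) i b * (1 + V) b c ≤ ∑ l, ((1 + V) ^ k) i l * (1 + V) l c := by
        refine Finset.single_le_sum (f := fun l => ((1 + V) ^ k) i l * (1 + V) l c)
          (fun l _ => mul_nonneg (hnn k i l) ?_) (Finset.mem_univ b)
        rw [Matrix.add_apply, Matrix.one_apply]
        have := h.nonneg l c
        split_ifs <;> linarith
      have h2 : 0 < (1 + V) b c := by
        rw [Matrix.add_apply, Matrix.one_apply]
        split_ifs <;> linarith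
      exact lt_of_lt_of_le (mul_pos hk h2) h1
  choose k hk using hex
  refine ⟨∑ i, ∑ j, k i j, fun i j => ?_⟩
  have hle : k i j ≤ ∑ i, ∑ j, k i j := by
    calc k i j ≤ ∑ j, k i j := Finset.single_le_sum (fun _ _ => Nat.zero_le _) (Finset.mem_univ j)
      _ ≤ _ := Finset.single_le_sum (f := fun i => ∑ j, k i j) (fun _ _ => Nat.zero_le _)
          (Finset.mem_univ i)
  exact lt_of_lt_of_le (hk i j) (hmono i j hle)

/-- a subinvariant vector at the spectral radius is an eigenvector -/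
theorem subinvariant_eq {V : Matrix (Fin n) (Fin n) ℝ} (h : Good V) {u : Fin n → ℝ}
    (hu : ∀ i, 0 ≤ u i) (hu0 : u ≠ 0) (hsub : ∀ i, specRad V * u i ≤ bv V u i) (i : Fin n) :
    bv V u i = specRad V * u i := by
  by_contra hcon
  obtain ⟨N, hN⟩ := exists_pos_pow h
  set ρ := specRad V with hρ
  have hρ0 : 0 ≤ ρ := ENNReal.toReal_nonneg
  set P := (1 + V) ^ N with hP
  set d : Fin n → ℝ := fun j => bv V u j - ρ * u j with hd
  have hd0 : ∀ j, 0 ≤ d j := fun j => sub_nonneg.2 (hsub j)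
  have hdi : 0 < d i := lt_of_le_of_ne (hd0 i) (fun he => hcon (by
    have : bv V u i - ρ * u i = 0 := he.symm
    linarith))
  have hposm : ∀ (v : Fin n → ℝ) (l : Fin n), (∀ j, 0 ≤ v j) → 0 < v l →
      ∀ j, 0 < (P.mulVec v) j := by
    intro v l hv hl j
    have h1 : P j l * v l ≤ ∑ m, P j m * v m :=
      Finset.single_le_sum (f := fun m => P j m * v m)
        (fun m _ => mul_nonneg (hN j m).le (hv m)) (Finset.mem_univ l)
    exact lt_of_lt_of_le (mul_pos (hN j l) hl) h1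
  obtain ⟨l, hl⟩ : ∃ l, u l ≠ 0 := by
    by_contra hc
    push Not at hc
    exact hu0 (funext hc)
  have hul : 0 < u l := lt_of_le_of_ne (hu l) (Ne.symm hl)
  set w := P.mulVec u with hw
  have hwpos : ∀ j, 0 < w j := hposm u l hu hul
  have hdpos : ∀ j, 0 < (P.mulVec d) j := hposm d i hd0 hdi
  have hcomm : V * P = P * V := by
    have : Commute V (1 + V) := (Commute.one_right V).add_right (Commute.refl V)
    exact (this.pow_right N)
  have hVw : ∀ j, bv V w j = ρ * w j + (P.mulVec d) j := by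
    intro j
    have e1 : V.mulVec w = P.mulVec (V.mulVec u) := by
      rw [hw, Matrix.mulVec_mulVec, Matrix.mulVec_mulVec, hcomm]
    have e2 : V.mulVec u = ρ • u + d := by
      funext m
      simp only [hd, Pi.add_apply, Pi.smul_apply, smul_eq_mul]
      rw [bv_eq]
      ring
    rw [bv_eq, e1, e2, Matrix.mulVec_add, Matrix.mulVec_smul]
    rfl
  have : Nonempty (Fin n) := ⟨i⟩
  obtain ⟨m, hm⟩ := Finite.exists_min (fun j => (P.mulVec d) j / w j)
  set ε := (P.mulVec d) m / w m with hε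
  have hεpos : 0 < ε := div_pos (hdpos m) (hwpos m)
  have hcw : ∀ j, (ρ + ε) * w j ≤ bv V w j := by
    intro j
    rw [hVw j, add_mul]
    have := (le_div_iff₀ (hwpos j)).1 (hm j)
    linarith
  have := collatz_wielandt h.nonneg (w := w) (fun j => (hwpos j).le)
    (fun h0 => (hwpos i).ne' (by rw [h0]; rfl)) (by positivity : 0 ≤ ρ + ε) hcw
  linarith

/-- positivity of eigenvectors -/
theorem eigen_pos {V : Matrix (Fin n) (Fin n) ℝ} (h : Good V) (hρ : 0 < specRad V)
    {u : Fin n → ℝ} (hu : ∀ i, 0 ≤ u i) (hu0 : u ≠ 0) (he : ∀ i, bv V u i = specRad V * u i)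
    (i : Fin n) : 0 < u i := by
  obtain ⟨l, hl⟩ : ∃ l, u l ≠ 0 := by
    by_contra hc
    push Not at hc
    exact hu0 (funext hc)
  have hul : 0 < u l := lt_of_le_of_ne (hu l) (Ne.symm hl)
  refine back_closed h (fun i => 0 < u i) hul ?_ i
  intro a b hba ha
  have h1 : V b a * u a ≤ bv V u b :=
    Finset.single_le_sum (f := fun m => V b m * u m)
      (fun m _ => mul_nonneg (h.nonneg b m) (hu m)) (Finset.mem_univ a)
  have h2 : 0 < specRad V * u b := by
    rw [← he b]; exact lt_of_lt_of_le (mul_pos hba ha) h1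
  exact (pos_iff_pos_of_mul_pos h2).1 hρ

/-- a nonzero solution at `s` forces `s ^ 2 < ρ(V)` -/
theorem sq_lt_specRad {V : Matrix (Fin n) (Fin n) ℝ} (h : Good V) {s : ℝ} (hs : 0 < s)
    {q p : Fin n → ℝ} (hS : IsSol V s q p) (hne : ¬ (q = 0 ∧ p = 0)) :
    s ^ 2 < specRad V := by
  obtain ⟨hq, hp⟩ := hS.pos h hs hne
  rcases isEmpty_or_nonempty (Fin n) with hemp | hnon
  · exact absurd ⟨funext fun i => (hemp.false i).elim, funext fun i => (hemp.false i).elim⟩ hne
  obtain ⟨m, hm⟩ := Finite.exists_min (fun i => bv V p i * av V q i)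
  have hF := fun i => hS.facts h hs hq hp i
  have hpos : 0 < bv V p m * av V q m := mul_pos (hF m).2.1 (hF m).1
  have hcw : ∀ i, (s ^ 2 + bv V p m * av V q m) * p i ≤ bv V p i := by
    intro i
    rw [← (hF i).2.2.2.2]
    have := mul_le_mul_of_nonneg_left (add_le_add_right (hm i) (s ^ 2)) (hp i).le
    calc (s ^ 2 + bv V p m * av V q m) * p i = p i * (s ^ 2 + bv V p m * av V q m) := mul_comm _ _
      _ ≤ p i * (s ^ 2 + bv V p i * av V q i) := by
        refine mul_le_mul_of_nonneg_left ?_ (hp i).le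
        have := hm i
        linarith
      _ = _ := by ring_nf
  have := collatz_wielandt h.nonneg (w := p) (fun j => (hp j).le)
    (fun h0 => (hp m).ne' (by rw [h0]; rfl)) (by positivity) hcw
  linarith

/-- At the spectral edge the mass `∑ q_i (V p)_i` cannot stay away from zero along a
family of positive solutions with constant mass. -/
theorem edge_contradiction {V : Matrix (Fin n) (Fin n) ℝ} (h : Good V) (hρ : 0 < specRad V)
    (s : ℕ → ℝ) (hs : ∀ k, 0 < s k) (hlim : Tendsto (fun k => (s k) ^ 2) atTop (𝓝 (specRad V)))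
    (q p : ℕ → Fin n → ℝ) (hS : ∀ k, IsSol V (s k) (q k) (p k)) (hq : ∀ k i, 0 < q k i)
    (hp : ∀ k i, 0 < p k i) {κ : ℝ} (hκ : 0 < κ)
    (hconst : ∀ k, ∑ i, q k i * bv V (p k) i = κ) : False := by
  set ρ := specRad V with hρdef
  rcases isEmpty_or_nonempty (Fin n) with hemp | hnon
  · have := hconst 0
    simp at this
    linarith
  have hSp : ∀ k, 0 < ∑ i, p k i := fun k =>
    Finset.sum_pos (fun i _ => hp k i) Finset.univ_nonempty
  set u : ℕ → Fin n → ℝ := fun k i => p k i / ∑ j, p k j with hu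
  set t : ℕ → Fin n → ℝ := fun k i => q k i * bv V (p k) i with ht
  have hF := fun k i => (hS k).facts h (hs k) (hq k) (hp k) i
  have hbvu : ∀ k i, bv V (u k) i = bv V (p k) i / ∑ j, p k j := by
    intro k i
    unfold bv
    rw [Finset.sum_div]
    exact Finset.sum_congr rfl fun j _ => by simp only [hu]; ring
  have ht01 : ∀ k i, 0 ≤ t k i ∧ t k i ≤ 1 := by
    intro k i
    obtain ⟨hA, hB, hD, e1, e2⟩ := hF k i
    refine ⟨(mul_pos (hq k i) hB).le, ?_⟩
    have h1 : t k i * ((s k) ^ 2 + bv V (p k) i * av V (q k) i) = av V (q k) i * bv V (p k) i := by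
      simp only [ht]
      linear_combination (bv V (p k) i) * e1
    have h2 : t k i * ((s k) ^ 2 + bv V (p k) i * av V (q k) i)
        ≤ 1 * ((s k) ^ 2 + bv V (p k) i * av V (q k) i) := by
      rw [h1]
      have := hs k
      nlinarith [sq_nonneg (s k)]
    exact le_of_mul_le_mul_right h2 hD
  have heq : ∀ k i, (s k) ^ 2 * u k i = (1 - t k i) * bv V (u k) i := by
    intro k i
    obtain ⟨hA, hB, hD, e1, e2⟩ := hF k i
    rw [hbvu k i]
    simp only [hu, ht]
    rw [mul_div_assoc', mul_div_assoc']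
    congr 1
    -- s² p = (1 - q b) b
    have h3 : p k i * av V (q k) i * ((s k) ^ 2 + bv V (p k) i * av V (q k) i)
        = q k i * bv V (p k) i * ((s k) ^ 2 + bv V (p k) i * av V (q k) i) := by
      linear_combination av V (q k) i * e2 - bv V (p k) i * e1
    have h4 : p k i * av V (q k) i = q k i * bv V (p k) i := mul_right_cancel₀ hD.ne' h3
    linear_combination e2 - bv V (p k) i * h4
  have hK : IsCompact ((Set.pi Set.univ fun _ : Fin n => Set.Icc (0 : ℝ) 1) ×ˢ
      (Set.pi Set.univ fun _ : Fin n => Set.Icc (0 : ℝ) 1)) :=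
    (isCompact_univ_pi fun _ => isCompact_Icc).prod (isCompact_univ_pi fun _ => isCompact_Icc)
  have hmem : ∀ k, (u k, t k) ∈ ((Set.pi Set.univ fun _ : Fin n => Set.Icc (0 : ℝ) 1) ×ˢ
      (Set.pi Set.univ fun _ : Fin n => Set.Icc (0 : ℝ) 1)) := by
    intro k
    refine ⟨fun i _ => ⟨(div_pos (hp k i) (hSp k)).le, ?_⟩, fun i _ => ht01 k i⟩
    rw [div_le_one (hSp k)]
    exact Finset.single_le_sum (f := fun j => p k j) (fun j _ => (hp k j).le) (Finset.mem_univ i)
  obtain ⟨z, -, φ, hφ, hz⟩ := hK.tendsto_subseq hmem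
  obtain ⟨u0, t0⟩ := z
  have hz1 : Tendsto (fun k => u (φ k)) atTop (𝓝 u0) := (Prod.tendsto_iff _ _).1 hz |>.1
  have hz2 : Tendsto (fun k => t (φ k)) atTop (𝓝 t0) := (Prod.tendsto_iff _ _).1 hz |>.2
  have hz1i : ∀ i, Tendsto (fun k => u (φ k) i) atTop (𝓝 (u0 i)) := fun i =>
    (tendsto_pi_nhds.1 hz1) i
  have hz2i : ∀ i, Tendsto (fun k => t (φ k) i) atTop (𝓝 (t0 i)) := fun i =>
    (tendsto_pi_nhds.1 hz2) i
  have hsum1 : ∑ i, u0 i = 1 := by
    have h1 : Tendsto (fun k => ∑ i, u (φ k) i) atTop (𝓝 (∑ i, u0 i)) :=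
      tendsto_finsetSum _ fun i _ => hz1i i
    have h2 : (fun k => ∑ i, u (φ k) i) = fun _ => (1 : ℝ) := by
      funext k
      simp only [hu]
      rw [← Finset.sum_div, div_self (hSp (φ k)).ne']
    rw [h2] at h1
    exact tendsto_nhds_unique h1 tendsto_const_nhds |>.symm ▸ rfl
  have hsumt : ∑ i, t0 i = κ := by
    have h1 : Tendsto (fun k => ∑ i, t (φ k) i) atTop (𝓝 (∑ i, t0 i)) :=
      tendsto_finsetSum _ fun i _ => hz2i i
    have h2 : (fun k => ∑ i, t (φ k) i) = fun _ => κ := by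
      funext k
      exact hconst (φ k)
    rw [h2] at h1
    exact tendsto_nhds_unique h1 tendsto_const_nhds |>.symm ▸ rfl
  have hu0 : ∀ i, 0 ≤ u0 i := fun i =>
    ge_of_tendsto' (hz1i i) fun k => (div_pos (hp _ i) (hSp _)).le
  have ht0 : ∀ i, 0 ≤ t0 i ∧ t0 i ≤ 1 := fun i =>
    ⟨ge_of_tendsto' (hz2i i) fun k => (ht01 _ i).1, le_of_tendsto' (hz2i i) fun k => (ht01 _ i).2⟩
  have hbvlim : ∀ i, Tendsto (fun k => bv V (u (φ k)) i) atTop (𝓝 (bv V u0 i)) := by
    intro i
    unfold bv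
    exact tendsto_finsetSum _ fun j _ => (hz1i j).const_mul (V i j)
  have heq0 : ∀ i, ρ * u0 i = (1 - t0 i) * bv V u0 i := by
    intro i
    have h1 : Tendsto (fun k => (s (φ k)) ^ 2 * u (φ k) i) atTop (𝓝 (ρ * u0 i)) :=
      (hlim.comp hφ.tendsto_atTop).mul (hz1i i)
    have h2 : Tendsto (fun k => (1 - t (φ k) i) * bv V (u (φ k)) i) atTop
        (𝓝 ((1 - t0 i) * bv V u0 i)) :=
      ((tendsto_const_nhds).sub (hz2i i)).mul (hbvlim i)
    have h3 : (fun k => (s (φ k)) ^ 2 * u (φ k) i)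
        = fun k => (1 - t (φ k) i) * bv V (u (φ k)) i := funext fun k => heq (φ k) i
    rw [h3] at h1
    exact tendsto_nhds_unique h1 h2
  have hu0ne : u0 ≠ 0 := by
    intro h0
    rw [h0] at hsum1
    simp at hsum1
  have hbu : ∀ i, 0 ≤ bv V u0 i := fun i => bv_nonneg h hu0 i
  have hsub : ∀ i, ρ * u0 i ≤ bv V u0 i := by
    intro i
    rw [heq0 i]
    have := mul_nonneg (ht0 i).1 (hbu i)
    linarith
  have heig := subinvariant_eq h hu0 hu0ne hsub
  have hupos := eigen_pos h hρ hu0 hu0ne heig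
  have ht00 : ∀ i, t0 i = 0 := by
    intro i
    have h1 := heq0 i
    rw [heig i] at h1
    have h2 : t0 i * (ρ * u0 i) = 0 := by linarith
    exact (mul_eq_zero.1 h2).resolve_right (mul_pos hρ (hupos i)).ne'
  have : ∑ i, t0 i = 0 := Finset.sum_eq_zero fun i _ => ht00 i
  linarith

end Pool.Agent.R530.VP
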