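import Mathlib
import Pool.Agent.R530.VPLim

/-!
Analytic dependence of the positive solution of the Master Equations on the radius.
-/

open Finset Filter Topology
open scoped ContDiff

namespace Pool.Agent.R530.VP

variable {n : ℕ}

/-- The augmented Master map. -/
noncomputable def Psi (V : Matrix (Fin n) (Fin n) ℝ) (z : ℝ × ((Fin n → ℝ) × (Fin n → ℝ))) :
    ℝ × ((Fin n → ℝ) × (Fin n → ℝ)) :=
  (z.1,
    (fun i => z.2.1 i * (z.1 ^ 2 + bv V z.2.2 i * av V z.2.1 i) - av V z.2.1 i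
        + (∑ k, z.2.1 k - ∑ k, z.2.2 k),
      fun i => z.2.2 i * (z.1 ^ 2 + bv V z.2.2 i * av V z.2.1 i) - bv V z.2.2 i
        - (∑ k, z.2.1 k - ∑ k, z.2.2 k)))

theorem contDiff_Psi (V : Matrix (Fin n) (Fin n) ℝ) : ContDiff ℝ ω (Psi V) := by
  unfold Psi av bv
  fun_prop

theorem av_line (V : Matrix (Fin n) (Fin n) ℝ) (q x : Fin n → ℝ) (ε : ℝ) (i : Fin n) :
    av V (fun k => q k + ε * x k) i = av V q i + ε * av V x i := by
  unfold av
  rw [Finset.mul_sum, ← Finset.sum_add_distrib]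
  exact Finset.sum_congr rfl fun k _ => by ring

theorem bv_line (V : Matrix (Fin n) (Fin n) ℝ) (q x : Fin n → ℝ) (ε : ℝ) (i : Fin n) :
    bv V (fun k => q k + ε * x k) i = bv V q i + ε * bv V x i := by
  unfold bv
  rw [Finset.mul_sum, ← Finset.sum_add_distrib]
  exact Finset.sum_congr rfl fun k _ => by ring

theorem sum_line (q x : Fin n → ℝ) (ε : ℝ) :
    ∑ k, (q k + ε * x k) = ∑ k, q k + ε * ∑ k, x k := by
  rw [Finset.mul_sum, ← Finset.sum_add_distrib]

theorem poly_deriv (s c x A α B β S T : ℝ) (sg : ℝ) :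
    HasDerivAt (fun ε : ℝ => (c + ε * x) * (s ^ 2 + (B + ε * β) * (A + ε * α))
        - (A + ε * α) + sg * (S + ε * T))
      (x * (s ^ 2 + B * A) + c * (β * A + B * α) - α + sg * T) 0 := by
  have hl : ∀ u v : ℝ, HasDerivAt (fun ε : ℝ => u + ε * v) v 0 := by
    intro u v
    simpa using ((hasDerivAt_id (0 : ℝ)).mul_const v).const_add u
  have h1 := ((hl B β).mul (hl A α)).const_add (s ^ 2)
  have h2 := (((hl c x).mul h1).sub (hl A α)).add ((hl S T).const_mul sg)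
  refine h2.congr_deriv ?_
  simp

theorem fderiv_Psi_injective {V : Matrix (Fin n) (Fin n) ℝ} (h : Good V) {s : ℝ} (hs : 0 < s)
    {q p : Fin n → ℝ} (hS : IsSol V s q p) (hq : ∀ i, 0 < q i) (hp : ∀ i, 0 < p i) :
    Function.Injective (fderiv ℝ (Psi V) (s, (q, p))) := by
  rw [injective_iff_map_eq_zero]
  rintro ⟨τ, x, y⟩ hv
  have hd : HasFDerivAt (Psi V) (fderiv ℝ (Psi V) (s, (q, p))) (s, (q, p)) :=
    ((contDiff_Psi V).differentiable (by simp)).differentiableAt.hasFDerivAt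
  set v : ℝ × ((Fin n → ℝ) × (Fin n → ℝ)) := (τ, (x, y)) with hvdef
  have hline : HasDerivAt (fun ε : ℝ => (s, (q, p)) + ε • v) v 0 := by
    simpa using ((hasDerivAt_id (0 : ℝ)).smul_const v).const_add (s, (q, p))
  have hcomp : HasDerivAt (fun ε : ℝ => Psi V ((s, (q, p)) + ε • v)) 0 0 := by
    have := HasFDerivAt.comp_hasDerivAt (0 : ℝ) (f := fun ε : ℝ => (s, (q, p)) + ε • v)
      (by simpa using hd) hline
    rw [hv] at this
    exact this
  have hval : ∀ ε : ℝ, (s, (q, p)) + ε • v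
      = (s + ε * τ, (fun k => q k + ε * x k, fun k => p k + ε * y k)) := by
    intro ε
    rfl
  have hτ : τ = 0 := by
    have h1 : HasDerivAt (fun ε : ℝ => (Psi V ((s, (q, p)) + ε • v)).1) 0 0 := by
      have := ((ContinuousLinearMap.fst ℝ ℝ ((Fin n → ℝ) × (Fin n → ℝ))).hasFDerivAt).comp_hasDerivAt
        (0 : ℝ) hcomp
      exact this.congr_deriv (map_zero _)
    have h2 : HasDerivAt (fun ε : ℝ => (Psi V ((s, (q, p)) + ε • v)).1) τ 0 := by
      have : (fun ε : ℝ => (Psi V ((s, (q, p)) + ε • v)).1) = fun ε : ℝ => s + ε * τ := by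
        funext ε
        rw [hval ε]
        rfl
      rw [this]
      simpa using ((hasDerivAt_id (0 : ℝ)).mul_const τ).const_add s
    exact h2.unique h1
  subst hτ
  have hc1 : ∀ i, HasDerivAt (fun ε : ℝ => (Psi V ((s, (q, p)) + ε • v)).2.1 i) 0 0 := by
    intro i
    have := (((ContinuousLinearMap.proj (R := ℝ) (φ := fun _ : Fin n => ℝ) i).comp
      ((ContinuousLinearMap.fst ℝ (Fin n → ℝ) (Fin n → ℝ)).comp
        (ContinuousLinearMap.snd ℝ ℝ ((Fin n → ℝ) × (Fin n → ℝ))))).hasFDerivAt).comp_hasDerivAt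
        (0 : ℝ) hcomp
    exact this.congr_deriv (map_zero _)
  have hc2 : ∀ i, HasDerivAt (fun ε : ℝ => (Psi V ((s, (q, p)) + ε • v)).2.2 i) 0 0 := by
    intro i
    have := (((ContinuousLinearMap.proj (R := ℝ) (φ := fun _ : Fin n => ℝ) i).comp
      ((ContinuousLinearMap.snd ℝ (Fin n → ℝ) (Fin n → ℝ)).comp
        (ContinuousLinearMap.snd ℝ ℝ ((Fin n → ℝ) × (Fin n → ℝ))))).hasFDerivAt).comp_hasDerivAt
        (0 : ℝ) hcomp
    exact this.congr_deriv (map_zero _)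
  have he1 : ∀ i, x i * (s ^ 2 + bv V p i * av V q i)
      + q i * (bv V y i * av V q i + bv V p i * av V x i) - av V x i
      + (∑ k, x k - ∑ k, y k) = 0 := by
    intro i
    have h3 := poly_deriv s (q i) (x i) (av V q i) (av V x i) (bv V p i) (bv V y i)
      (∑ k, q k - ∑ k, p k) (∑ k, x k - ∑ k, y k) 1
    have : (fun ε : ℝ => (Psi V ((s, (q, p)) + ε • v)).2.1 i)
        = (fun ε : ℝ => (q i + ε * x i) * (s ^ 2 + (bv V p i + ε * bv V y i)
          * (av V q i + ε * av V x i)) - (av V q i + ε * av V x i)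
          + 1 * ((∑ k, q k - ∑ k, p k) + ε * (∑ k, x k - ∑ k, y k))) := by
      funext ε
      rw [hval ε]
      simp only [Psi]
      rw [av_line, bv_line, sum_line, sum_line]
      ring
    have h4 := hc1 i
    rw [this] at h4
    have := h3.unique h4
    linarith
  have he2 : ∀ i, y i * (s ^ 2 + bv V p i * av V q i)
      + p i * (bv V y i * av V q i + bv V p i * av V x i) - bv V y i
      - (∑ k, x k - ∑ k, y k) = 0 := by
    intro i
    have h3 := poly_deriv s (p i) (y i) (bv V p i) (bv V y i) (av V q i) (av V x i)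
      (∑ k, q k - ∑ k, p k) (∑ k, x k - ∑ k, y k) (-1)
    have : (fun ε : ℝ => (Psi V ((s, (q, p)) + ε • v)).2.2 i)
        = (fun ε : ℝ => (p i + ε * y i) * (s ^ 2 + (av V q i + ε * av V x i)
          * (bv V p i + ε * bv V y i)) - (bv V p i + ε * bv V y i)
          + (-1) * ((∑ k, q k - ∑ k, p k) + ε * (∑ k, x k - ∑ k, y k))) := by
      funext ε
      rw [hval ε]
      simp only [Psi]
      rw [av_line, bv_line, sum_line, sum_line]
      ring
    have h4 := hc2 i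
    rw [this] at h4
    have := h3.unique h4
    linarith
  obtain ⟨hx, hy⟩ := linear_injective h hs hS hq hp he1 he2
  rw [hvdef, hx, hy]
  rfl

/-- Local analytic branch of positive solutions. -/
theorem local_branch {V : Matrix (Fin n) (Fin n) ℝ} (h : Good V) {s : ℝ} (hs : 0 < s)
    {q p : Fin n → ℝ} (hS : IsSol V s q p) (hq : ∀ i, 0 < q i) (hp : ∀ i, 0 < p i) :
    ∃ X : ℝ → (Fin n → ℝ) × (Fin n → ℝ), AnalyticAt ℝ X s ∧
      ∀ᶠ r in 𝓝 s, IsSol V r (X r).1 (X r).2 ∧ (∀ i, 0 < (X r).1 i) ∧ ∀ i, 0 < (X r).2 i := by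
  set z0 : ℝ × ((Fin n → ℝ) × (Fin n → ℝ)) := (s, (q, p)) with hz0
  have hinj := fderiv_Psi_injective h hs hS hq hp
  let L : (ℝ × ((Fin n → ℝ) × (Fin n → ℝ))) →ₗ[ℝ] (ℝ × ((Fin n → ℝ) × (Fin n → ℝ))) :=
    (fderiv ℝ (Psi V) z0 : (ℝ × ((Fin n → ℝ) × (Fin n → ℝ))) →ₗ[ℝ]
      (ℝ × ((Fin n → ℝ) × (Fin n → ℝ))))
  let e : (ℝ × ((Fin n → ℝ) × (Fin n → ℝ))) ≃L[ℝ] (ℝ × ((Fin n → ℝ) × (Fin n → ℝ))) :=
    (LinearEquiv.ofInjectiveEndo L hinj).toContinuousLinearEquiv
  have he : (e : (ℝ × ((Fin n → ℝ) × (Fin n → ℝ))) →L[ℝ] (ℝ × ((Fin n → ℝ) × (Fin n → ℝ))))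
      = fderiv ℝ (Psi V) z0 := by
    apply ContinuousLinearMap.ext
    intro v
    rfl
  have hcd : ContDiffAt ℝ ω (Psi V) z0 := (contDiff_Psi V).contDiffAt
  have hd : HasFDerivAt (Psi V)
      (e : (ℝ × ((Fin n → ℝ) × (Fin n → ℝ))) →L[ℝ] (ℝ × ((Fin n → ℝ) × (Fin n → ℝ)))) z0 := by
    rw [he]
    exact ((contDiff_Psi V).differentiable (by simp)).differentiableAt.hasFDerivAt
  have hω : (ω : WithTop ℕ∞) ≠ 0 := by simp
  set g := hcd.localInverse hd hω with hg
  have hgc : ContDiffAt ℝ ω g (Psi V z0) := hcd.to_localInverse hd hω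
  have hg0 : g (Psi V z0) = z0 := hcd.localInverse_apply_image hd hω
  have hri : ∀ᶠ y in 𝓝 (Psi V z0), Psi V (g y) = y :=
    (hcd.hasStrictFDerivAt' hd hω).eventually_right_inverse
  have hPz : Psi V z0 = (s, 0) := by
    have hF := fun i => hS.facts h hs hq hp i
    have hsum : ∑ k, q k - ∑ k, p k = 0 := sub_eq_zero.2 hS.sum_eq
    simp only [Psi, hz0]
    refine Prod.ext rfl (Prod.ext ?_ ?_)
    · funext i
      have := (hF i).2.2.2.1
      show q i * (s ^ 2 + bv V p i * av V q i) - av V q i + (∑ k, q k - ∑ k, p k) = 0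
      rw [hsum, this]; ring
    · funext i
      have := (hF i).2.2.2.2
      show p i * (s ^ 2 + bv V p i * av V q i) - bv V p i - (∑ k, q k - ∑ k, p k) = 0
      rw [hsum, this]; ring
  rw [hPz] at hgc hg0 hri
  have hι : ContDiff ℝ ω (fun r : ℝ => (r, (0 : (Fin n → ℝ) × (Fin n → ℝ)))) := by fun_prop
  have hιt : Tendsto (fun r : ℝ => (r, (0 : (Fin n → ℝ) × (Fin n → ℝ)))) (𝓝 s)
      (𝓝 (s, (0 : (Fin n → ℝ) × (Fin n → ℝ)))) := hι.continuous.tendsto s
  have hGc : ContDiffAt ℝ ω (fun r : ℝ => g (r, 0)) s :=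
    ContDiffAt.comp s (g := g) (f := fun r : ℝ => (r, (0 : (Fin n → ℝ) × (Fin n → ℝ)))) hgc
      hι.contDiffAt
  refine ⟨fun r => (g (r, 0)).2, ?_, ?_⟩
  · exact (hGc.snd).analyticAt
  · have hcont : ContinuousAt (fun r : ℝ => g (r, 0)) s := hGc.continuousAt
    have hpos1 : ∀ i, ∀ᶠ r in 𝓝 s, 0 < (g (r, 0)).2.1 i := by
      intro i
      have hc : ContinuousAt (fun r : ℝ => (g (r, 0)).2.1 i) s :=
        ((continuous_apply i).continuousAt).comp (hcont.snd.fst)
      refine hc.eventually (lt_mem_nhds ?_) |>.mono fun r hr => hr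
      show 0 < (g (s, 0)).2.1 i
      rw [hg0]
      exact hq i
    have hpos2 : ∀ i, ∀ᶠ r in 𝓝 s, 0 < (g (r, 0)).2.2 i := by
      intro i
      have hc : ContinuousAt (fun r : ℝ => (g (r, 0)).2.2 i) s :=
        ((continuous_apply i).continuousAt).comp (hcont.snd.snd)
      refine hc.eventually (lt_mem_nhds ?_) |>.mono fun r hr => hr
      show 0 < (g (s, 0)).2.2 i
      rw [hg0]
      exact hp i
    filter_upwards [hιt.eventually hri, Filter.eventually_all.2 hpos1,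
      Filter.eventually_all.2 hpos2, lt_mem_nhds hs] with r hr h1 h2 hr0
    refine ⟨?_, h1, h2⟩
    have hfst : (g (r, 0)).1 = r := by
      have := congrArg Prod.fst hr
      exact this
    have hA := congrArg (fun z => z.2.1) hr
    have hB := congrArg (fun z => z.2.2) hr
    simp only [Psi] at hA hB
    rw [hfst] at hA hB
    exact isSol_of_zero h hr0 h1 h2 (fun i => congrFun hA i) (fun i => congrFun hB i)

/-- A family of nonzero solutions on `(0, R)` is analytic there. -/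
theorem family_analytic {V : Matrix (Fin n) (Fin n) ℝ} (h : Good V) {R : ℝ}
    {q p : ℝ → Fin n → ℝ} (hS : ∀ s, 0 < s → s < R → IsSol V s (q s) (p s))
    (hne : ∀ s, 0 < s → s < R → ¬ (q s = 0 ∧ p s = 0)) :
    AnalyticOnNhd ℝ (fun s => ∑ i, q s i * bv V (p s) i) (Set.Ioo 0 R) := by
  intro s hs
  obtain ⟨hs0, hsR⟩ := hs
  obtain ⟨hq, hp⟩ := (hS s hs0 hsR).pos h hs0 (hne s hs0 hsR)
  obtain ⟨X, hX, hev⟩ := local_branch h hs0 (hS s hs0 hsR) hq hp
  have heq : (fun r => ∑ i, (X r).1 i * bv V (X r).2 i) =ᶠ[𝓝 s]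
      fun r => ∑ i, q r i * bv V (p r) i := by
    filter_upwards [hev, Ioo_mem_nhds hs0 hsR] with r hr hr2
    obtain ⟨hr1, hr3, hr4⟩ := hr
    obtain ⟨hqr, hpr⟩ := (hS r hr2.1 hr2.2).pos h hr2.1 (hne r hr2.1 hr2.2)
    obtain ⟨e1, e2⟩ := IsSol.unique h hr2.1 (hS r hr2.1 hr2.2) hqr hpr hr1 hr3 hr4
    rw [e1, e2]
  refine AnalyticAt.congr ?_ heq
  have h1 : ∀ i, AnalyticAt ℝ (fun r => (X r).1 i) s := by
    intro i
    have : ContDiffAt ℝ ω (fun r => (X r).1 i) s := by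
      have hX' : ContDiffAt ℝ ω X s := hX.contDiffAt
      exact contDiffAt_pi.1 hX'.fst i
    exact this.analyticAt
  have h2 : ∀ i, AnalyticAt ℝ (fun r => (X r).2 i) s := by
    intro i
    have : ContDiffAt ℝ ω (fun r => (X r).2 i) s := by
      have hX' : ContDiffAt ℝ ω X s := hX.contDiffAt
      exact contDiffAt_pi.1 hX'.snd i
    exact this.analyticAt
  unfold bv
  have h3 : ∀ i, AnalyticAt ℝ (fun r => ∑ j, V i j * (X r).2 j) s := fun i =>
    Finset.analyticAt_fun_sum _ fun j _ => analyticAt_const.mul (h2 j)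
  exact Finset.analyticAt_fun_sum _ fun i _ => (h1 i).mul (h3 i)

end Pool.Agent.R530.VP
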